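import Pool.Agent.KCS.St

/-!
# KCS AXS (helper51): the systems of charts are the models of a sentence
-/

set_option autoImplicit false
set_option linter.unusedVariables false

namespace Pool.Agent.KCS

open FirstOrder Set Cardinal

/-! ### The calculus -/

section dfn

variable {W : Type} {n : ℕ}

theorem axs_congr {P Q : ∀ (U : Type) [(Lg W).Structure U], (Fin n → U) → Prop}
    (h : Dfn (Lg W) n P)
    (e : ∀ (U : Type) [(Lg W).Structure U] (v : Fin n → U), P U v ↔ Q U v) :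
    Dfn (Lg W) n Q := by
  obtain ⟨φ, hφ⟩ := h
  exact ⟨φ, fun U _ v => (hφ U v).trans (e U v)⟩

theorem axs_not (hD : St_DFN) {P : ∀ (U : Type) [(Lg W).Structure U], (Fin n → U) → Prop}
    (h : Dfn (Lg W) n P) : Dfn (Lg W) n (fun U _ v => ¬ P U v) := (hD W).1 n P h

theorem axs_iall (hD : St_DFN) {ι : Type} [Countable ι]
    {P : ι → ∀ (U : Type) [(Lg W).Structure U], (Fin n → U) → Prop}
    (h : ∀ i, Dfn (Lg W) n (P i)) : Dfn (Lg W) n (fun U _ v => ∀ i, P i U v) :=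
  ((hD W).2.1 n ι P h).1

theorem axs_iex (hD : St_DFN) {ι : Type} [Countable ι]
    {P : ι → ∀ (U : Type) [(Lg W).Structure U], (Fin n → U) → Prop}
    (h : ∀ i, Dfn (Lg W) n (P i)) : Dfn (Lg W) n (fun U _ v => ∃ i, P i U v) :=
  ((hD W).2.1 n ι P h).2

theorem axs_allk (hD : St_DFN) {k : ℕ}
    {Q : ∀ (U : Type) [(Lg W).Structure U], (Fin n → U) → (Fin k → U) → Prop}
    (h : Dfn (Lg W) (n + k)
      (fun U _ w => Q U (fun i => w (Fin.castAdd k i)) (fun j => w (Fin.natAdd n j)))) :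
    Dfn (Lg W) n (fun U _ v => ∀ x : Fin k → U, Q U v x) := by
  refine axs_congr ((hD W).2.2.1 n k _ h).1 (fun U _ v => forall_congr' fun x => ?_)
  simp only [Fin.append_left, Fin.append_right]

theorem axs_exk (hD : St_DFN) {k : ℕ}
    {Q : ∀ (U : Type) [(Lg W).Structure U], (Fin n → U) → (Fin k → U) → Prop}
    (h : Dfn (Lg W) (n + k)
      (fun U _ w => Q U (fun i => w (Fin.castAdd k i)) (fun j => w (Fin.natAdd n j)))) :
    Dfn (Lg W) n (fun U _ v => ∃ x : Fin k → U, Q U v x) := by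
  refine axs_congr ((hD W).2.2.1 n k _ h).2 (fun U _ v => exists_congr fun x => ?_)
  simp only [Fin.append_left, Fin.append_right]

theorem axs_all (hD : St_DFN)
    {Q : ∀ (U : Type) [(Lg W).Structure U], (Fin n → U) → U → Prop}
    (h : Dfn (Lg W) (n + 1)
      (fun U _ w => Q U (fun i => w (Fin.castAdd 1 i)) (w (Fin.natAdd n 0)))) :
    Dfn (Lg W) n (fun U _ v => ∀ x : U, Q U v x) := by
  refine axs_congr (axs_allk hD (Q := fun U _ v x => Q U v (x 0)) h) (fun U _ v => ?_)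
  exact ⟨fun h1 x => h1 fun _ => x, fun h1 x => h1 (x 0)⟩

theorem axs_ex (hD : St_DFN)
    {Q : ∀ (U : Type) [(Lg W).Structure U], (Fin n → U) → U → Prop}
    (h : Dfn (Lg W) (n + 1)
      (fun U _ w => Q U (fun i => w (Fin.castAdd 1 i)) (w (Fin.natAdd n 0)))) :
    Dfn (Lg W) n (fun U _ v => ∃ x : U, Q U v x) := by
  refine axs_congr (axs_exk hD (Q := fun U _ v x => Q U v (x 0)) h) (fun U _ v => ?_)
  exact ⟨fun ⟨x, h1⟩ => ⟨x 0, h1⟩, fun ⟨x, h1⟩ => ⟨fun _ => x, h1⟩⟩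

theorem axs_eq (hD : St_DFN) (i j : Fin n) : Dfn (Lg W) n (fun U _ v => v i = v j) :=
  (hD W).2.2.2.1 n i j

theorem axs_rw (hD : St_DFN) (w : W) (i j : Fin n) :
    Dfn (Lg W) n (fun U _ v => Rw W U w (v i) (v j)) := (hD W).2.2.2.2 n w i j

theorem axs_const (hD : St_DFN) (c : Prop) : Dfn (Lg W) n (fun U _ v => c) := by
  have h1 : Dfn (Lg W) n (fun U _ v => True) :=
    axs_congr (axs_iall hD (ι := Empty) (P := fun i => i.elim) fun i => i.elim)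
      (fun U _ v => ⟨fun _ => trivial, fun _ i => i.elim⟩)
  by_cases hc : c
  · exact axs_congr h1 fun U _ v => ⟨fun _ => hc, fun _ => trivial⟩
  · exact axs_congr (axs_not hD h1) fun U _ v => ⟨fun h => absurd trivial h, fun h => absurd h hc⟩

theorem axs_and (hD : St_DFN) {P Q : ∀ (U : Type) [(Lg W).Structure U], (Fin n → U) → Prop}
    (h : Dfn (Lg W) n P) (h' : Dfn (Lg W) n Q) : Dfn (Lg W) n (fun U _ v => P U v ∧ Q U v) := by
  refine axs_congr (axs_iall hD (ι := Bool)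
    (P := fun i U _ v => (i = true → P U v) ∧ (i = false → Q U v)) ?_) (fun U _ v => ?_)
  · intro i
    cases i
    · exact axs_congr h' fun U _ v => ⟨fun h1 => ⟨fun h2 => absurd h2 Bool.false_ne_true,
        fun _ => h1⟩, fun h1 => h1.2 rfl⟩
    · exact axs_congr h fun U _ v => ⟨fun h1 => ⟨fun _ => h1,
        fun h2 => absurd h2.symm Bool.false_ne_true⟩, fun h1 => h1.1 rfl⟩
  · exact ⟨fun h1 => ⟨(h1 true).1 rfl, (h1 false).2 rfl⟩,
      fun h1 i => ⟨fun _ => h1.1, fun _ => h1.2⟩⟩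

theorem axs_or (hD : St_DFN) {P Q : ∀ (U : Type) [(Lg W).Structure U], (Fin n → U) → Prop}
    (h : Dfn (Lg W) n P) (h' : Dfn (Lg W) n Q) : Dfn (Lg W) n (fun U _ v => P U v ∨ Q U v) := by
  refine axs_congr (axs_not hD (axs_and hD (axs_not hD h) (axs_not hD h'))) (fun U _ v => ?_)
  tauto

theorem axs_imp (hD : St_DFN) {P Q : ∀ (U : Type) [(Lg W).Structure U], (Fin n → U) → Prop}
    (h : Dfn (Lg W) n P) (h' : Dfn (Lg W) n Q) : Dfn (Lg W) n (fun U _ v => P U v → Q U v) := by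
  refine axs_congr (axs_or hD (axs_not hD h) h') (fun U _ v => ?_)
  tauto

end dfn

/-! ### The conditions -/

/-- `x` is a chart -/
def axs_Ch (W U : Type) [(Lg W).Structure U] (x : U) : Prop := ∃ w : W, ∃ b : U, Rw W U w x b

/-- `b` is a point -/
def axs_Pt (W U : Type) [(Lg W).Structure U] (b : U) : Prop := ∃ w : W, ∃ x : U, Rw W U w x b

/-- the data of the condition `ext` -/
def axs_E {W : Type} (M : Set (W → W)) : Type :=
  {q : M × (Σ n : ℕ, (Fin n → W) × (Fin n → W)) //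
    Function.Injective q.2.2.1 ∧ ∀ i, q.2.2.1 i = q.1.1 (q.2.2.2 i)}

/-- the conditions, in terms of the relations -/
structure axs_C {W : Type} (M : Set (W → W)) (U : Type) [(Lg W).Structure U] : Prop where
  xor : ∀ u : U, (axs_Ch W U u ∧ ¬ axs_Pt W U u) ∨ (¬ axs_Ch W U u ∧ axs_Pt W U u)
  tot : ∀ x b : U, axs_Ch W U x → axs_Pt W U b → ∃ w : W, Rw W U w x b
  fn : ∀ q : W × W, ∀ x b : U, q.1 = q.2 ∨ ¬ (Rw W U q.1 x b ∧ Rw W U q.2 x b)
  inj : ∀ x y : U, axs_Ch W U x → axs_Ch W U y → ¬ x = y →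
    ∃ b : U, ∃ w : W, Rw W U w x b ∧ ¬ Rw W U w y b
  ne : ∃ x : U, axs_Ch W U x
  act : ∀ m : M, ∀ x : U, axs_Ch W U x → ∃ y : U, axs_Ch W U y ∧
    ∀ b : U, ∀ w : W, Rw W U w x b → Rw W U (m.1 w) y b
  dir : ∀ x x' : U, axs_Ch W U x → axs_Ch W U x' → ∃ y : U, axs_Ch W U y ∧
    ∃ q : M × M, ∀ b : U, ∀ w : W, Rw W U w y b → Rw W U (q.1.1 w) x b ∧ Rw W U (q.2.1 w) x' b
  sep : ∀ a b : U, axs_Pt W U a → axs_Pt W U b → ¬ a = b →
    ∃ x : U, ∃ w : W, Rw W U w x a ∧ ¬ Rw W U w x b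
  ext : ∀ q : axs_E M, ∀ x : U, ∀ a : Fin q.1.2.1 → U, axs_Ch W U x →
    (∀ i, Rw W U (q.1.2.2.1 i) x (a i)) → ∃ y : U, axs_Ch W U y ∧
      (∀ b : U, ∀ w : W, Rw W U w y b → Rw W U (q.1.1.1 w) x b) ∧
      ∀ i, Rw W U (q.1.2.2.2 i) y (a i)
  fib : ∀ q : W × ℕ, ∀ x : U, axs_Ch W U x → ∃ a : Fin q.2 → U,
    (∀ i, Rw W U q.1 x (a i)) ∧ ∀ z : Fin q.2 × Fin q.2, z.1 = z.2 ∨ ¬ a z.1 = a z.2

section dfn2

variable {W : Type} {n : ℕ}

theorem axs_dCh (hD : St_DFN) [Countable W] (i : Fin n) :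
    Dfn (Lg W) n (fun U _ v => axs_Ch W U (v i)) :=
  axs_iex hD fun w => axs_ex hD (axs_rw hD w _ _)

theorem axs_dPt (hD : St_DFN) [Countable W] (i : Fin n) :
    Dfn (Lg W) n (fun U _ v => axs_Pt W U (v i)) :=
  axs_iex hD fun w => axs_ex hD (axs_rw hD w _ _)

theorem axs_xor (hD : St_DFN) [Countable W] : Dfn (Lg W) 0 (fun U _ _ =>
    ∀ u : U, (axs_Ch W U u ∧ ¬ axs_Pt W U u) ∨ (¬ axs_Ch W U u ∧ axs_Pt W U u)) :=
  axs_all hD (axs_or hD (axs_and hD (axs_dCh hD _) (axs_not hD (axs_dPt hD _)))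
    (axs_and hD (axs_not hD (axs_dCh hD _)) (axs_dPt hD _)))

theorem axs_tot (hD : St_DFN) [Countable W] : Dfn (Lg W) 0 (fun U _ _ =>
    ∀ x b : U, axs_Ch W U x → axs_Pt W U b → ∃ w : W, Rw W U w x b) :=
  axs_all hD (axs_all hD (axs_imp hD (axs_dCh hD _) (axs_imp hD (axs_dPt hD _)
    (axs_iex hD fun w => axs_rw hD w _ _))))

theorem axs_fn (hD : St_DFN) [Countable W] : Dfn (Lg W) 0 (fun U _ _ =>
    ∀ q : W × W, ∀ x b : U, q.1 = q.2 ∨ ¬ (Rw W U q.1 x b ∧ Rw W U q.2 x b)) :=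
  axs_iall hD fun q => axs_all hD (axs_all hD (axs_or hD (axs_const hD _)
    (axs_not hD (axs_and hD (axs_rw hD _ _ _) (axs_rw hD _ _ _)))))

theorem axs_inj (hD : St_DFN) [Countable W] : Dfn (Lg W) 0 (fun U _ _ =>
    ∀ x y : U, axs_Ch W U x → axs_Ch W U y → ¬ x = y →
      ∃ b : U, ∃ w : W, Rw W U w x b ∧ ¬ Rw W U w y b) :=
  axs_all hD (axs_all hD (axs_imp hD (axs_dCh hD _) (axs_imp hD (axs_dCh hD _)
    (axs_imp hD (axs_not hD (axs_eq hD _ _)) (axs_ex hD (axs_iex hD fun w =>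
      axs_and hD (axs_rw hD _ _ _) (axs_not hD (axs_rw hD _ _ _))))))))

theorem axs_ne (hD : St_DFN) [Countable W] : Dfn (Lg W) 0 (fun U _ _ =>
    ∃ x : U, axs_Ch W U x) := axs_ex hD (axs_dCh hD _)

theorem axs_act (hD : St_DFN) [Countable W] (M : Set (W → W)) [Countable M] :
    Dfn (Lg W) 0 (fun U _ _ => ∀ m : M, ∀ x : U, axs_Ch W U x → ∃ y : U, axs_Ch W U y ∧
      ∀ b : U, ∀ w : W, Rw W U w x b → Rw W U (m.1 w) y b) :=
  axs_iall hD fun m => axs_all hD (axs_imp hD (axs_dCh hD _) (axs_ex hD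
    (axs_and hD (axs_dCh hD _) (axs_all hD (axs_iall hD fun w =>
      axs_imp hD (axs_rw hD _ _ _) (axs_rw hD _ _ _))))))

theorem axs_dir (hD : St_DFN) [Countable W] (M : Set (W → W)) [Countable M] :
    Dfn (Lg W) 0 (fun U _ _ => ∀ x x' : U, axs_Ch W U x → axs_Ch W U x' →
      ∃ y : U, axs_Ch W U y ∧ ∃ q : M × M, ∀ b : U, ∀ w : W, Rw W U w y b →
        Rw W U (q.1.1 w) x b ∧ Rw W U (q.2.1 w) x' b) :=
  axs_all hD (axs_all hD (axs_imp hD (axs_dCh hD _) (axs_imp hD (axs_dCh hD _)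
    (axs_ex hD (axs_and hD (axs_dCh hD _) (axs_iex hD fun q => axs_all hD
      (axs_iall hD fun w => axs_imp hD (axs_rw hD _ _ _)
        (axs_and hD (axs_rw hD _ _ _) (axs_rw hD _ _ _)))))))))

theorem axs_sep (hD : St_DFN) [Countable W] : Dfn (Lg W) 0 (fun U _ _ =>
    ∀ a b : U, axs_Pt W U a → axs_Pt W U b → ¬ a = b →
      ∃ x : U, ∃ w : W, Rw W U w x a ∧ ¬ Rw W U w x b) :=
  axs_all hD (axs_all hD (axs_imp hD (axs_dPt hD _) (axs_imp hD (axs_dPt hD _)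
    (axs_imp hD (axs_not hD (axs_eq hD _ _)) (axs_ex hD (axs_iex hD fun w =>
      axs_and hD (axs_rw hD _ _ _) (axs_not hD (axs_rw hD _ _ _))))))))

instance axs_cE [Countable W] (M : Set (W → W)) [Countable M] : Countable (axs_E M) := by
  unfold axs_E
  infer_instance

theorem axs_ext (hD : St_DFN) [Countable W] (M : Set (W → W)) [Countable M] :
    Dfn (Lg W) 0 (fun U _ _ => ∀ q : axs_E M, ∀ x : U, ∀ a : Fin q.1.2.1 → U, axs_Ch W U x →
      (∀ i, Rw W U (q.1.2.2.1 i) x (a i)) → ∃ y : U, axs_Ch W U y ∧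
        (∀ b : U, ∀ w : W, Rw W U w y b → Rw W U (q.1.1.1 w) x b) ∧
        ∀ i, Rw W U (q.1.2.2.2 i) y (a i)) :=
  axs_iall hD fun q => axs_all hD (axs_allk hD (axs_imp hD (axs_dCh hD _)
    (axs_imp hD (axs_iall hD fun i => axs_rw hD _ _ _) (axs_ex hD (axs_and hD (axs_dCh hD _)
      (axs_and hD (axs_all hD (axs_iall hD fun w => axs_imp hD (axs_rw hD _ _ _)
        (axs_rw hD _ _ _))) (axs_iall hD fun i => axs_rw hD _ _ _)))))))

theorem axs_fib (hD : St_DFN) [Countable W] : Dfn (Lg W) 0 (fun U _ _ =>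
    ∀ q : W × ℕ, ∀ x : U, axs_Ch W U x → ∃ a : Fin q.2 → U,
      (∀ i, Rw W U q.1 x (a i)) ∧ ∀ z : Fin q.2 × Fin q.2, z.1 = z.2 ∨ ¬ a z.1 = a z.2) :=
  axs_iall hD fun q => axs_all hD (axs_imp hD (axs_dCh hD _) (axs_exk hD
    (axs_and hD (axs_iall hD fun i => axs_rw hD _ _ _) (axs_iall hD fun z =>
      axs_or hD (axs_const hD _) (axs_not hD (axs_eq hD _ _))))))

theorem axs_dfn (hD : St_DFN) [Countable W] (M : Set (W → W)) [Countable M] :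
    Dfn (Lg W) 0 (fun U _ _ => axs_C M U) :=
  axs_congr (axs_and hD (axs_xor hD) (axs_and hD (axs_tot hD) (axs_and hD (axs_fn hD)
    (axs_and hD (axs_inj hD) (axs_and hD (axs_ne hD) (axs_and hD (axs_act hD M)
      (axs_and hD (axs_dir hD M) (axs_and hD (axs_sep hD) (axs_and hD (axs_ext hD M)
        (axs_fib hD)))))))))) (fun U _ v =>
    ⟨fun ⟨h1, h2, h3, h4, h5, h6, h7, h8, h9, h10⟩ => ⟨h1, h2, h3, h4, h5, h6, h7, h8, h9, h10⟩,
      fun ⟨h1, h2, h3, h4, h5, h6, h7, h8, h9, h10⟩ => ⟨h1, h2, h3, h4, h5, h6, h7, h8, h9, h10⟩⟩)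

end dfn2

/-! ### Systems and conditions -/

section sys

variable {W : Type} {M : Set (W → W)}

theorem axs_nonempty (hM : Mon M) : Nonempty W := by
  obtain ⟨x, -, hx⟩ := hM.non
  by_contra hc
  rw [not_nonempty_iff] at hc
  exact hx fun a => hc.elim a

theorem axs_of_mod (hM : Mon M) (U : Type) [(Lg W).Structure U] (h : IsMod M U) : axs_C M U := by
  obtain ⟨p, val, hR, hinj, hS⟩ := h
  obtain ⟨w0⟩ := axs_nonempty hM
  -- values
  have hval : ∀ (x : {x : U // ¬ p x}) (b : {b : U // p b}), Rw W U (val x b) x.1 b.1 :=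
    fun x b => (hR _ _ _).2 ⟨x.2, b.2, rfl⟩
  have hval2 : ∀ (x : {x : U // ¬ p x}) (b : {b : U // p b}) (w : W),
      Rw W U w x.1 b.1 → val x b = w := by
    intro x b w h1
    obtain ⟨_, _, h2⟩ := (hR _ _ _).1 h1
    exact h2
  have hCh : ∀ x : U, axs_Ch W U x ↔ ¬ p x := by
    intro x
    constructor
    · rintro ⟨w, b, h1⟩
      obtain ⟨h2, -, -⟩ := (hR _ _ _).1 h1
      exact h2
    · intro hx
      obtain ⟨a, ha, -⟩ := hS.fib (val ⟨x, hx⟩) ⟨_, rfl⟩ w0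
      exact ⟨w0, (a 0).1, (hR _ _ _).2 ⟨hx, (a 0).2, ha 0⟩⟩
  obtain ⟨_, x0, rfl⟩ := hS.ne
  have hPt : ∀ b : U, axs_Pt W U b ↔ p b := by
    intro b
    constructor
    · rintro ⟨w, x, h1⟩
      obtain ⟨-, h2, -⟩ := (hR _ _ _).1 h1
      exact h2
    · intro hb
      exact ⟨_, x0.1, hval x0 ⟨b, hb⟩⟩
  refine ⟨?_, ?_, ?_, ?_, ?_, ?_, ?_, ?_, ?_, ?_⟩
  · intro u
    rw [hCh, hPt]
    by_cases hu : p u
    · exact Or.inr ⟨fun h1 => h1 hu, hu⟩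
    · exact Or.inl ⟨hu, hu⟩
  · intro x b hx hb
    exact ⟨_, hval ⟨x, (hCh x).1 hx⟩ ⟨b, (hPt b).1 hb⟩⟩
  · rintro ⟨w, w'⟩ x b
    by_cases hw : w = w'
    · exact Or.inl hw
    · refine Or.inr fun ⟨h1, h2⟩ => hw ?_
      obtain ⟨h3, h4, h5⟩ := (hR _ _ _).1 h1
      obtain ⟨_, _, h6⟩ := (hR _ _ _).1 h2
      exact h5.symm.trans h6
  · intro x y hx hy hxy
    by_contra hc
    apply hxy
    have h1 : val ⟨x, (hCh x).1 hx⟩ = val ⟨y, (hCh y).1 hy⟩ := by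
      funext b
      by_contra h2
      apply hc
      refine ⟨b.1, val ⟨x, (hCh x).1 hx⟩ b, hval ⟨x, (hCh x).1 hx⟩ b, fun h3 => h2 ?_⟩
      exact (hval2 ⟨y, (hCh y).1 hy⟩ b _ h3).symm
    have h2 := hinj h1
    exact congrArg Subtype.val h2
  · exact ⟨x0.1, (hCh _).2 x0.2⟩
  · intro m x hx
    obtain ⟨y, hy⟩ := hS.act (val ⟨x, (hCh x).1 hx⟩) ⟨_, rfl⟩ m.1 m.2
    refine ⟨y.1, (hCh _).2 y.2, fun b w h1 => ?_⟩
    obtain ⟨h2, h3, h4⟩ := (hR _ _ _).1 h1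
    refine (hR _ _ _).2 ⟨y.2, h3, ?_⟩
    have h5 := congrFun hy ⟨b, h3⟩
    rw [← h4]
    exact h5
  · intro x x' hx hx'
    obtain ⟨_, ⟨y, rfl⟩, m, hm, k, hk, h1, h2⟩ := hS.dir (val ⟨x, (hCh x).1 hx⟩) ⟨_, rfl⟩
      (val ⟨x', (hCh x').1 hx'⟩) ⟨_, rfl⟩
    refine ⟨y.1, (hCh _).2 y.2, ⟨⟨m, hm⟩, ⟨k, hk⟩⟩, fun b w h3 => ?_⟩
    obtain ⟨h4, h5, h6⟩ := (hR _ _ _).1 h3
    have h7 := congrFun h1 ⟨b, h5⟩
    have h8 := congrFun h2 ⟨b, h5⟩
    refine ⟨(hR _ _ _).2 ⟨(hCh x).1 hx, h5, ?_⟩, (hR _ _ _).2 ⟨(hCh x').1 hx', h5, ?_⟩⟩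
    · rw [← h6]
      exact h7
    · rw [← h6]
      exact h8
  · intro a b ha hb hab
    obtain ⟨_, ⟨x, rfl⟩, h1⟩ := hS.sep ⟨a, (hPt a).1 ha⟩ ⟨b, (hPt b).1 hb⟩ (by
      intro h2
      exact hab (congrArg Subtype.val h2))
    refine ⟨x.1, _, hval x ⟨a, (hPt a).1 ha⟩, fun h2 => h1 ?_⟩
    exact (hval2 x ⟨b, (hPt b).1 hb⟩ _ h2).symm
  · rintro ⟨⟨⟨m, hm⟩, ⟨n, t, s⟩⟩, ht, hts⟩ x a hx ha
    have hpa : ∀ i, p (a i) := by
      intro i
      obtain ⟨-, h1, -⟩ := (hR _ _ _).1 (ha i)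
      exact h1
    obtain ⟨_, ⟨y, rfl⟩, h1, h2⟩ := hS.ext (val ⟨x, (hCh x).1 hx⟩) ⟨_, rfl⟩ m hm n
      (fun i => ⟨a i, hpa i⟩) s
      (fun i => (hval2 ⟨x, (hCh x).1 hx⟩ ⟨a i, hpa i⟩ _ (ha i)).trans (hts i))
      (by
        have h3 : (fun i => val ⟨x, (hCh x).1 hx⟩ ⟨a i, hpa i⟩) = t := by
          funext i
          exact hval2 ⟨x, (hCh x).1 hx⟩ ⟨a i, hpa i⟩ _ (ha i)
        rw [h3]
        exact ht)
    refine ⟨y.1, (hCh _).2 y.2, fun b w h3 => ?_, fun i => ?_⟩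
    · obtain ⟨h4, h5, h6⟩ := (hR _ _ _).1 h3
      refine (hR _ _ _).2 ⟨(hCh x).1 hx, h5, ?_⟩
      have h7 := congrFun h1 ⟨b, h5⟩
      rw [← h6]
      exact h7
    · exact (hR _ _ _).2 ⟨y.2, hpa i, h2 i⟩
  · rintro ⟨w, n⟩ x hx
    obtain ⟨a, ha, hab⟩ := hS.fib (val ⟨x, (hCh x).1 hx⟩) ⟨_, rfl⟩ w
    refine ⟨fun i => (a i.1).1, fun i => (hR _ _ _).2 ⟨(hCh x).1 hx, (a i.1).2, ha i.1⟩, ?_⟩
    rintro ⟨i, j⟩
    by_cases hij : i = j
    · exact Or.inl hij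
    · refine Or.inr fun h1 => hab i.1 j.1 (fun h2 => hij (Fin.ext h2)) ?_
      exact Subtype.ext h1

theorem axs_to_mod (hM : Mon M) (U : Type) [(Lg W).Structure U] (h : axs_C M U) : IsMod M U := by
  classical
  have hch : ∀ x : U, ¬ axs_Pt W U x → axs_Ch W U x := by
    intro x hx
    rcases h.xor x with h1 | h1
    · exact h1.1
    · exact absurd h1.2 hx
  have hnp : ∀ x : U, axs_Ch W U x → ¬ axs_Pt W U x := by
    intro x hx
    rcases h.xor x with h1 | h1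
    · exact h1.2
    · exact absurd hx h1.1
  have hfn : ∀ (w w' : W) (x b : U), Rw W U w x b → Rw W U w' x b → w = w' := by
    intro w w' x b h1 h2
    rcases h.fn (w, w') x b with h3 | h3
    · exact h3
    · exact absurd ⟨h1, h2⟩ h3
  have hex : ∀ (x : {x : U // ¬ axs_Pt W U x}) (b : {b : U // axs_Pt W U b}),
      ∃ w : W, Rw W U w x.1 b.1 := fun x b => h.tot x.1 b.1 (hch _ x.2) b.2
  choose val hval using hex
  have hvalw : ∀ (x : {x : U // ¬ axs_Pt W U x}) (b : {b : U // axs_Pt W U b}) (w : W),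
      Rw W U w x.1 b.1 → val x b = w := fun x b w h1 => hfn _ _ _ _ (hval x b) h1
  refine ⟨axs_Pt W U, val, ?_, ?_, ?_⟩
  · intro w x b
    constructor
    · intro h1
      have hx : axs_Ch W U x := ⟨w, b, h1⟩
      have hb : axs_Pt W U b := ⟨w, x, h1⟩
      exact ⟨hnp x hx, hb, hvalw ⟨x, hnp x hx⟩ ⟨b, hb⟩ w h1⟩
    · rintro ⟨hx, hb, rfl⟩
      exact hval ⟨x, hx⟩ ⟨b, hb⟩
  · intro x y hxy
    by_contra hne
    obtain ⟨b, w, h1, h2⟩ := h.inj x.1 y.1 (hch _ x.2) (hch _ y.2) (fun h3 => hne (Subtype.ext h3))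
    have hb : axs_Pt W U b := ⟨w, x.1, h1⟩
    apply h2
    have h3 := hvalw x ⟨b, hb⟩ w h1
    rw [hxy] at h3
    rw [← h3]
    exact hval y ⟨b, hb⟩
  · refine ⟨?_, ?_, ?_, ?_, ?_, ?_, ?_⟩
    · obtain ⟨x, hx⟩ := h.ne
      exact ⟨_, ⟨x, hnp x hx⟩, rfl⟩
    · intro c hc a b hab
      have h1 : a = b := hab
      rw [h1]
    · rintro _ ⟨x, rfl⟩ m hm
      obtain ⟨y, hy, h1⟩ := h.act ⟨m, hm⟩ x.1 (hch _ x.2)
      refine ⟨⟨y, hnp y hy⟩, ?_⟩
      funext b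
      exact hvalw ⟨y, hnp y hy⟩ b _ (h1 b.1 _ (hval x b))
    · rintro _ ⟨x, rfl⟩ _ ⟨x', rfl⟩
      obtain ⟨y, hy, ⟨m, k⟩, h1⟩ := h.dir x.1 x'.1 (hch _ x.2) (hch _ x'.2)
      refine ⟨_, ⟨⟨y, hnp y hy⟩, rfl⟩, m.1, m.2, k.1, k.2, ?_, ?_⟩
      · funext b
        exact hvalw x b _ (h1 b.1 _ (hval ⟨y, hnp y hy⟩ b)).1
      · funext b
        exact hvalw x' b _ (h1 b.1 _ (hval ⟨y, hnp y hy⟩ b)).2
    · intro a b hab
      obtain ⟨x, w, h1, h2⟩ := h.sep a.1 b.1 a.2 b.2 (fun h3 => hab (Subtype.ext h3))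
      have hx : axs_Ch W U x := ⟨w, a.1, h1⟩
      refine ⟨_, ⟨⟨x, hnp x hx⟩, rfl⟩, fun h3 => h2 ?_⟩
      have h4 := hvalw ⟨x, hnp x hx⟩ a w h1
      rw [← h4, h3]
      exact hval ⟨x, hnp x hx⟩ b
    · rintro _ ⟨x, rfl⟩ m hm n a s has hinj
      obtain ⟨y, hy, h1, h2⟩ := h.ext ⟨⟨⟨m, hm⟩, ⟨n, fun i => val x (a i), s⟩⟩, hinj, has⟩ x.1
        (fun i => (a i).1) (hch _ x.2) (fun i => hval x (a i))
      refine ⟨_, ⟨⟨y, hnp y hy⟩, rfl⟩, ?_, fun i => ?_⟩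
      · funext b
        exact hvalw x b _ (h1 b.1 _ (hval ⟨y, hnp y hy⟩ b))
      · exact hvalw ⟨y, hnp y hy⟩ (a i) _ (h2 i)
    · rintro _ ⟨x, rfl⟩ w
      have hinf : {b : {b : U // axs_Pt W U b} | val x b = w}.Infinite := by
        intro hfin
        obtain ⟨a, ha, hab⟩ := h.fib (w, hfin.toFinset.card + 1) x.1 (hch _ x.2)
        have hpa : ∀ i, axs_Pt W U (a i) := fun i => ⟨w, x.1, ha i⟩
        have h1 : ∀ i, (⟨a i, hpa i⟩ : {b : U // axs_Pt W U b}) ∈ hfin.toFinset := by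
          intro i
          rw [Set.Finite.mem_toFinset]
          exact hvalw x ⟨a i, hpa i⟩ w (ha i)
        have h2 : Function.Injective
            (fun i => (⟨a i, hpa i⟩ : {b : U // axs_Pt W U b})) := by
          intro i j hij
          rcases hab (i, j) with h3 | h3
          · exact h3
          · exact absurd (congrArg Subtype.val hij) h3
        have h3 := Finset.card_le_card_of_injOn (s := Finset.univ) (t := hfin.toFinset)
          (fun i => (⟨a i, hpa i⟩ : {b : U // axs_Pt W U b})) (fun i _ => h1 i)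
          (fun i _ j _ hij => h2 hij)
        rw [Finset.card_univ, Fintype.card_fin] at h3
        omega
      refine ⟨fun i => (Set.Infinite.natEmbedding _ hinf i).1,
        fun i => (Set.Infinite.natEmbedding _ hinf i).2, fun i j hij h1 => hij ?_⟩
      exact (Set.Infinite.natEmbedding _ hinf).injective (Subtype.ext h1)

end sys

/-- [AXS] the systems are the models of a sentence -/
theorem thm_AXS (hDFN : St_DFN) : St_AXS := by
  intro W M hM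
  have h1 : Countable W := hM.lab
  have h2 : Countable M := hM.cnt.to_subtype
  obtain ⟨ψ, hψ⟩ := axs_dfn hDFN M
  refine ⟨ψ, fun U _ => ?_⟩
  exact (hψ U Fin.elim0).trans ⟨axs_to_mod hM U, axs_of_mod hM U⟩

end Pool.Agent.KCS
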