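import Pool.Agent.KCS.St

/-!
# KCS/BAS: the base system (helper42, after the plan of helper79)
-/

set_option autoImplicit false
set_option linter.unusedVariables false

namespace Pool.Agent.KCS

open Set

theorem thm_BAS : St_BAS := by
  intro W M hM
  refine ⟨?_, ?_, ?_, ?_, ?_, ?_, ?_⟩
  · obtain ⟨x, hx, hxi⟩ := hM.non
    exact ⟨x, hx, hxi⟩
  · rintro c ⟨hc, hci⟩ a b hab
    exact hab c hc hci
  · rintro c ⟨hc, hci⟩ m hm
    exact ⟨hM.comp m hm c hc, fun h => hci (Function.Injective.of_comp h)⟩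
  · rintro c ⟨hc, hci⟩ c' ⟨hc', hci'⟩
    obtain ⟨z, hz, h | h⟩ := hM.chain c hc c' hc'
    · exact ⟨c', ⟨hc', hci'⟩, z, hz, id, hM.one, h, rfl⟩
    · exact ⟨c, ⟨hc, hci⟩, id, hM.one, z, hz, rfl, h⟩
  · intro a b hab
    by_contra hno
    refine hab ?_
    intro n hn hni
    by_contra hne
    exact hno ⟨n, ⟨hn, hni⟩, hne⟩
  · rintro c ⟨hc, hci⟩ m hm n a s hs hinj
    obtain ⟨y, hy, hyi, h, hys⟩ := hM.ext c hc hci m hm n a s hs hinj
    exact ⟨y, ⟨hy, hyi⟩, h, hys⟩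
  · rintro c ⟨hc, hci⟩ w
    obtain ⟨a, ha, hab⟩ := hM.fib c hc hci w
    refine ⟨a, ha, ?_⟩
    intro i j hij h
    obtain ⟨n, hn, hni, hne⟩ := hab i j hij
    exact hne (h n hn hni)

end Pool.Agent.KCS
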