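import Pool.Agent.KCS.St

/-!
# KCS/BIG (helper95): large systems, by Zorn
-/

set_option autoImplicit false
set_option linter.unusedVariables false

namespace Pool.Agent.KCS

open FirstOrder Set Cardinal
open scoped Ordinal

/-- initial segments below a countable ordinal are countable -/
theorem big_countable_Iio (α : Ordinal.{0}) (h : α < ω₁) : (Iio α).Countable := by
  rw [← Cardinal.le_aleph0_iff_set_countable, Cardinal.mk_Iio_ordinal, Cardinal.lift_le_aleph0]
  have h1 : α.card < ℵ₁ := by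
    rw [← Cardinal.lt_ord, Cardinal.ord_aleph]
    exact h
  have h2 : α.card ≤ ℵ₀ := by
    rw [← Order.lt_succ_iff, Cardinal.succ_aleph0]
    exact h1
  exact h2

/-- the pairs of the Zorn argument -/
def BigPair {W X : Type} (M : Set (W → W)) (δ : Ordinal.{0}) (r : Ordinal.{0} → Setoid X) : Type 1 :=
  {p : Ordinal.{0} × Set (X → W) // p.1 ≤ δ ∧ Sys M (r p.1) p.2 ∧ (p.1 < δ → p.2.Countable)}

/-- the relation of the Zorn argument -/
def BigRel {W X : Type} (M : Set (W → W)) (δ : Ordinal.{0}) (r : Ordinal.{0} → Setoid X) (p q : BigPair M δ r) : Prop :=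
  p = q ∨ (p.1.1 < q.1.1 ∧ p.1.2 ⊆ q.1.2)

theorem big_trans {W X : Type} (M : Set (W → W)) (δ : Ordinal.{0}) (r : Ordinal.{0} → Setoid X) (a b c : BigPair M δ r) :
    BigRel M δ r a b → BigRel M δ r b c → BigRel M δ r a c := by
  rintro (rfl | ⟨h1, h2⟩) (rfl | ⟨h3, h4⟩)
  · exact Or.inl rfl
  · exact Or.inr ⟨h3, h4⟩
  · exact Or.inr ⟨h1, h2⟩
  · exact Or.inr ⟨h1.trans h3, h2.trans h4⟩

theorem big_chain {W X : Type} (M : Set (W → W)) (δ : Ordinal.{0}) (r : Ordinal.{0} → Setoid X)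
    (hω : δ ≤ ω₁) (hdec : ∀ α β, α ≤ β → r β ≤ r α)
    (hlim : ∀ α ≤ δ, Order.IsSuccLimit α → ∀ a b, (∀ β < α, r β a b) → r α a b)
    (c : Set (BigPair M δ r)) (hc : IsChain (BigRel M δ r) c) (hne : c.Nonempty) :
    ∃ ub, ∀ a ∈ c, BigRel M δ r a ub := by
  classical
  -- comparability
  have hcmp : ∀ p ∈ c, ∀ q ∈ c, p = q ∨ (p.1.1 < q.1.1 ∧ p.1.2 ⊆ q.1.2) ∨ (q.1.1 < p.1.1 ∧ q.1.2 ⊆ p.1.2) := by
    intro p hp q hq
    by_cases h : p = q
    · exact Or.inl h
    · rcases hc hp hq h with (h1 | h1) | (h1 | h1)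
      · exact absurd h1 h
      · exact Or.inr (Or.inl h1)
      · exact absurd h1.symm h
      · exact Or.inr (Or.inr h1)
  by_cases hmax : ∃ p ∈ c, ∀ q ∈ c, q.1.1 ≤ p.1.1
  · obtain ⟨p, hp, hpm⟩ := hmax
    refine ⟨p, fun q hq => ?_⟩
    rcases hcmp q hq p hp with h | h | h
    · exact Or.inl h
    · exact Or.inr h
    · exact absurd (hpm q hq) (not_le.2 h.1)
  · push Not at hmax
    set S : Set Ordinal.{0} := (fun p : BigPair M δ r => p.1.1) '' c with hS
    have hbdd : BddAbove S := ⟨δ, by rintro _ ⟨p, hp, rfl⟩; exact p.2.1⟩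
    set σ : Ordinal.{0} := sSup S with hσ
    have hle : ∀ p ∈ c, p.1.1 ≤ σ := fun p hp => le_csSup hbdd ⟨p, hp, rfl⟩
    have hlt : ∀ p ∈ c, p.1.1 < σ := by
      intro p hp
      obtain ⟨q, hq, hpq⟩ := hmax p hp
      exact hpq.trans_le (hle q hq)
    have hσδ : σ ≤ δ := csSup_le (hne.image _) (by rintro _ ⟨p, hp, rfl⟩; exact p.2.1)
    have hex : ∀ β < σ, ∃ p ∈ c, β < p.1.1 := by
      intro β hβ
      obtain ⟨_, ⟨p, hp, rfl⟩, h⟩ := exists_lt_of_lt_csSup (hne.image _) hβ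
      exact ⟨p, hp, h⟩
    have hσlim : Order.IsSuccLimit σ := by
      rw [Ordinal.isSuccLimit_iff]
      refine ⟨?_, ?_⟩
      · obtain ⟨p, hp⟩ := hne
        exact (lt_of_le_of_lt (bot_le : (⊥ : Ordinal.{0}) ≤ p.1.1) (hlt p hp)).ne'
      · rw [Order.isSuccPrelimit_iff_succ_lt]
        intro β hβ
        obtain ⟨p, hp, h⟩ := hex β hβ
        exact lt_of_le_of_lt (Order.succ_le_of_lt h) (hlt p hp)
    set Ls : Set (X → W) := ⋃ p ∈ c, p.1.2 with hLs
    have hmem : ∀ x, x ∈ Ls ↔ ∃ p ∈ c, x ∈ p.1.2 := by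
      intro x
      simp [hLs]
    have hsub : ∀ p ∈ c, p.1.2 ⊆ Ls := fun p hp x hx => (hmem x).2 ⟨p, hp, hx⟩
    have hdir2 : ∀ p ∈ c, ∀ q ∈ c, p.1.2 ⊆ q.1.2 ∨ q.1.2 ⊆ p.1.2 := by
      intro p hp q hq
      rcases hcmp p hp q hq with h | h | h
      · exact Or.inl (h ▸ subset_rfl)
      · exact Or.inl h.2
      · exact Or.inr h.2
    have hsys : Sys M (r σ) Ls := by
      refine ⟨?_, ?_, ?_, ?_, ?_, ?_, ?_⟩
      · obtain ⟨p, hp⟩ := hne
        obtain ⟨x, hx⟩ := p.2.2.1.ne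
        exact ⟨x, hsub p hp hx⟩
      · intro x hx a b hab
        obtain ⟨p, hp, hx⟩ := (hmem x).1 hx
        exact p.2.2.1.inv x hx a b (hdec _ _ (hle p hp) hab)
      · intro x hx m hm
        obtain ⟨p, hp, hx⟩ := (hmem x).1 hx
        exact hsub p hp (p.2.2.1.act x hx m hm)
      · intro x hx y hy
        obtain ⟨p, hp, hx⟩ := (hmem x).1 hx
        obtain ⟨q, hq, hy⟩ := (hmem y).1 hy
        rcases hdir2 p hp q hq with h | h
        · obtain ⟨d, hd, m, hm, k, hk, h1, h2⟩ := q.2.2.1.dir x (h hx) y hy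
          exact ⟨d, hsub q hq hd, m, hm, k, hk, h1, h2⟩
        · obtain ⟨d, hd, m, hm, k, hk, h1, h2⟩ := p.2.2.1.dir x hx y (h hy)
          exact ⟨d, hsub p hp hd, m, hm, k, hk, h1, h2⟩
      · intro a b hab
        have h1 : ∃ β < σ, ¬ r β a b := by
          by_contra hcon
          push Not at hcon
          exact hab (hlim σ hσδ hσlim a b hcon)
        obtain ⟨β, hβ, hn⟩ := h1
        obtain ⟨p, hp, hpβ⟩ := hex β hβ
        obtain ⟨x, hx, hxab⟩ := p.2.2.1.sep a b (fun h => hn (hdec _ _ hpβ.le h))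
        exact ⟨x, hsub p hp hx, hxab⟩
      · intro x hx m hm n a s hs hinj
        obtain ⟨p, hp, hx⟩ := (hmem x).1 hx
        obtain ⟨d, hd, h1, h2⟩ := p.2.2.1.ext x hx m hm n a s hs hinj
        exact ⟨d, hsub p hp hd, h1, h2⟩
      · intro x hx w
        obtain ⟨p, hp, hx⟩ := (hmem x).1 hx
        obtain ⟨a, h1, h2⟩ := p.2.2.1.fib x hx w
        exact ⟨a, h1, fun i j hij h => h2 i j hij (hdec _ _ (hle p hp) h)⟩
    have hcnt : σ < δ → Ls.Countable := by
      intro h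
      have hI : (Iio σ).Countable := big_countable_Iio σ (h.trans_le hω)
      have hc2 : c.Countable := by
        refine Set.MapsTo.countable_of_injOn (f := fun p : BigPair M δ r => p.1.1) (t := Iio σ) (fun p hp => hlt p hp) ?_ hI
        intro p hp q hq hpq
        rcases hcmp p hp q hq with h1 | h1 | h1
        · exact h1
        · exact absurd hpq h1.1.ne
        · exact absurd hpq h1.1.ne'
      exact hc2.biUnion (fun p hp => p.2.2.2 ((hlt p hp).trans h))
    exact ⟨⟨(σ, Ls), hσδ, hsys, hcnt⟩, fun p hp => Or.inr ⟨hlt p hp, hsub p hp⟩⟩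

/-- [BIG] large systems, by Zorn -/
theorem thm_BIG (hQUO : St_QUO) (hCST : St_CST) (hEXR : St_EXR) : St_BIG := by
  classical
  intro W M hM X hX δ r hδ hω hdec hbot hcq hlim hsplit
  have h1δ : (1 : Ordinal.{0}) < δ := by
    have h := hδ.succ_lt (bot_lt_iff_ne_bot.2 hδ.ne_bot)
    simpa using h
  -- the start
  have hstart : Nonempty (BigPair M δ r) := by
    have h0δ : (0 : Ordinal.{0}) < δ := lt_trans zero_lt_one h1δ
    obtain ⟨s, hs1, hs2⟩ := hsplit 0 h0δ (Classical.arbitrary X)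
    have : Countable (Quotient (r 1)) := hcq 1 h1δ
    have : Infinite (Quotient (r 1)) := by
      refine Infinite.of_injective (fun i : ℕ => Quotient.mk (r 1) (s i)) ?_
      intro i j hij
      by_contra hne
      have h := hs2 i j hne
      rw [zero_add] at h
      exact h (Quotient.exact hij)
    obtain ⟨L, hLc, hLs⟩ := hCST W M hM (Quotient (r 1))
    exact ⟨⟨(1, (fun c => c ∘ Quotient.mk (r 1)) '' L), h1δ.le, (hQUO W X M (r 1)).2.1 L hLs, fun _ => hLc.image _⟩⟩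
  obtain ⟨m, hm⟩ := exists_maximal_of_nonempty_chains_bounded (r := BigRel M δ r)
    (fun c hc hne => big_chain M δ r hω hdec hlim c hc hne) (fun {a b c} h1 h2 => big_trans M δ r a b c h1 h2)
  rcases m.2.1.lt_or_eq with hlt | heq
  · exfalso
    have h1 : m.1.1 + 1 < δ := by
      have h := hδ.succ_lt hlt
      simpa using h
    obtain ⟨L', hL'c, hsub, hL's⟩ := hEXR W M hM X (r m.1.1) (r (m.1.1 + 1)) m.1.2 (m.2.2.2 hlt) m.2.2.1 (hcq _ h1)
      (hdec _ _ (le_add_right le_rfl)) (hsplit _ hlt)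
    have hlt2 : m.1.1 < m.1.1 + 1 := by
      simp
    have h2 : BigRel M δ r m ⟨(m.1.1 + 1, L'), h1.le, hL's, fun _ => hL'c⟩ := Or.inr ⟨hlt2, hsub⟩
    rcases hm _ h2 with h3 | h3
    · have h4 := congrArg (fun p : BigPair M δ r => p.1.1) h3
      exact hlt2.ne' h4
    · exact absurd h3.1 (not_lt.2 hlt2.le)
  · refine ⟨m.1.2, ?_⟩
    have h := m.2.2.1
    rw [heq, hbot] at h
    exact h

end Pool.Agent.KCS
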