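import Pool.Agent.KCS.St

/-!
# KCS/BND: the size of a system
-/

set_option autoImplicit false
set_option linter.unusedVariables false

namespace Pool.Agent.KCS

open Set Cardinal
open scoped Ordinal

/-- `c` is coarser than `d` -/
def bnd_le {W X : Type} (M : Set (W → W)) (L : Set (X → W)) (c d : L) : Prop :=
  ∃ m ∈ M, (c : X → W) = m ∘ (d : X → W)

private lemma bnd_ne {W X : Type} {M : Set (W → W)} {L : Set (X → W)} (S : Sys M ⊥ L) {a b : X}
    (h : a ≠ b) : ∃ c ∈ L, c a ≠ c b := S.sep a b (fun hh => h hh)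

private lemma bnd_sep {W X : Type} {M : Set (W → W)} {L : Set (X → W)} (S : Sys M ⊥ L)
    {C : Set L} (hC : ∀ p, ∃ c ∈ C, bnd_le M L p c) {a b : X} (h : a ≠ b) :
    ∃ c ∈ C, (c : X → W) a ≠ (c : X → W) b := by
  obtain ⟨c, hc, hcab⟩ := bnd_ne S h
  obtain ⟨d, hd, m, hm, he⟩ := hC ⟨c, hc⟩
  refine ⟨d, hd, fun h1 => hcab ?_⟩
  have h2 := congrFun he a
  have h3 := congrFun he b
  simp only [Function.comp_apply] at h2 h3
  rw [h2, h3, h1]

private lemma bnd_iic (i : (ω₁ : Ordinal.{0}).ToType) : (Iic i).Countable := by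
  have h1 : ord #((ω₁ : Ordinal.{0}).ToType) = Ordinal.type (α := (ω₁ : Ordinal.{0}).ToType) (· < ·) := by
    rw [Ordinal.type_toType, Cardinal.mk_toType, Ordinal.card_omega, Cardinal.ord_aleph]
  have h2 := Cardinal.mk_Iio_lt i h1
  rw [Cardinal.mk_toType, Ordinal.card_omega, ← countable_iff_lt_aleph_one] at h2
  rw [← Iio_insert]
  exact h2.insert i

private lemma bnd_bdd {Q : Type} [Countable Q] (f : Q → (ω₁ : Ordinal.{0}).ToType) :
    ∃ i, ∀ q, f q < i := by
  by_contra hcon
  push Not at hcon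
  have h1 : (Set.univ : Set (ω₁ : Ordinal.{0}).ToType) ⊆ ⋃ q, Iic (f q) := by
    intro i _
    obtain ⟨q, hq⟩ := hcon i
    exact mem_iUnion.2 ⟨q, hq⟩
  have h2 := (countable_iUnion fun q => bnd_iic (f q)).mono h1
  rw [countable_iff_lt_aleph_one, Cardinal.mk_univ, Cardinal.mk_toType, Ordinal.card_omega] at h2
  exact lt_irrefl _ h2

/-- [BND] -/
theorem thm_BND (hCHN : St_CHN) : St_BND := by
  classical
  intro W M hM X L S
  have hW := hM.lab
  -- the preorder
  have hrefl : ∀ a, bnd_le M L a a := fun a => ⟨id, hM.one, rfl⟩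
  have htrans : ∀ a b c, bnd_le M L a b → bnd_le M L b c → bnd_le M L a c := by
    rintro a b c ⟨m, hm, h1⟩ ⟨k, hk, h2⟩
    exact ⟨m ∘ k, hM.comp m hm k hk, by rw [h1, h2]; rfl⟩
  have htot : ∀ a b, bnd_le M L a b ∨ bnd_le M L b a := by
    intro a b
    obtain ⟨d, hd, m, hm, k, hk, h1, h2⟩ := S.dir a a.2 b b.2
    obtain ⟨z, hz, h3 | h3⟩ := hM.chain m hm k hk
    · left
      exact ⟨z, hz, by rw [h1, h2, h3]; rfl⟩
    · right
      exact ⟨z, hz, by rw [h1, h2, h3]; rfl⟩
  have hseg : ∀ a, {b | bnd_le M L b a}.Countable := by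
    intro a
    have h1 : ((fun m : W → W => m ∘ (a : X → W)) '' M).Countable := hM.cnt.image _
    have h2 := h1.preimage_of_injOn (f := fun b : L => (b : X → W)) Subtype.val_injective.injOn
    refine h2.mono ?_
    rintro b ⟨m, hm, h3⟩
    exact ⟨m, hm, h3.symm⟩
  obtain ⟨hL, hcase⟩ := hCHN L (bnd_le M L) hrefl htrans htot hseg
  refine ⟨hL, ?_⟩
  rcases hcase with ⟨C, hC, hcof⟩ | ⟨s, hs, hcof⟩
  · -- a countable cofinal set
    constructor
    · left
      have hinj : Function.Injective (fun (b : X) (c : C) => (c : L).1 b) := by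
        intro a b hab
        by_contra h
        obtain ⟨c, hc, h1⟩ := bnd_sep S hcof h
        exact h1 (congrFun hab ⟨c, hc⟩)
      have h1 := Cardinal.mk_le_of_injective hinj
      have h2 : #(C → W) = #W ^ #C := by simp
      rw [h2] at h1
      refine h1.trans ?_
      have h3 : #C ≤ ℵ₀ := Cardinal.mk_le_aleph0_iff.2 hC.to_subtype
      have h4 : #W ≤ ℵ₀ := Cardinal.mk_le_aleph0_iff.2 hW
      calc #W ^ #C ≤ ℵ₀ ^ #C := Cardinal.power_le_power_right h4
        _ ≤ ℵ₀ ^ ℵ₀ := Cardinal.power_le_power_left Cardinal.aleph0_ne_zero h3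
        _ = 2 ^ ℵ₀ := by rw [Cardinal.aleph0_power_aleph0, Cardinal.two_power_aleph0]
    · intro _
      have h1 : (⋃ d ∈ C, (fun m : W → W => m ∘ (d : X → W)) '' M).Countable :=
        hC.biUnion fun d _ => hM.cnt.image _
      refine h1.mono ?_
      intro c hc
      obtain ⟨d, hd, m, hm, he⟩ := hcof ⟨c, hc⟩
      exact mem_biUnion hd ⟨m, hm, he.symm⟩
  · -- a cofinal sequence
    have hsep : ∀ {a b : X}, a ≠ b → ∃ i, (s i : X → W) a ≠ (s i : X → W) b := by
      intro a b h
      obtain ⟨c, ⟨i, rfl⟩, h1⟩ := bnd_sep S (C := range s)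
        (fun p => by obtain ⟨i, hi⟩ := hcof p; exact ⟨s i, mem_range_self i, hi⟩) h
      exact ⟨i, h1⟩
    constructor
    · right
      obtain ⟨e, he⟩ := exists_injective_nat W
      have hinj : Function.Injective (fun (b : X) (i : (ω₁ : Ordinal.{0}).ToType) => e ((s i : X → W) b)) := by
        intro a b hab
        by_contra h
        obtain ⟨i, hi⟩ := hsep h
        exact hi (he (congrFun hab i))
      refine ⟨range (fun (b : X) (i : (ω₁ : Ordinal.{0}).ToType) => e ((s i : X → W) b)),
        Cardinal.mk_range_eq _ hinj, fun i => ?_⟩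
      have h1 : ∀ j : Iio i, ∃ m : W → W, (s j : X → W) = m ∘ (s i : X → W) := by
        intro j
        obtain ⟨m, _, hm⟩ := hs j i j.2
        exact ⟨m, hm⟩
      choose m hm using h1
      have h2 : (range fun (w : W) (j : Iio i) => e (m j w)).Countable := countable_range _
      refine h2.mono ?_
      rintro _ ⟨⟨_, ⟨b, rfl⟩⟩, rfl⟩
      refine ⟨(s i : X → W) b, ?_⟩
      funext j
      show e (m j ((s i : X → W) b)) = e ((s j : X → W) b)
      rw [hm j]
      rfl
    · intro hX
      exfalso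
      -- one index separates all pairs
      have h1 : ∀ q : X × X, ∃ i, q.1 ≠ q.2 → (s i : X → W) q.1 ≠ (s i : X → W) q.2 := by
        intro q
        by_cases h : q.1 = q.2
        · obtain ⟨i, _⟩ := hcof (s (Classical.choice (by
            have := hcof ⟨_, S.ne.some_mem⟩
            exact ⟨this.choose⟩)))
          exact ⟨i, fun h' => absurd h h'⟩
        · obtain ⟨i, hi⟩ := hsep h
          exact ⟨i, fun _ => hi⟩
      choose f hf using h1
      obtain ⟨i, hi⟩ := bnd_bdd f
      have h2 : Function.Injective (s i : X → W) := by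
        intro a b hab
        by_contra h
        refine hf (a, b) h ?_
        obtain ⟨m, _, hm⟩ := hs _ i (hi (a, b))
        rw [hm]
        show m ((s i : X → W) a) = m ((s i : X → W) b)
        rw [hab]
      obtain ⟨x, hx, hxi⟩ := hM.non
      have h3 : Nonempty W := by
        by_contra h4
        rw [not_nonempty_iff] at h4
        exact hxi (Function.injective_of_subsingleton x)
      obtain ⟨w⟩ := h3
      obtain ⟨a, ha, hab⟩ := S.fib (s i) (s i).2 w
      refine hab 0 1 (by norm_num) ?_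
      have h5 : a 0 = a 1 := h2 (by rw [ha, ha])
      exact h5

end Pool.Agent.KCS
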