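import Pool.Agent.KCS.St

/-!
# KCS/CHN: total preorders with countable initial segments
-/

set_option autoImplicit false

namespace Pool.Agent.KCS

open Set Cardinal
open scoped Ordinal

theorem chn_card : #((ω₁ : Ordinal.{0}).ToType) = ℵ₁ := by
  rw [Cardinal.mk_toType, Ordinal.card_omega]

theorem chn_iio (i : (ω₁ : Ordinal.{0}).ToType) : (Iio i).Countable := by
  rw [← Cardinal.le_aleph0_iff_set_countable, ← Order.lt_succ_iff]
  have h1 := Cardinal.mk_Iio_lt i (by rw [chn_card, Cardinal.ord_aleph, Ordinal.type_toType])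
  rw [chn_card] at h1
  refine lt_of_lt_of_eq h1 ?_
  exact Cardinal.succ_aleph0.symm

theorem thm_CHN : St_CHN := by
  intro P le hr ht hT hc
  by_cases hC : ∃ C : Set P, C.Countable ∧ ∀ p, ∃ c ∈ C, le p c
  · refine ⟨?_, Or.inl hC⟩
    obtain ⟨C, hC1, hC2⟩ := hC
    have h1 : (⋃ c ∈ C, {b | le b c}) = Set.univ := by
      ext p
      refine ⟨fun _ => Set.mem_univ p, fun _ => ?_⟩
      rw [mem_iUnion]
      obtain ⟨c, h2, h3⟩ := hC2 p
      exact ⟨c, mem_iUnion.2 ⟨h2, h3⟩⟩
    have h2 : (Set.univ : Set P).Countable := by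
      rw [← h1]
      exact hC1.biUnion fun c _ => hc c
    have h3 : #P ≤ ℵ₀ := by
      rw [← Cardinal.mk_univ]
      exact Cardinal.le_aleph0_iff_set_countable.2 h2
    exact h3.trans (Cardinal.aleph0_le_aleph 1)
  · have hC' : ∀ S : Set P, S.Countable → ∃ x, ∀ y ∈ S, ¬ le x y := by
      intro S hS
      by_contra h0
      push Not at h0
      exact hC ⟨S, hS, h0⟩
    choose F hF using hC'
    let wf : WellFounded ((· < ·) : (ω₁ : Ordinal.{0}).ToType → _ → Prop) := wellFounded_lt
    let s : (ω₁ : Ordinal.{0}).ToType → P := wf.fix fun i rec =>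
      F (range fun j : Iio i => rec j.1 j.2) (by
        have := (chn_iio i).to_subtype
        exact countable_range _)
    have hs : ∀ i, ∀ j, j < i → ¬ le (s i) (s j) := by
      intro i j hj
      have e : s i = F (range fun j : Iio i => s j.1) (by
        have := (chn_iio i).to_subtype
        exact countable_range _) := wf.fix_eq _ i
      rw [e]
      exact hF _ _ _ ⟨⟨j, hj⟩, rfl⟩
    have hm : ∀ i j, i < j → le (s i) (s j) := fun i j hij =>
      (hT (s i) (s j)).resolve_right (hs j i hij)
    have hi : Function.Injective s := by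
      intro i j hij
      by_contra hne
      rcases lt_or_gt_of_ne hne with h | h
      · exact hs j i h (hij ▸ hr _)
      · exact hs i j h (hij ▸ hr _)
    have hcof : ∀ p, ∃ i, le p (s i) := by
      intro p
      by_contra h0
      push Not at h0
      have h1 : range s ⊆ {b | le b p} := by
        rintro _ ⟨i, rfl⟩
        exact (hT (s i) p).resolve_right (h0 i)
      have h2 := (hc p).mono h1
      have h3 : #(range s) = ℵ₁ := by rw [Cardinal.mk_range_eq s hi, chn_card]
      have h4 := Cardinal.le_aleph0_iff_set_countable.2 h2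
      rw [h3] at h4
      exact absurd h4 (not_le.2 Cardinal.aleph0_lt_aleph_one)
    refine ⟨?_, Or.inr ⟨s, hm, hcof⟩⟩
    have h1 : (⋃ i, {b | le b (s i)}) = Set.univ := by
      ext p
      refine ⟨fun _ => Set.mem_univ p, fun _ => ?_⟩
      rw [mem_iUnion]
      exact hcof p
    rw [← Cardinal.mk_univ, ← h1]
    refine (Cardinal.mk_iUnion_le _).trans ?_
    rw [chn_card]
    refine (mul_le_mul_right (ciSup_le' fun i => Cardinal.le_aleph0_iff_set_countable.2 (hc (s i))) _).trans ?_
    exact Cardinal.mul_le_of_le (Cardinal.aleph0_le_aleph 1) le_rfl (Cardinal.aleph0_le_aleph 1)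

end Pool.Agent.KCS
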