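import Pool.Agent.KCS.St

/-!
# KCS [CMP]: the sentence is complete (helper25)
-/

set_option autoImplicit false
set_option linter.unusedVariables false

namespace Pool.Agent.KCS

open FirstOrder Set Cardinal
open scoped Ordinal

/-- systems are transported along bijections -/
theorem cmp_tr {W X Y : Type} {M : Set (W → W)} (e : X ≃ Y) {L : Set (Y → W)} (h : Sys M ⊥ L) :
    Sys M (⊥ : Setoid X) ((fun c => c ∘ e) '' L) where
  ne := h.ne.image _
  inv := by
    rintro _ ⟨c, hc, rfl⟩ a b hab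
    exact congrArg (c ∘ e) hab
  act := by
    rintro _ ⟨c, hc, rfl⟩ m hm
    exact ⟨m ∘ c, h.act c hc m hm, rfl⟩
  dir := by
    rintro _ ⟨c, hc, rfl⟩ _ ⟨c', hc', rfl⟩
    obtain ⟨d, hd, m, hm, k, hk, h1, h2⟩ := h.dir c hc c' hc'
    exact ⟨d ∘ e, ⟨d, hd, rfl⟩, m, hm, k, hk, by rw [h1]; rfl, by rw [h2]; rfl⟩
  sep := by
    intro a b hab
    obtain ⟨c, hc, h1⟩ := h.sep (e a) (e b) (fun h2 => hab (e.injective h2))
    exact ⟨c ∘ e, ⟨c, hc, rfl⟩, h1⟩
  ext := by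
    rintro _ ⟨c, hc, rfl⟩ m hm n a s h1 h2
    obtain ⟨d, hd, h3, h4⟩ := h.ext c hc m hm n (fun i => e (a i)) s h1 h2
    exact ⟨d ∘ e, ⟨d, hd, rfl⟩, by rw [h3]; rfl, h4⟩
  fib := by
    rintro _ ⟨c, hc, rfl⟩ w
    obtain ⟨a, h1, h2⟩ := h.fib c hc w
    exact ⟨fun i => e.symm (a i), fun i => by simpa using h1 i,
      fun i j hij h3 => h2 i j hij (e.symm.injective h3)⟩

/-- the structure with given binary relations -/
def cmp_str (W U : Type) (R : W → U → U → Prop) : (Lg W).Structure U where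
  funMap := fun f _ => f.elim
  RelMap := fun {n} r x => ∃ h : n = 2, R (cast (if_pos h) r) (x ⟨0, by omega⟩) (x ⟨1, by omega⟩)

theorem cmp_Rw (W U : Type) (R : W → U → U → Prop) (w : W) (x b : U) :
    @Rw W U (cmp_str W U R) w x b ↔ R w x b :=
  ⟨fun ⟨_, h⟩ => h, fun h => ⟨rfl, h⟩⟩

/-- the points of the sum -/
def cmp_e (A : Type) : {b : A ⊕ ℕ // ∃ n, b = Sum.inr n} ≃ ℕ where
  toFun b := Sum.elim (fun _ => 0) id b.1
  invFun n := ⟨Sum.inr n, n, rfl⟩
  left_inv := by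
    rintro ⟨_, n, rfl⟩
    rfl
  right_inv := fun _ => rfl

theorem cmp_exists (W : Type) (M : Set (W → W)) (L : Set (ℕ → W)) (hL : L.Countable)
    (hS : Sys M ⊥ L) : ∃ (U : Type) (_ : (Lg W).Structure U), Countable U ∧ IsMod M U := by
  obtain ⟨c₀, hc₀⟩ := hS.ne
  haveI : Countable L := hL.to_subtype
  refine ⟨L ⊕ ℕ, cmp_str W (L ⊕ ℕ) (fun w x b => ∃ (c : L) (n : ℕ), x = Sum.inl c ∧
    b = Sum.inr n ∧ c.1 n = w), inferInstance, ?_⟩
  refine ⟨fun b => ∃ n, b = Sum.inr n, fun x b =>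
    Sum.elim (fun c : L => c.1) (fun _ => c₀) x.1 (cmp_e L b), ?_, ?_, ?_⟩
  · intro w x b
    rw [cmp_Rw]
    constructor
    · rintro ⟨c, n, rfl, rfl, h⟩
      refine ⟨?_, ⟨n, rfl⟩, h⟩
      rintro ⟨k, hk⟩
      cases hk
    · rintro ⟨hx, ⟨n, rfl⟩, h⟩
      rcases x with c | k
      · exact ⟨c, n, rfl, rfl, h⟩
      · exact absurd ⟨k, rfl⟩ hx
  · rintro ⟨x, hx⟩ ⟨y, hy⟩ hxy
    rcases x with c | k
    · rcases y with c' | k
      · have h1 : c = c' := by
          apply Subtype.ext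
          funext n
          exact congrFun hxy ⟨Sum.inr n, n, rfl⟩
        subst h1
        rfl
      · exact absurd ⟨k, rfl⟩ hy
    · exact absurd ⟨k, rfl⟩ hx
  · have h1 : (range fun (x : {x : L ⊕ ℕ // ¬ ∃ n, x = Sum.inr n}) (b : {b : L ⊕ ℕ // ∃ n, b = Sum.inr n}) =>
        Sum.elim (fun c : L => c.1) (fun _ => c₀) x.1 (cmp_e L b)) =
        (fun c : ℕ → W => c ∘ (cmp_e L)) '' L := by
      ext f
      constructor
      · rintro ⟨⟨x, hx⟩, rfl⟩
        rcases x with c | k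
        · exact ⟨c.1, c.2, rfl⟩
        · exact absurd ⟨k, rfl⟩ hx
      · rintro ⟨c, hc, rfl⟩
        exact ⟨⟨Sum.inl ⟨c, hc⟩, fun ⟨k, hk⟩ => by cases hk⟩, rfl⟩
    rw [h1]
    exact cmp_tr (cmp_e L) hS

/-- a bijection which respects the relations is an isomorphism -/
theorem cmp_iso (W U V : Type) [(Lg W).Structure U] [(Lg W).Structure V] (e : U ≃ V)
    (he : ∀ w x b, Rw W V w (e x) (e b) ↔ Rw W U w x b) : Nonempty (U ≃[Lg W] V) := by
  refine ⟨{ toEquiv := e, map_fun' := fun f _ => f.elim, map_rel' := ?_ }⟩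
  intro n r x
  by_cases hn : n = 2
  · subst hn
    have h1 := he r (x 0) (x 1)
    have h2 : ![x 0, x 1] = x := by
      funext i
      fin_cases i <;> rfl
    have h3 : ![e (x 0), e (x 1)] = e ∘ x := by
      funext i
      fin_cases i <;> rfl
    unfold Rw at h1
    rw [h2, h3] at h1
    exact h1
  · have h1 : (Lg W).Relations n = Empty := if_neg hn
    exact (cast h1 r).elim

theorem cmp_unique (hUNI : St_UNI) (W : Type) (M : Set (W → W)) (hM : Mon M) (U V : Type)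
    [(Lg W).Structure U] [(Lg W).Structure V] [Countable U] [Countable V] (hU : IsMod M U)
    (hV : IsMod M V) : Nonempty (U ≃[Lg W] V) := by
  classical
  obtain ⟨p, val, h1, h2, h3⟩ := hU
  obtain ⟨p', val', h1', h2', h3'⟩ := hV
  obtain ⟨β, hβ⟩ := hUNI W M hM {b // p b} {b // p' b} (range val) (range val')
    (countable_range val) (countable_range val') h3 h3'
  -- the bijection of the charts
  have hγ : ∀ x : {x // ¬ p x}, ∃ x' : {x // ¬ p' x}, val' x' ∘ β = val x := by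
    intro x
    have h4 : val x ∈ (fun c => c ∘ β) '' range val' := by
      rw [← hβ]
      exact ⟨x, rfl⟩
    obtain ⟨_, ⟨x', rfl⟩, h5⟩ := h4
    exact ⟨x', h5⟩
  choose γ hγ using hγ
  have hγb : Function.Bijective γ := by
    constructor
    · intro x y hxy
      apply h2
      rw [← hγ, ← hγ, hxy]
    · intro x'
      have h4 : val' x' ∘ β ∈ range val := by
        rw [hβ]
        exact ⟨val' x', ⟨x', rfl⟩, rfl⟩
      obtain ⟨x, hx⟩ := h4
      refine ⟨x, h2' ?_⟩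
      have h5 : val' (γ x) ∘ β = val' x' ∘ β := by rw [hγ, hx]
      funext b
      obtain ⟨a, rfl⟩ := β.surjective b
      exact congrFun h5 a
  let e : U ≃ V := (Equiv.sumCompl p).symm.trans
    ((Equiv.sumCongr β (Equiv.ofBijective γ hγb)).trans (Equiv.sumCompl p'))
  have e1 : ∀ (b : U) (hb : p b), e b = (β ⟨b, hb⟩ : V) := by
    intro b hb
    show Equiv.sumCompl p' (Equiv.sumCongr β (Equiv.ofBijective γ hγb)
      ((Equiv.sumCompl p).symm b)) = _
    rw [Equiv.sumCompl_symm_apply_of_pos hb]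
    rfl
  have e2 : ∀ (x : U) (hx : ¬ p x), e x = (γ ⟨x, hx⟩ : V) := by
    intro x hx
    show Equiv.sumCompl p' (Equiv.sumCongr β (Equiv.ofBijective γ hγb)
      ((Equiv.sumCompl p).symm x)) = _
    rw [Equiv.sumCompl_symm_apply_of_neg hx]
    rfl
  have e3 : ∀ b, p' (e b) ↔ p b := by
    intro b
    by_cases hb : p b
    · rw [e1 b hb]
      exact ⟨fun _ => hb, fun _ => (β ⟨b, hb⟩).2⟩
    · rw [e2 b hb]
      exact ⟨fun h => absurd h (γ ⟨b, hb⟩).2, fun h => absurd h hb⟩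
  refine cmp_iso W U V e fun w x b => ?_
  rw [h1, h1']
  constructor
  · rintro ⟨hx, hb, h⟩
    have hx' : ¬ p x := fun h4 => hx ((e3 x).2 h4)
    have hb' : p b := (e3 b).1 hb
    refine ⟨hx', hb', ?_⟩
    rw [← h, ← hγ ⟨x, hx'⟩]
    have h4 : γ ⟨x, hx'⟩ = ⟨e x, hx⟩ := Subtype.ext (e2 x hx').symm
    have h5 : β ⟨b, hb'⟩ = ⟨e b, hb⟩ := Subtype.ext (e1 b hb').symm
    rw [Function.comp_apply, h4, h5]
  · rintro ⟨hx, hb, h⟩
    have hx' : ¬ p' (e x) := fun h4 => hx ((e3 x).1 h4)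
    have hb' : p' (e b) := (e3 b).2 hb
    refine ⟨hx', hb', ?_⟩
    rw [← h, ← hγ ⟨x, hx⟩]
    have h4 : γ ⟨x, hx⟩ = ⟨e x, hx'⟩ := Subtype.ext (e2 x hx).symm
    have h5 : β ⟨b, hb⟩ = ⟨e b, hb'⟩ := Subtype.ext (e1 b hb).symm
    rw [Function.comp_apply, h4, h5]

theorem thm_CMP (hUNI : St_UNI) (hCST : St_CST) : St_CMP := by
  intro W M hM ψ hψ
  refine ⟨?_, ?_⟩
  · obtain ⟨L, hL, hS⟩ := hCST W M hM ℕ
    obtain ⟨U, iU, hU, hU'⟩ := cmp_exists W M L hL hS
    exact ⟨U, iU, hU, (hψ U).2 hU'⟩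
  · intro U V _ _ hU hV sU sV
    exact cmp_unique hUNI W M hM U V ((hψ U).1 sU) ((hψ V).1 sV)

end Pool.Agent.KCS
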