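import Pool.Agent.KCS.St

/-!
# KCS, module CST: every countably infinite set has a countable system (helper84)
-/

set_option autoImplicit false

namespace Pool.Agent.KCS

/-- [CST] -/
theorem thm_CST (hBAS : St_BAS) (hQUO : St_QUO) : St_CST := by
  intro W M hM Y _ _
  have hS := hBAS W M hM
  haveI : Countable W := hM.lab
  obtain ⟨x, hxM, hx⟩ := hM.non
  have hw : Nonempty W := by
    by_contra h
    rw [not_nonempty_iff] at h
    exact hx (fun a => (h.false a).elim)
  obtain ⟨w⟩ := hw
  obtain ⟨a, -, ha⟩ := hS.fib x ⟨hxM, hx⟩ w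
  haveI : Infinite (Quotient (til M)) := by
    apply Infinite.of_injective (fun i => Quotient.mk (til M) (a i))
    intro i j hij
    by_contra hne
    exact ha i j hne (Quotient.exact hij)
  obtain ⟨e⟩ := nonempty_equiv_of_countable (α := Y) (β := Quotient (til M))
  refine ⟨_, ?_, (hQUO W W M (til M)).2.2 Y e _ hS⟩
  have h1 : ({n ∈ M | ¬ Function.Injective n} : Set (W → W)).Countable :=
    hM.cnt.mono fun _ h => h.1
  refine Set.Countable.preimage_of_injOn h1 (f := fun c : Y → W => c ∘ e.symm ∘ Quotient.mk (til M)) ?_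
  intro c _ c' _ hcc
  funext y
  obtain ⟨u, hu⟩ := Quotient.exists_rep (e y)
  have h2 := congrFun hcc u
  have h3 : e.symm (Quotient.mk (til M) u) = y := by
    rw [hu, e.symm_apply_apply]
  have h4 : c (e.symm (Quotient.mk (til M) u)) = c' (e.symm (Quotient.mk (til M) u)) := h2
  rw [h3] at h4
  exact h4

end Pool.Agent.KCS
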