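import Pool.Agent.KCS.St

/-!
# KCS/EXR (helper95): extension of systems for two equivalence relations on one set
-/

set_option autoImplicit false
set_option linter.unusedVariables false

namespace Pool.Agent.KCS

open FirstOrder Set Cardinal
open scoped Ordinal

/-- [EXR] extension of systems for two equivalence relations on one set -/
theorem thm_EXR (hQUO : St_QUO) (hEXT : St_EXT) : St_EXR := by
  classical
  intro W M hM X r r' L hLc hL hcount hle hsplit
  set ρ : Quotient r' → Quotient r := Quotient.lift (Quotient.mk r) (fun a b h => Quotient.sound (hle h)) with hρ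
  have hρmk : ∀ a, ρ (Quotient.mk r' a) = Quotient.mk r a := fun a => rfl
  have hρs : Function.Surjective ρ := by
    intro y
    obtain ⟨a, rfl⟩ := Quotient.mk_surjective y
    exact ⟨Quotient.mk r' a, hρmk a⟩
  have : Countable (Quotient r) := hρs.countable
  set L1 : Set (Quotient r → W) := {c | c ∘ Quotient.mk r ∈ L} with hL1
  have hL1s : Sys M ⊥ L1 := (hQUO W X M r).1 L hL
  have hinj : Function.Injective (fun c : Quotient r → W => c ∘ Quotient.mk r) :=
    Function.Surjective.injective_comp_right Quotient.mk_surjective
  have hL1c : L1.Countable := hLc.preimage hinj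
  have hfib : ∀ y, {y' | ρ y' = y}.Infinite := by
    intro y
    obtain ⟨a, rfl⟩ := Quotient.mk_surjective y
    obtain ⟨s, h1, h2⟩ := hsplit a
    refine Set.infinite_of_injective_forall_mem (f := fun i : ℕ => Quotient.mk r' (s i)) ?_ ?_
    · intro i j hij
      by_contra hne
      exact h2 i j hne (Quotient.exact hij)
    · intro i
      show ρ (Quotient.mk r' (s i)) = Quotient.mk r a
      rw [hρmk]
      exact Quotient.sound (r.symm (h1 i))
  obtain ⟨L1', hc', hs', hsub'⟩ := hEXT W M hM (Quotient r) (Quotient r') L1 ρ hL1c hL1s hfib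
  refine ⟨(fun c => c ∘ Quotient.mk r') '' L1', hc'.image _, ?_, (hQUO W X M r').2.1 L1' hs'⟩
  intro c hc
  set cb : Quotient r → W := Quotient.lift c (fun a b h => hL.inv c hc a b h) with hcb
  have h1 : cb ∘ Quotient.mk r = c := by
    funext a
    rfl
  have h2 : cb ∈ L1 := by
    show cb ∘ Quotient.mk r ∈ L
    rw [h1]
    exact hc
  refine ⟨cb ∘ ρ, hsub' cb h2, ?_⟩
  funext a
  rfl

end Pool.Agent.KCS
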