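import Pool.Agent.KCS.St

/-!
# KCS/EXT: extension of countable systems (helper42, after the plan of helper79)
-/

set_option autoImplicit false
set_option linter.unusedVariables false

namespace Pool.Agent.KCS

open Set

/-- two maps with countably infinite fibres differ by a bijection -/
theorem ext_bij {X Y W : Type} [Countable X] [Countable Y] (f : X → W) (g : Y → W)
    (hf : ∀ w, {x | f x = w}.Infinite) (hg : ∀ w, {y | g y = w}.Infinite) : ∃ β : X ≃ Y, ∀ x, g (β x) = f x := by
  have hE : ∀ w, Nonempty ({x // f x = w} ≃ {y // g y = w}) := by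
    intro w
    have h1 : Infinite {x // f x = w} := (hf w).to_subtype
    have h2 : Infinite {y // g y = w} := (hg w).to_subtype
    exact nonempty_equiv_of_countable
  let E := fun w => (hE w).some
  refine ⟨(Equiv.sigmaFiberEquiv f).symm.trans ((Equiv.sigmaCongrRight E).trans (Equiv.sigmaFiberEquiv g)), ?_⟩
  intro x
  exact (E (f x) ⟨x, rfl⟩).2

/-- lifting of a map with infinite fibres to a map with infinite fibres -/
theorem ext_lift {Y W Q : Type} [Countable Y] [Countable W] (f : Y → Q) (π : W → Q)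
    (hf : ∀ q, {y | f y = q}.Infinite) (hπ : Function.Surjective π) :
    ∃ v : Y → W, (∀ y, π (v y) = f y) ∧ ∀ w, {y | v y = w}.Infinite := by
  have hE : ∀ q, Nonempty ({y // f y = q} ≃ {w // π w = q} × ℕ) := by
    intro q
    have h1 : Infinite {y // f y = q} := (hf q).to_subtype
    obtain ⟨w, hw⟩ := hπ q
    have h2 : Nonempty {w // π w = q} := ⟨⟨w, hw⟩⟩
    exact nonempty_equiv_of_countable
  let E := fun q => (hE q).some
  refine ⟨fun y => ((E (f y) ⟨y, rfl⟩).1 : W), fun y => (E (f y) ⟨y, rfl⟩).1.2, ?_⟩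
  intro w
  have hkey : ∀ (q : Q) (z : {y // f y = q}), ((E (f z.1) ⟨z.1, rfl⟩).1 : W) = ((E q z).1 : W) := by
    rintro q ⟨y, rfl⟩
    rfl
  have hinj : Function.Injective (fun k : ℕ => (((E (π w)).symm (⟨w, rfl⟩, k) : {y // f y = π w}) : Y)) := by
    intro k k' h
    have h1 := (E (π w)).symm.injective (Subtype.ext h)
    exact (Prod.mk.inj h1).2
  refine (Set.infinite_range_of_injective hinj).mono ?_
  rintro _ ⟨k, rfl⟩
  show ((E (f ((E (π w)).symm (⟨w, rfl⟩, k)).1) ⟨((E (π w)).symm (⟨w, rfl⟩, k)).1, rfl⟩).1 : W) = w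
  rw [hkey (π w) ((E (π w)).symm (⟨w, rfl⟩, k)), Equiv.apply_symm_apply]

theorem thm_EXT (hUNI : St_UNI) (hBAS : St_BAS) (hQUO : St_QUO) : St_EXT := by
  intro W M hM Y Y' _ _ L ρ hLc hL hρ
  have : Countable W := hM.lab
  have : Countable (Quotient (til M)) := Quotient.countable
  have hN : Sys M (til M) {n ∈ M | ¬ Function.Injective n} := hBAS W M hM
  -- the countable system on the quotient
  have hQ : Sys M (⊥ : Setoid (Quotient (til M)))
      {c | c ∘ Quotient.mk (til M) ∈ {n ∈ M | ¬ Function.Injective n}} := (hQUO W W M (til M)).1 _ hN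
  have hsur : Function.Surjective (Quotient.mk (til M)) := Quotient.mk_surjective
  have hQc : {c : Quotient (til M) → W | c ∘ Quotient.mk (til M) ∈ {n ∈ M | ¬ Function.Injective n}}.Countable := by
    refine Set.Countable.preimage_of_injOn (s := {n ∈ M | ¬ Function.Injective n})
      (f := fun c : Quotient (til M) → W => c ∘ Quotient.mk (til M)) (hM.cnt.mono (Set.sep_subset _ _)) ?_
    intro c _ c' _ h
    exact hsur.injective_comp_right h
  obtain ⟨β, hβ⟩ := hUNI W M hM Y (Quotient (til M)) L _ hLc hQc hL hQ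
  -- the fibres of β ∘ ρ
  have hf : ∀ q, {y' | β (ρ y') = q}.Infinite := by
    intro q
    have h := hρ (β.symm q)
    refine h.mono ?_
    intro y' hy'
    show β (ρ y') = q
    rw [show ρ y' = β.symm q from hy', Equiv.apply_symm_apply]
  obtain ⟨v, hv, hvf⟩ := ext_lift (fun y' => β (ρ y')) (Quotient.mk (til M)) hf hsur
  obtain ⟨n₀, hn₀M, hn₀⟩ := hM.non
  -- the map induced by n₀
  let nb : Quotient (til M) → W := Quotient.lift n₀ (fun a b (h : (til M).r a b) => h n₀ hn₀M hn₀)
  have hnb : ∀ w, nb (Quotient.mk (til M) w) = n₀ w := fun w => rfl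
  have hnbf : ∀ w, {q | nb q = w}.Infinite := by
    intro w
    obtain ⟨a, ha, hab⟩ := hM.fib n₀ hn₀M hn₀ w
    have hinj : Function.Injective (fun i => Quotient.mk (til M) (a i)) := by
      intro i j hij
      by_contra hne
      obtain ⟨n, hn, hni, hnn⟩ := hab i j hne
      exact hnn ((Quotient.exact hij : (til M).r (a i) (a j)) n hn hni)
    refine (Set.infinite_range_of_injective hinj).mono ?_
    rintro _ ⟨i, rfl⟩
    exact (hnb _).trans (ha i)
  obtain ⟨β', hβ'⟩ := ext_bij v nb hvf hnbf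
  refine ⟨{c : Y' → W | c ∘ β'.symm ∘ Quotient.mk (til M) ∈ {n ∈ M | ¬ Function.Injective n}}, ?_,
    (hQUO W W M (til M)).2.2 Y' β' _ hN, ?_⟩
  · refine Set.Countable.preimage_of_injOn (s := {n ∈ M | ¬ Function.Injective n})
      (f := fun c : Y' → W => c ∘ β'.symm ∘ Quotient.mk (til M)) (hM.cnt.mono (Set.sep_subset _ _)) ?_
    intro c _ c' _ h
    exact (β'.symm.surjective.comp hsur).injective_comp_right h
  · intro c hc
    rw [hβ] at hc
    obtain ⟨m, ⟨hmM, hmi⟩, rfl⟩ := hc
    have hkey : ((m ∘ β) ∘ ρ) ∘ β'.symm ∘ Quotient.mk (til M) = (m ∘ Quotient.mk (til M)) ∘ n₀ := by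
      funext w
      show m (β (ρ (β'.symm (Quotient.mk (til M) w)))) = m (Quotient.mk (til M) (n₀ w))
      rw [← hv, ← hβ', Equiv.apply_symm_apply, hnb]
    show ((m ∘ β) ∘ ρ) ∘ β'.symm ∘ Quotient.mk (til M) ∈ {n ∈ M | ¬ Function.Injective n}
    rw [hkey]
    refine ⟨hM.comp _ hmM _ hn₀M, ?_⟩
    intro h
    exact hn₀ (Function.Injective.of_comp h)

end Pool.Agent.KCS
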