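import Pool.Agent.KCS.St

/-!
# KCS FIN: the theorem
-/

set_option autoImplicit false

namespace Pool.Agent.KCS

open FirstOrder Set Cardinal
open scoped Ordinal

theorem fin_countable (W : Type) [Countable W] : Countable (Lg W).Symbols := by
  have h1 : ∀ n, Countable ((Lg W).Functions n) := fun n => by
    show Countable Empty
    infer_instance
  have h2 : ∀ n, Countable ((Lg W).Relations n) := fun n => by
    show Countable (if n = 2 then W else Empty)
    split_ifs <;> infer_instance
  have h3 : Countable (Σ n, (Lg W).Functions n) := inferInstance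
  have h4 : Countable (Σ n, (Lg W).Relations n) := inferInstance
  show Countable ((Σ n, (Lg W).Functions n) ⊕ (Σ n, (Lg W).Relations n))
  infer_instance

theorem thm_FIN (hMON : St_MON) (hAXS : St_AXS) (hCMP : St_CMP) (hSPC : St_SPC) : St_FIN := by
  obtain ⟨W, M, hM⟩ := hMON
  obtain ⟨ψ, hψ⟩ := hAXS W M hM
  have hc : Complete ψ := hCMP W M hM ψ hψ
  have hs := hSPC W M hM ψ hψ
  have hW : Countable W := hM.lab
  have hL : Countable (Lg W).Symbols := fin_countable W
  refine ⟨⟨Lg W, ψ, hL, hc, hs⟩, ?_⟩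
  intro κ h1 h2 h3
  have h4 : ℵ₀ ≤ κ := (Cardinal.cantor ℵ₀).le.trans h1
  refine ⟨Lg W, ψ, hL, hc, h4, (hs κ h4).2 (Or.inr h2), ?_⟩
  intro h5
  rcases (hs (Order.succ κ) (h4.trans (Order.le_succ κ))).1 h5 with h6 | h6
  · exact absurd (h6.trans h1) (not_le.2 (Order.lt_succ κ))
  · exact h3 h6

end Pool.Agent.KCS
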