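import Pool.Agent.KCS.St

/-!
# KCS/MON (helper90): the countable monoid of chart changes (MP_9f6ce3_lc)
-/

set_option autoImplicit false
set_option linter.unusedVariables false

namespace Pool.Agent.KCS

open FirstOrder Set Cardinal
open scoped Ordinal

private lemma mon_closure {A I : Type} [Countable I] (op : I → A → A → A) (B : Set A) (hB : B.Countable) (P : A → Prop)
    (hPB : ∀ a ∈ B, P a) (hP : ∀ i a b, P a → P b → P (op i a b)) :
    ∃ M : Set A, M.Countable ∧ B ⊆ M ∧ (∀ a ∈ M, P a) ∧ ∀ i, ∀ a ∈ M, ∀ b ∈ M, op i a b ∈ M := by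
  classical
  let F : Set A → Set A := fun S => S ∪ ⋃ i : I, Set.image2 (op i) S S
  let N : ℕ → Set A := fun j => Nat.rec B (fun _ S => F S) j
  have hN0 : N 0 = B := rfl
  have hNs : ∀ j, N (j + 1) = N j ∪ ⋃ i : I, Set.image2 (op i) (N j) (N j) := fun j => rfl
  have hmono : Monotone N := monotone_nat_of_le_succ (fun j => by
    rw [hNs]
    exact Set.subset_union_left)
  have hcnt : ∀ j, (N j).Countable := by
    intro j
    induction j with
    | zero => exact hB
    | succ j ih =>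
      rw [hNs]
      exact ih.union (Set.countable_iUnion (fun i => ih.image2 ih (op i)))
  have hPN : ∀ j, ∀ a ∈ N j, P a := by
    intro j
    induction j with
    | zero => exact hPB
    | succ j ih =>
      intro a ha
      rw [hNs] at ha
      rcases ha with ha | ha
      · exact ih a ha
      · obtain ⟨i, hi⟩ := Set.mem_iUnion.1 ha
        obtain ⟨b, hb, c, hc, rfl⟩ := hi
        exact hP i b c (ih b hb) (ih c hc)
  refine ⟨⋃ j, N j, Set.countable_iUnion hcnt, ?_, ?_, ?_⟩
  · exact Set.subset_iUnion N 0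
  · intro a ha
    obtain ⟨j, hj⟩ := Set.mem_iUnion.1 ha
    exact hPN j a hj
  · intro i a ha b hb
    obtain ⟨j, hj⟩ := Set.mem_iUnion.1 ha
    obtain ⟨k, hk⟩ := Set.mem_iUnion.1 hb
    refine Set.mem_iUnion.2 ⟨max j k + 1, ?_⟩
    rw [hNs]
    right
    exact Set.mem_iUnion.2 ⟨i, a, hmono (le_max_left _ _) hj, b, hmono (le_max_right _ _) hk, rfl⟩

private lemma mon_ag0 (f g : Om) : Ag 0 f g ↔ f = g := by
  constructor
  · intro h
    ext w
    exact h w (zero_le)
  · rintro rfl w _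
    rfl

private lemma mon_ker {ρ : Om → Om} (h : Srj ρ) (hn : ¬ Function.Injective ρ) :
    ∃ v : NNRat, 0 < v ∧ ∀ f g, ρ f = ρ g ↔ Ag v f g := by
  obtain ⟨v, hv⟩ := h.pull 0
  have hv' : ∀ f g, ρ f = ρ g ↔ Ag v f g := fun f g => by rw [← hv f g, mon_ag0]
  refine ⟨v, ?_, hv'⟩
  rcases eq_or_lt_of_le (zero_le (a := v)) with h0 | h0
  · exfalso
    apply hn
    intro f g hfg
    rw [hv', ← h0, mon_ag0] at hfg
    exact hfg
  · exact h0

private lemma mon_noninj {ρ : Om → Om} {v : NNRat} (hv : 0 < v) (h : ∀ f g, ρ f = ρ g ↔ Ag v f g) : ¬ Function.Injective ρ := by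
  intro hi
  have h1 : Ag v (Finsupp.single 0 1) 0 := by
    intro w hw
    have hne : w ≠ 0 := (hv.trans_le hw).ne'
    simp [hne.symm]
  have h2 := hi ((h _ _).2 h1)
  simp at h2

theorem thm_MON (hSRJ : St_SRJ) (hTRN : St_TRN) (hWIT : St_WIT) : St_MON := by
  classical
  obtain ⟨hid, hcomp, -, hch⟩ := hSRJ
  choose T hT1 hT2 using hTRN
  let I : Type := Unit ⊕ Unit ⊕ (Σ n : ℕ, (Fin n → Om) × (Fin n → Om))
  let C : (Σ n : ℕ, (Fin n → Om) × (Fin n → Om)) → (Om → Om) → (Om → Om) → Prop := fun d x m =>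
    Srj x ∧ Srj m ∧ ¬ Function.Injective x ∧ (∀ i, x (d.2.1 i) = m (d.2.2 i)) ∧ Function.Injective (fun i => x (d.2.1 i))
  have hW : ∀ d x m, C d x m → ∃ y, Srj y ∧ ¬ Function.Injective y ∧ x = m ∘ y ∧ ∀ i, y (d.2.1 i) = d.2.2 i := by
    intro d x m h
    exact hWIT x m h.1 h.2.1 h.2.2.1 d.1 d.2.1 d.2.2 h.2.2.2.1 h.2.2.2.2
  let op : I → (Om → Om) → (Om → Om) → (Om → Om) := fun i x m =>
    match i with
    | Sum.inl _ => x ∘ m
    | Sum.inr (Sum.inl _) => if h : Srj m ∧ Srj x then (hch m x h.1 h.2).choose else id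
    | Sum.inr (Sum.inr d) => if h : C d x m then (hW d x m h).choose else id
  obtain ⟨M, hMc, hBM, hMP, hMop⟩ := mon_closure op (insert id (Set.range T)) ((Set.countable_range T).insert id) Srj
    (by
      intro ρ hρ
      rcases hρ with rfl | ⟨u, rfl⟩
      · exact hid
      · exact hT1 u)
    (by
      intro i x m hx hm
      rcases i with _ | _ | d
      · exact hcomp m x hm hx
      · show Srj (if h : Srj m ∧ Srj x then (hch m x h.1 h.2).choose else id)
        rw [dif_pos ⟨hm, hx⟩]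
        exact (hch m x hm hx).choose_spec.1
      · show Srj (if h : C d x m then (hW d x m h).choose else id)
        split_ifs with h
        · exact (hW d x m h).choose_spec.1
        · exact hid)
  have hTM : ∀ u, T u ∈ M := fun u => hBM (Set.mem_insert_of_mem _ ⟨u, rfl⟩)
  refine ⟨Om, M, ?_⟩
  refine ⟨inferInstance, hMc, hBM (Set.mem_insert _ _), ?_, fun m hm => (hMP m hm).sur, ?_, ?_, ?_, ?_, ?_⟩
  · intro k hk m hm
    exact hMop (Sum.inl ()) k hk m hm
  · intro k hk m hm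
    have h : Srj m ∧ Srj k := ⟨hMP m hm, hMP k hk⟩
    have h1 := hMop (Sum.inr (Sum.inl ())) k hk m hm
    have h2 : op (Sum.inr (Sum.inl ())) k m = (hch m k h.1 h.2).choose := dif_pos h
    rw [h2] at h1
    exact ⟨_, h1, (hch m k h.1 h.2).choose_spec.2⟩
  · intro x hx hxi m hm n a s has hinj
    have h : C ⟨n, a, s⟩ x m := ⟨hMP x hx, hMP m hm, hxi, has, hinj⟩
    have h1 := hMop (Sum.inr (Sum.inr ⟨n, a, s⟩)) x hx m hm
    have h2 : op (Sum.inr (Sum.inr ⟨n, a, s⟩)) x m = (hW ⟨n, a, s⟩ x m h).choose := dif_pos h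
    rw [h2] at h1
    exact ⟨_, h1, (hW ⟨n, a, s⟩ x m h).choose_spec.2⟩
  · exact ⟨T 1, hTM 1, mon_noninj one_pos (hT2 1)⟩
  · intro w
    refine ⟨fun i => w.update 0 i, ?_, ?_⟩
    · intro i j hij
      have h := DFunLike.congr_fun hij (0 : NNRat)
      simpa using h
    · intro i n hn hni
      obtain ⟨v, hv, hk⟩ := mon_ker (hMP n hn) hni
      rw [hk]
      intro u hu
      have hne : u ≠ 0 := (hv.trans_le hu).ne'
      simp [hne]
  · intro x hx hxi w
    obtain ⟨v, hv, hk⟩ := mon_ker (hMP x hx) hxi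
    obtain ⟨f, rfl⟩ := (hMP x hx).sur w
    have hv2 : 0 < v / 2 := by positivity
    have hlt : v / 2 < v := half_lt_self hv
    refine ⟨fun i => f.update (v / 2) i, ?_, ?_⟩
    · intro i
      rw [hk]
      intro u hu
      have hne : u ≠ v / 2 := (hlt.trans_le hu).ne'
      simp [hne]
    · intro i j hij
      refine ⟨T (v / 2), hTM _, mon_noninj hv2 (hT2 _), ?_⟩
      intro he
      have h1 := ((hT2 _ _ _).1 he) (v / 2) le_rfl
      simp at h1
      exact hij h1

end Pool.Agent.KCS
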