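import Pool.Agent.KCS.St

/-!
# KCS/QUO (helper95): systems for `r` on `X` are systems on the quotient
-/

set_option autoImplicit false
set_option linter.unusedVariables false

namespace Pool.Agent.KCS

open FirstOrder Set Cardinal
open scoped Ordinal

/-- from `X` down to a quotient -/
theorem quo_down {W X Y : Type} (M : Set (W → W)) (r : Setoid X) (π : X → Y) (hπ : Function.Surjective π)
    (hr : ∀ a b, π a = π b ↔ r a b) (L : Set (X → W)) (hL : Sys M r L) :
    Sys M (⊥ : Setoid Y) {c : Y → W | c ∘ π ∈ L} := by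
  classical
  choose σ hσ using hπ
  have hrσ : ∀ a, r (σ (π a)) a := fun a => (hr _ _).1 (hσ _)
  have hfac : ∀ c ∈ L, (c ∘ σ) ∘ π = c := by
    intro c hc
    funext a
    exact hL.inv c hc _ _ (hrσ a)
  have hfac2 : ∀ c : Y → W, (c ∘ π) ∘ σ = c := by
    intro c
    funext y
    simp [hσ]
  refine ⟨?_, ?_, ?_, ?_, ?_, ?_, ?_⟩
  · obtain ⟨c, hc⟩ := hL.ne
    refine ⟨c ∘ σ, ?_⟩
    show (c ∘ σ) ∘ π ∈ L
    rw [hfac c hc]
    exact hc
  · intro c _ a b hab
    have h : a = b := hab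
    rw [h]
  · intro c hc m hm
    exact hL.act _ hc m hm
  · intro c hc c' hc'
    obtain ⟨d, hd, m, hm, k, hk, h1, h2⟩ := hL.dir _ hc _ hc'
    refine ⟨d ∘ σ, ?_, m, hm, k, hk, ?_, ?_⟩
    · show (d ∘ σ) ∘ π ∈ L
      rw [hfac d hd]
      exact hd
    · rw [← hfac2 c, h1]
      rfl
    · rw [← hfac2 c', h2]
      rfl
  · intro a b hab
    have hab' : ¬ a = b := hab
    have h1 : ¬ r (σ a) (σ b) := by
      intro h
      apply hab'
      have h2 := (hr _ _).2 h
      rwa [hσ, hσ] at h2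
    obtain ⟨c, hc, hne⟩ := hL.sep _ _ h1
    refine ⟨c ∘ σ, ?_, hne⟩
    show (c ∘ σ) ∘ π ∈ L
    rw [hfac c hc]
    exact hc
  · intro c hc m hm n a s hs hinj
    have h1 : ∀ i, (c ∘ π) (σ (a i)) = m (s i) := by
      intro i
      show c (π (σ (a i))) = m (s i)
      rw [hσ]
      exact hs i
    have h2 : Function.Injective (fun i => (c ∘ π) (σ (a i))) := by
      intro i j hij
      apply hinj
      have h3 : c (π (σ (a i))) = c (π (σ (a j))) := hij
      rw [hσ, hσ] at h3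
      exact h3
    obtain ⟨d, hd, h3, h4⟩ := hL.ext _ hc m hm n (fun i => σ (a i)) s h1 h2
    refine ⟨d ∘ σ, ?_, ?_, h4⟩
    · show (d ∘ σ) ∘ π ∈ L
      rw [hfac d hd]
      exact hd
    · rw [← hfac2 c, h3]
      rfl
  · intro c hc w
    obtain ⟨a, h1, h2⟩ := hL.fib _ hc w
    refine ⟨fun i => π (a i), h1, ?_⟩
    intro i j hij h
    have h3 : π (a i) = π (a j) := h
    exact h2 i j hij ((hr _ _).1 h3)

/-- from a quotient up to `X` -/
theorem quo_up {W X Y : Type} (M : Set (W → W)) (r : Setoid X) (π : X → Y) (hπ : Function.Surjective π)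
    (hr : ∀ a b, π a = π b ↔ r a b) (L : Set (Y → W)) (hL : Sys M ⊥ L) :
    Sys M r ((fun c : Y → W => c ∘ π) '' L) := by
  classical
  choose σ hσ using hπ
  refine ⟨?_, ?_, ?_, ?_, ?_, ?_, ?_⟩
  · exact hL.ne.image _
  · rintro _ ⟨c, hc, rfl⟩ a b hab
    show c (π a) = c (π b)
    rw [(hr a b).2 hab]
  · rintro _ ⟨c, hc, rfl⟩ m hm
    exact ⟨m ∘ c, hL.act c hc m hm, rfl⟩
  · rintro _ ⟨c, hc, rfl⟩ _ ⟨c', hc', rfl⟩
    obtain ⟨d, hd, m, hm, k, hk, h1, h2⟩ := hL.dir c hc c' hc'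
    refine ⟨d ∘ π, ⟨d, hd, rfl⟩, m, hm, k, hk, ?_, ?_⟩
    · show c ∘ π = m ∘ (d ∘ π)
      rw [h1]
      rfl
    · show c' ∘ π = k ∘ (d ∘ π)
      rw [h2]
      rfl
  · intro a b hab
    have h1 : ¬ (⊥ : Setoid Y) (π a) (π b) := by
      intro h
      exact hab ((hr a b).1 h)
    obtain ⟨c, hc, hne⟩ := hL.sep _ _ h1
    exact ⟨c ∘ π, ⟨c, hc, rfl⟩, hne⟩
  · rintro _ ⟨c, hc, rfl⟩ m hm n a s hs hinj
    obtain ⟨d, hd, h1, h2⟩ := hL.ext c hc m hm n (fun i => π (a i)) s hs hinj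
    refine ⟨d ∘ π, ⟨d, hd, rfl⟩, ?_, h2⟩
    show c ∘ π = m ∘ (d ∘ π)
    rw [h1]
    rfl
  · rintro _ ⟨c, hc, rfl⟩ w
    obtain ⟨a, h1, h2⟩ := hL.fib c hc w
    refine ⟨fun i => σ (a i), ?_, ?_⟩
    · intro i
      show c (π (σ (a i))) = w
      rw [hσ]
      exact h1 i
    · intro i j hij h
      have h3 := (hr _ _).2 h
      rw [hσ, hσ] at h3
      exact h2 i j hij h3

/-- [QUO] systems for `r` on `X` are systems on the quotient -/
theorem thm_QUO : St_QUO := by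
  intro W X M r
  have hr : ∀ a b, Quotient.mk r a = Quotient.mk r b ↔ r a b := fun a b => Quotient.eq
  refine ⟨fun L hL => quo_down M r (Quotient.mk r) Quotient.mk_surjective hr L hL,
    fun L hL => quo_up M r (Quotient.mk r) Quotient.mk_surjective hr L hL, fun Y e L hL => ?_⟩
  exact quo_down M r (e.symm ∘ Quotient.mk r) (e.symm.surjective.comp Quotient.mk_surjective)
    (fun a b => by simp only [Function.comp_apply, EmbeddingLike.apply_eq_iff_eq]; exact hr a b) L hL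

end Pool.Agent.KCS
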