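import Pool.Agent.KCS.St

/-! # KCS, module SPC: the spectrum -/

set_option autoImplicit false
set_option linter.unusedVariables false

namespace Pool.Agent.KCS

open FirstOrder Set Cardinal
open scoped Ordinal

/-- systems can be transported -/
theorem spc_tr {W X Y : Type} (M : Set (W → W)) (L : Set (X → W)) (e : Y ≃ X)
    (h : Sys M (⊥ : Setoid X) L) : Sys M (⊥ : Setoid Y) ((fun c : X → W => c ∘ e) '' L) where
  ne := h.ne.image _
  inv := by
    rintro _ ⟨c, hc, rfl⟩ a b hab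
    have hab' : a = b := hab
    rw [hab']
  act := by
    rintro _ ⟨c, hc, rfl⟩ m hm
    exact ⟨m ∘ c, h.act c hc m hm, rfl⟩
  dir := by
    rintro _ ⟨c, hc, rfl⟩ _ ⟨c', hc', rfl⟩
    obtain ⟨d, hd, m, hm, k, hk, h1, h2⟩ := h.dir c hc c' hc'
    refine ⟨d ∘ e, ⟨d, hd, rfl⟩, m, hm, k, hk, ?_, ?_⟩
    · simp only [h1]; rfl
    · simp only [h2]; rfl
  sep := by
    intro a b hab
    obtain ⟨c, hc, h1⟩ := h.sep (e a) (e b) (by
      intro h2
      have h3 : e a = e b := h2
      exact hab (e.injective h3))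
    exact ⟨c ∘ e, ⟨c, hc, rfl⟩, h1⟩
  ext := by
    rintro _ ⟨c, hc, rfl⟩ m hm n a s h1 h2
    obtain ⟨d, hd, h3, h4⟩ := h.ext c hc m hm n (fun i => e (a i)) s h1 h2
    refine ⟨d ∘ e, ⟨d, hd, rfl⟩, ?_, h4⟩
    simp only [h3]; rfl
  fib := by
    rintro _ ⟨c, hc, rfl⟩ w
    obtain ⟨a, h1, h2⟩ := h.fib c hc w
    refine ⟨fun i => e.symm (a i), fun i => by simp [h1], ?_⟩
    intro i j hij h3
    have h4 : e.symm (a i) = e.symm (a j) := h3
    exact h2 i j hij (e.symm.injective h4)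

/-- the structure of a system -/
@[reducible] def spc_str (W X : Type) (L : Set (X → W)) : (Lg W).Structure (L ⊕ X) where
  funMap := fun f => Empty.elim f
  RelMap := fun {n} r v => ∃ (c : L) (b : X) (w : W), n = 2 ∧ HEq r w ∧
    (∀ i : Fin n, v i = if (i : ℕ) = 0 then Sum.inl c else Sum.inr b) ∧ (c : X → W) b = w

theorem spc_Rw (W X : Type) (L : Set (X → W)) (w : W) (x b : L ⊕ X) :
    @Rw W (L ⊕ X) (spc_str W X L) w x b ↔
      ∃ (c : L) (b' : X), x = Sum.inl c ∧ b = Sum.inr b' ∧ (c : X → W) b' = w := by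
  constructor
  · rintro ⟨c, b', w', -, h1, h2, h3⟩
    have h4 := h2 0
    have h5 := h2 1
    simp at h4 h5
    refine ⟨c, b', h4, h5, ?_⟩
    rw [h3]
    exact (eq_of_heq h1).symm
  · rintro ⟨c, b', rfl, rfl, h3⟩
    refine ⟨c, b', w, rfl, HEq.rfl, ?_, h3⟩
    intro i
    fin_cases i <;> simp

theorem spc_left {A B : Type} (x : A ⊕ B) (h : ¬ x.isRight = true) : x.isLeft = true := by
  cases x <;> simp_all

/-- the points of the structure -/
def spc_e (A X : Type) : {b : A ⊕ X // b.isRight = true} ≃ X where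
  toFun b := b.1.getRight b.2
  invFun x := ⟨Sum.inr x, rfl⟩
  left_inv := by
    rintro ⟨b, hb⟩
    cases b with
    | inl c => simp at hb
    | inr x => rfl
  right_inv x := rfl

theorem spc_mod (W X : Type) (M : Set (W → W)) (L : Set (X → W)) (h : Sys M (⊥ : Setoid X) L) :
    @IsMod W M (L ⊕ X) (spc_str W X L) := by
  refine ⟨fun u => u.isRight = true, fun x b => (x.1.getLeft (spc_left x.1 x.2)).1 (spc_e L X b),
    ?_, ?_, ?_⟩
  · intro w x b
    rw [spc_Rw]
    constructor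
    · rintro ⟨c, b', rfl, rfl, h3⟩
      exact ⟨by simp, rfl, h3⟩
    · rintro ⟨hx, hb, h3⟩
      cases x with
      | inr x' => simp at hx
      | inl c =>
        cases b with
        | inl c' => simp at hb
        | inr b' => exact ⟨c, b', rfl, rfl, h3⟩
  · rintro ⟨x, hx⟩ ⟨y, hy⟩ hxy
    cases x with
    | inr x' => simp at hx
    | inl c =>
      cases y with
      | inr y' => simp at hy
      | inl c' =>
        have h4 : c = c' := by
          apply Subtype.ext
          funext b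
          exact congrFun hxy ⟨Sum.inr b, rfl⟩
        rw [Subtype.mk.injEq, h4]
  · have h5 : range (fun (x : {x : L ⊕ X // ¬ x.isRight = true})
        (b : {b : L ⊕ X // b.isRight = true}) =>
        (x.1.getLeft (spc_left x.1 x.2)).1 (spc_e L X b))
        = (fun c : X → W => c ∘ (spc_e L X)) '' L := by
      ext f
      constructor
      · rintro ⟨⟨x, hx⟩, rfl⟩
        cases x with
        | inr x' => simp at hx
        | inl c => exact ⟨c.1, c.2, rfl⟩
      · rintro ⟨c, hc, rfl⟩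
        exact ⟨⟨Sum.inl ⟨c, hc⟩, by simp⟩, rfl⟩
    rw [h5]
    exact spc_tr M L (spc_e L X) h

theorem spc_fwd (hBND : St_BND) (hTRE : St_TRE) (W : Type) (M : Set (W → W)) (hM : Mon M)
    (U : Type) [(Lg W).Structure U] (hU : IsMod M U) (κ : Cardinal.{0}) (hκ : ℵ₀ ≤ κ)
    (hc : #U = κ) : κ ≤ 2 ^ ℵ₀ ∨ ManyBranches κ := by
  obtain ⟨p, val, h1, h2, h3⟩ := hU
  by_cases hk : κ ≤ 2 ^ ℵ₀
  · exact Or.inl hk
  push Not at hk
  right
  obtain ⟨b1, b2, -⟩ := hBND W M hM _ _ h3
  have hsum : κ = #{b : U // p b} + #{x : U // ¬ p x} := by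
    rw [← hc]
    exact (Cardinal.mk_sum_compl {b | p b}).symm
  have hL : #{x : U // ¬ p x} = #(range val) := (Cardinal.mk_range_eq val h2).symm
  rw [hL] at hsum
  have hal : ℵ₁ ≤ (2 : Cardinal.{0}) ^ ℵ₀ := by
    rw [← Cardinal.succ_aleph0]
    exact Order.succ_le_of_lt (Cardinal.cantor ℵ₀)
  have hX : #{b : U // p b} = κ := by
    apply le_antisymm
    · rw [hsum]; exact self_le_add_right _ _
    · by_contra hcon
      push Not at hcon
      have := Cardinal.add_lt_of_lt hκ hcon (lt_of_le_of_lt (b1.trans hal) hk)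
      rw [← hsum] at this
      exact lt_irrefl _ this
  rcases b2 with b2 | b2
  · rw [hX] at b2
    exact absurd b2 (not_le.2 hk)
  · rw [hX] at b2
    exact (hTRE κ).1 b2

theorem thm_SPC (hSZ1 : St_SZ1) (hSZ2 : St_SZ2) (hBND : St_BND) (hTRE : St_TRE) : St_SPC := by
  intro W M hM ψ hψ κ hκ
  constructor
  · rintro ⟨U, inst, hU1, hU2⟩
    exact spc_fwd hBND hTRE W M hM U ((hψ U).1 hU2) κ hκ hU1
  · intro h
    have hal : ℵ₁ ≤ (2 : Cardinal.{0}) ^ ℵ₀ := by
      rw [← Cardinal.succ_aleph0]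
      exact Order.succ_le_of_lt (Cardinal.cantor ℵ₀)
    obtain ⟨X, L, hX, hL⟩ : ∃ (X : Type) (L : Set (X → W)), #X = κ ∧ Sys M ⊥ L := by
      by_cases hk : κ ≤ 2 ^ ℵ₀
      · exact hSZ2 W M hM κ hκ hk
      · have h' := h.resolve_left hk
        push Not at hk
        refine hSZ1 W M hM ω₁ κ ?_ le_rfl ?_ ((hTRE κ).2 h')
        · exact Cardinal.isSuccLimit_omega 1
        · have h9 : #((ω₁ : Ordinal.{0}).ToType) = ℵ₁ := by
            rw [Cardinal.mk_toType, Ordinal.card_omega]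
          rw [h9]
          exact hal.trans hk.le
    refine ⟨L ⊕ X, spc_str W X L, ?_, (@hψ (L ⊕ X) (spc_str W X L)).2 (spc_mod W X M L hL)⟩
    obtain ⟨b1, -, b3⟩ := hBND W M hM X L hL
    rw [Cardinal.mk_sum, Cardinal.lift_id, Cardinal.lift_id, hX]
    apply Cardinal.add_eq_right hκ
    by_cases hk : ℵ₁ ≤ κ
    · exact b1.trans hk
    · push Not at hk
      have hk' : κ ≤ ℵ₀ := by
        rw [← Cardinal.succ_aleph0] at hk
        exact Order.lt_succ_iff.1 hk
      have hXc : Countable X := by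
        rw [← Cardinal.mk_le_aleph0_iff, hX]
        exact hk'
      exact (b3 hXc).le_aleph0.trans hκ

end Pool.Agent.KCS
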