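import Pool.Agent.KCS.St

/-!
# KCS, module SRJ: closure properties of the surjections (helper84)
-/

set_option autoImplicit false

namespace Pool.Agent.KCS

private lemma srj_refl (u : NNRat) (f : Om) : Ag u f f := fun _ _ => rfl

private lemma srj_mono {u v : NNRat} (h : u ≤ v) {f g : Om} (hu : Ag u f g) : Ag v f g :=
  fun w hw => hu w (h.trans hw)

private lemma srj_zero {f g : Om} : Ag 0 f g ↔ f = g := by
  constructor
  · intro h
    exact Finsupp.ext fun w => h w zero_le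
  · rintro rfl
    exact srj_refl 0 f

/-- the kernel of a surjection in `Srj` -/
private lemma srj_ker {ρ : Om → Om} (h : Srj ρ) : ∃ v, ∀ f g, ρ f = ρ g ↔ Ag v f g := by
  obtain ⟨v, hv⟩ := h.pull 0
  exact ⟨v, fun f g => by rw [← srj_zero, hv]⟩

private lemma srj_id : Srj id := by
  refine ⟨Function.surjective_id, fun u => ⟨u, fun f g => Iff.rfl⟩, fun u _ => ⟨u, fun f g => Iff.rfl⟩⟩

private lemma srj_comp {ρ ρ' : Om → Om} (h : Srj ρ) (h' : Srj ρ') : Srj (ρ' ∘ ρ) := by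
  refine ⟨h'.sur.comp h.sur, ?_, ?_⟩
  · intro u
    obtain ⟨v, hv⟩ := h'.pull u
    obtain ⟨w, hw⟩ := h.pull v
    refine ⟨w, fun f g => ?_⟩
    rw [Function.comp_apply, Function.comp_apply, hv, hw]
  · intro u hu
    obtain ⟨v, hv⟩ := h.push u (fun f g hfg => hu f g (by
      rw [Function.comp_apply, Function.comp_apply, hfg]))
    obtain ⟨w, hw⟩ := h'.push v (by
      intro a b hab
      obtain ⟨f, rfl⟩ := h.sur a
      obtain ⟨g, rfl⟩ := h.sur b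
      exact (hv f g).mp (hu f g hab))
    refine ⟨w, fun f g => ?_⟩
    rw [hv, hw]
    rfl

private lemma srj_inv {ρ : Om → Om} (h : Srj ρ) (hi : Function.Injective ρ) :
    ∃ ρ', Srj ρ' ∧ (∀ a, ρ' (ρ a) = a) ∧ ∀ a, ρ (ρ' a) = a := by
  let e := Equiv.ofBijective ρ ⟨hi, h.sur⟩
  have h1 : ∀ a, e.symm (ρ a) = a := fun a => e.symm_apply_apply a
  have h2 : ∀ a, ρ (e.symm a) = a := fun a => e.apply_symm_apply a
  refine ⟨e.symm, ⟨e.symm.surjective, ?_, ?_⟩, h1, h2⟩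
  · intro u
    obtain ⟨v, hv⟩ := h.push u (fun f g hfg => by rw [hi hfg]; exact srj_refl u g)
    refine ⟨v, fun a b => ?_⟩
    rw [hv, h2, h2]
  · intro u _
    obtain ⟨v, hv⟩ := h.pull u
    refine ⟨v, fun a b => ?_⟩
    rw [← hv, h2, h2]

private lemma srj_fac {ρ ρ' : Om → Om} (h : Srj ρ) (h' : Srj ρ')
    (hk : ∀ f g, ρ f = ρ g → ρ' f = ρ' g) : ∃ z, Srj z ∧ ρ' = z ∘ ρ := by
  choose s hs using h.sur
  have hz : ∀ f, ρ' (s (ρ f)) = ρ' f := fun f => hk _ _ (hs (ρ f))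
  refine ⟨fun a => ρ' (s a), ⟨?_, ?_, ?_⟩, ?_⟩
  · intro b
    obtain ⟨f, rfl⟩ := h'.sur b
    exact ⟨ρ f, hz f⟩
  · intro u
    obtain ⟨w, hw⟩ := h'.pull u
    obtain ⟨w', hw'⟩ := h.push w (by
      intro f g hfg
      rw [← hw, hk f g hfg]
      exact srj_refl u _)
    refine ⟨w', fun a b => ?_⟩
    obtain ⟨f, rfl⟩ := h.sur a
    obtain ⟨g, rfl⟩ := h.sur b
    show Ag u (ρ' (s (ρ f))) (ρ' (s (ρ g))) ↔ _
    rw [hz, hz, hw, hw']
  · intro u hu
    obtain ⟨w, hw⟩ := h.pull u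
    obtain ⟨w', hw'⟩ := h'.push w (by
      intro f g hfg
      rw [← hw]
      apply hu
      show ρ' (s (ρ f)) = ρ' (s (ρ g))
      rw [hz, hz, hfg])
    refine ⟨w', fun a b => ?_⟩
    obtain ⟨f, rfl⟩ := h.sur a
    obtain ⟨g, rfl⟩ := h.sur b
    show _ ↔ Ag w' (ρ' (s (ρ f))) (ρ' (s (ρ g)))
    rw [hz, hz, hw, hw']
  · funext f
    exact (hz f).symm

/-- [SRJ] -/
theorem thm_SRJ : St_SRJ := by
  refine ⟨srj_id, fun ρ ρ' h h' => srj_comp h h', fun ρ h hi => srj_inv h hi, ?_⟩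
  intro ρ ρ' h h'
  obtain ⟨v, hv⟩ := srj_ker h
  obtain ⟨v', hv'⟩ := srj_ker h'
  rcases le_total v v' with hle | hle
  · obtain ⟨z, hz, e⟩ := srj_fac h h' (fun f g hfg =>
      (hv' f g).mpr (srj_mono hle ((hv f g).mp hfg)))
    exact ⟨z, hz, Or.inl e⟩
  · obtain ⟨z, hz, e⟩ := srj_fac h' h (fun f g hfg =>
      (hv f g).mpr (srj_mono hle ((hv' f g).mp hfg)))
    exact ⟨z, hz, Or.inr e⟩

end Pool.Agent.KCS
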