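import Pool.Agent.KCS.St

/-!
# KCS/SZ1: systems on the branches of a tree
-/

set_option autoImplicit false
set_option linter.unusedVariables false

namespace Pool.Agent.KCS

open FirstOrder Set Cardinal
open scoped Ordinal

/-- position of an index -/
private noncomputable def pos {δ : Ordinal.{0}} (i : δ.ToType) : Ordinal.{0} :=
  (Ordinal.ToType.mk.symm i : Iio δ).1

private theorem pos_lt {δ : Ordinal.{0}} (i : δ.ToType) : pos i < δ :=
  (Ordinal.ToType.mk.symm i : Iio δ).2

private theorem pos_surj {δ α : Ordinal.{0}} (h : α < δ) : ∃ i : δ.ToType, pos i = α := by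
  refine ⟨Ordinal.ToType.mk ⟨α, h⟩, ?_⟩
  unfold pos
  rw [OrderIso.symm_apply_apply]

private theorem pos_lt_pos {δ : Ordinal.{0}} (i j : δ.ToType) : pos i < pos j ↔ i < j := by
  unfold pos
  rw [Subtype.coe_lt_coe, OrderIso.lt_iff_lt]

private theorem pos_inj {δ : Ordinal.{0}} (i j : δ.ToType) (h : pos i = pos j) : i = j := by
  unfold pos at h
  exact Ordinal.ToType.mk.symm.injective (Subtype.ext h)

private theorem countable_Iio' {δ : Ordinal.{0}} (hδ : δ ≤ ω₁) (i : δ.ToType) :
    Countable (Iio i) := by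
  have h1 : #(Iio (pos i)) ≤ ℵ₀ := by
    rw [Cardinal.mk_Iio_ordinal]
    have h2 : (pos i).card < ℵ₁ := by
      have h3 : pos i < ω₁ := lt_of_lt_of_le (pos_lt i) hδ
      rwa [← Cardinal.ord_aleph, Cardinal.lt_ord] at h3
    rw [← Cardinal.succ_aleph0, Order.lt_succ_iff] at h2
    simpa using Cardinal.lift_le.2 h2
  have h4 : Countable (Iio (pos i)) := Cardinal.mk_le_aleph0_iff.1 h1
  let g : Iio i → Iio (pos i) := fun j => ⟨pos j.1, (pos_lt_pos _ _).2 j.2⟩
  have hg : Function.Injective g := by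
    intro j k h
    have h5 : pos j.1 = pos k.1 := congrArg (fun z : Iio (pos i) => z.1) h
    exact Subtype.ext (pos_inj _ _ h5)
  exact hg.countable

private def rr {δ : Ordinal.{0}} (F : Set (δ.ToType → ℕ)) (α : Ordinal.{0}) :
    Setoid (F × (δ.ToType →₀ ℕ)) where
  r a b := ∀ i, pos i < α → (a.1 : δ.ToType → ℕ) i = (b.1 : δ.ToType → ℕ) i ∧ a.2 i = b.2 i
  iseqv := ⟨fun _ _ _ => ⟨rfl, rfl⟩, fun h i hi => ⟨(h i hi).1.symm, (h i hi).2.symm⟩,
    fun h h' i hi => ⟨(h i hi).1.trans (h' i hi).1, (h i hi).2.trans (h' i hi).2⟩⟩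

/-- systems on the branches of a tree -/
theorem thm_SZ1 (hBIG : St_BIG) : St_SZ1 := by
  intro W M hM δ κ hlim hδ hκ hFam
  obtain ⟨F, hF, hcount⟩ := hFam
  have hinf : ℵ₀ ≤ #(δ.ToType) := by
    rw [Cardinal.mk_toType]
    have h1 := Ordinal.omega0_le_of_isSuccLimit hlim
    simpa using Ordinal.card_le_card h1
  have hκinf : ℵ₀ ≤ κ := hinf.trans hκ
  have hne : Nonempty F := by
    rw [← Cardinal.mk_ne_zero_iff, hF]
    exact (lt_of_lt_of_le Cardinal.aleph0_pos hκinf).ne'
  have hne2 : Nonempty (δ.ToType) := by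
    rw [← Cardinal.mk_ne_zero_iff]
    exact (lt_of_lt_of_le Cardinal.aleph0_pos hinf).ne'
  have hX : Nonempty (F × (δ.ToType →₀ ℕ)) := ⟨(hne.some, 0)⟩
  suffices hS : ∃ L : Set (F × (δ.ToType →₀ ℕ) → W), Sys M ⊥ L by
    obtain ⟨L, hL⟩ := hS
    refine ⟨F × (δ.ToType →₀ ℕ), L, ?_, hL⟩
    rw [Cardinal.mk_prod, Cardinal.lift_id, Cardinal.lift_id, hF, Cardinal.mk_finsupp_nat]
    apply Cardinal.mul_eq_left hκinf
    · exact max_le hκ hκinf
    · exact (lt_of_lt_of_le Cardinal.aleph0_pos (le_max_right _ _)).ne'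
  refine hBIG W M hM (F × (δ.ToType →₀ ℕ)) δ (rr F) hlim hδ ?_ ?_ ?_ ?_ ?_
  · intro α β hab a b h i hi
    exact h i (lt_of_lt_of_le hi hab)
  · ext a b
    constructor
    · intro h
      refine Prod.ext (Subtype.ext (funext fun i => (h i (pos_lt i)).1)) ?_
      exact Finsupp.ext fun i => (h i (pos_lt i)).2
    · intro h i _
      have h' : a = b := h
      rw [h']
      exact ⟨rfl, rfl⟩
  · intro α hα
    obtain ⟨i, rfl⟩ := pos_surj hα
    have hc1 : Countable (range (fun (f : F) (j : Iio i) => (f : δ.ToType → ℕ) j)) :=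
      (hcount i).to_subtype
    have hc2 : Countable (Iio i) := countable_Iio' hδ i
    let g : F × (δ.ToType →₀ ℕ) →
        (range (fun (f : F) (j : Iio i) => (f : δ.ToType → ℕ) j)) × (Subtype (· ∈ Iio i) →₀ ℕ) :=
      fun a => (⟨fun j => (a.1 : δ.ToType → ℕ) j, ⟨a.1, rfl⟩⟩, Finsupp.subtypeDomain (· ∈ Iio i) a.2)
    have hg : ∀ a b, g a = g b ↔ rr F (pos i) a b := by
      intro a b
      constructor
      · intro h j hj
        have hj' : j < i := (pos_lt_pos _ _).1 hj
        have h1 : (fun j : Iio i => (a.1 : δ.ToType → ℕ) j) = fun j : Iio i => (b.1 : δ.ToType → ℕ) j :=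
          congrArg (fun z => (Prod.fst z).1) h
        have h2 : Finsupp.subtypeDomain (· ∈ Iio i) a.2 = Finsupp.subtypeDomain (· ∈ Iio i) b.2 :=
          congrArg Prod.snd h
        refine ⟨congrFun h1 ⟨j, hj'⟩, ?_⟩
        have h3 := DFunLike.congr_fun h2 ⟨j, hj'⟩
        simpa using h3
      · intro h
        refine Prod.ext (Subtype.ext (funext fun j => (h j.1 ((pos_lt_pos _ _).2 j.2)).1)) ?_
        refine Finsupp.ext fun j => ?_
        have h3 := (h j.1 ((pos_lt_pos _ _).2 j.2)).2
        simpa [g] using h3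
    let g' : Quotient (rr F (pos i)) →
        (range (fun (f : F) (j : Iio i) => (f : δ.ToType → ℕ) j)) × (Subtype (· ∈ Iio i) →₀ ℕ) :=
      Quotient.lift g (fun a b h => (hg a b).2 h)
    have hg' : Function.Injective g' := by
      intro x y
      induction x using Quotient.inductionOn with
      | h a =>
        induction y using Quotient.inductionOn with
        | h b =>
          intro h
          exact Quotient.sound ((hg a b).1 h)
    exact hg'.countable
  · intro α hα hl a b h i hi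
    have h1 : Order.succ (pos i) < α := hl.succ_lt hi
    exact h _ h1 i (Order.lt_succ _)
  · intro α hα a
    obtain ⟨i, rfl⟩ := pos_surj hα
    refine ⟨fun k => (a.1, a.2.update i k), ?_, ?_⟩
    · intro k j hj
      refine ⟨rfl, ?_⟩
      have hji : j ≠ i := by
        rintro rfl
        exact lt_irrefl _ hj
      simp [Finsupp.update_apply, hji]
    · intro k l hkl h
      have h1 := (h i (by rw [← Order.succ_eq_add_one]; exact Order.lt_succ _)).2
      simp [Finsupp.update_apply] at h1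
      exact hkl h1

end Pool.Agent.KCS
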