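import Pool.Agent.KCS.St

/-!
# KCS [SZ2]: systems of all sizes up to the continuum (helper25)
-/

set_option autoImplicit false
set_option linter.unusedVariables false

namespace Pool.Agent.KCS

open FirstOrder Set Cardinal
open scoped Ordinal

theorem sz2_finite (i : (ℵ₀ : Cardinal.{0}).ord.ToType) : Finite (Iio i) := by
  have h1 : #(Iio i) < ℵ₀ := by simpa using Cardinal.mk_Iio_lt i (by simp)
  exact Cardinal.lt_aleph0_iff_finite.1 h1

theorem sz2_card : #((ℵ₀ : Cardinal.{0}).ord.ToType → ℕ) = 2 ^ (ℵ₀ : Cardinal.{0}) := by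
  rw [← Cardinal.power_def, Cardinal.mk_ord_toType, Cardinal.mk_nat,
    Cardinal.power_self_eq (le_refl _)]

theorem thm_SZ2 (hSZ1 : St_SZ1) : St_SZ2 := by
  intro W M hM κ h1 h2
  refine hSZ1 W M hM (ℵ₀ : Cardinal.{0}).ord κ (Cardinal.isSuccLimit_ord (le_refl _)) ?_ ?_ ?_
  · rw [Cardinal.ord_aleph0]
    exact Ordinal.omega0_lt_omega_one.le
  · rw [Cardinal.mk_ord_toType]
    exact h1
  · rw [← sz2_card, Cardinal.le_mk_iff_exists_set] at h2
    obtain ⟨F, hF⟩ := h2
    refine ⟨F, hF, fun i => ?_⟩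
    haveI := sz2_finite i
    haveI : Countable (Iio i → ℕ) := inferInstance
    exact Set.to_countable _

end Pool.Agent.KCS
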