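import Pool.Agent.KCS.St

/-!
# KCS: families of functions on `ω₁` and trees (helper98)

Module `TRE`: `thm_TRE : St_TRE`.
-/

set_option autoImplicit false

namespace Pool.Agent.KCS

open Set Cardinal
open scoped Ordinal

/-- the index set `ω₁` -/
abbrev tre_I : Type := (ω₁ : Ordinal.{0}).ToType

/-- the ordinal of an index -/
noncomputable def tre_o (i : tre_I) : Ordinal.{0} := (Ordinal.ToType.toOrd i : Ordinal.{0})

theorem tre_o_lt (i : tre_I) : tre_o i < ω₁ := (Ordinal.ToType.toOrd i).2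

theorem tre_o_lt_iff {i j : tre_I} : tre_o i < tre_o j ↔ i < j :=
  Subtype.coe_lt_coe.trans (OrderIso.lt_iff_lt _)

theorem tre_o_inj {i j : tre_I} (h : tre_o i = tre_o j) : i = j :=
  (Ordinal.ToType.mk (o := ω₁)).symm.injective (Subtype.ext h)

theorem tre_o_surj (α : Ordinal.{0}) (h : α < ω₁) : ∃ i : tre_I, tre_o i = α :=
  ⟨Ordinal.ToType.mk ⟨α, h⟩, by simp [tre_o]⟩

theorem tre_gt (i : tre_I) : ∃ j, i < j := by
  obtain ⟨j, hj⟩ := tre_o_surj (Order.succ (tre_o i))
    ((Cardinal.isSuccLimit_omega 1).succ_lt (tre_o_lt i))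
  exact ⟨j, tre_o_lt_iff.1 (by rw [hj]; exact Order.lt_succ _)⟩

open Classical in
/-- restriction, extended by zero -/
noncomputable def tre_res (i : tre_I) (f : tre_I → ℕ) : tre_I → ℕ :=
  fun j => if j < i then f j else 0

theorem tre_res_lt {i j : tre_I} (h : j < i) (f : tre_I → ℕ) : tre_res i f j = f j := if_pos h

theorem tre_res_res {i j : tre_I} (h : i ≤ j) (f : tre_I → ℕ) :
    tre_res i (tre_res j f) = tre_res i f := by
  funext k
  by_cases hk : k < i
  · rw [tre_res_lt hk, tre_res_lt hk, tre_res_lt (hk.trans_le h)]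
  · unfold tre_res
    rw [if_neg hk, if_neg hk]

/-- the tree of the restrictions of the members of `F` -/
structure tre_T (F : Set (tre_I → ℕ)) : Type where
  ix : tre_I
  fn : tre_I → ℕ
  mem : ∃ f ∈ F, fn = tre_res ix f

theorem tre_ext {F : Set (tre_I → ℕ)} {p q : tre_T F} (h1 : p.ix = q.ix) (h2 : p.fn = q.fn) :
    p = q := by
  cases p; cases q
  simp only at h1 h2
  subst h1; subst h2
  rfl

theorem tre_self {F : Set (tre_I → ℕ)} (p : tre_T F) : tre_res p.ix p.fn = p.fn := by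
  obtain ⟨f, _, hf⟩ := p.mem
  rw [hf, tre_res_res le_rfl]

instance tre_po (F : Set (tre_I → ℕ)) : PartialOrder (tre_T F) where
  le p q := p.ix ≤ q.ix ∧ p.fn = tre_res p.ix q.fn
  le_refl p := ⟨le_rfl, (tre_self p).symm⟩
  le_trans p q r h1 h2 := ⟨h1.1.trans h2.1, by rw [h1.2, h2.2, tre_res_res h1.1]⟩
  le_antisymm p q h1 h2 := by
    have h : p.ix = q.ix := le_antisymm h1.1 h2.1
    refine tre_ext h ?_
    rw [h1.2, h, tre_self]

theorem tre_le {F : Set (tre_I → ℕ)} (p q : tre_T F) :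
    p ≤ q ↔ p.ix ≤ q.ix ∧ p.fn = tre_res p.ix q.fn := Iff.rfl

theorem tre_lt {F : Set (tre_I → ℕ)} (p q : tre_T F) :
    p < q ↔ p.ix < q.ix ∧ p.fn = tre_res p.ix q.fn := by
  rw [lt_iff_le_and_ne, tre_le]
  constructor
  · rintro ⟨⟨h1, h2⟩, h3⟩
    refine ⟨lt_of_le_of_ne h1 fun h => h3 (tre_ext h ?_), h2⟩
    rw [h2, h, tre_self]
  · rintro ⟨h1, h2⟩
    exact ⟨⟨h1.le, h2⟩, fun h => h1.ne (by rw [h])⟩

theorem tre_cnt (F : Set (tre_I → ℕ)) (i : tre_I)
    (h : (range (fun (f : F) (j : Iio i) => (f : tre_I → ℕ) j)).Countable) :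
    (tre_res i '' F).Countable := by
  classical
  have h1 : tre_res i '' F ⊆ (fun (a : Iio i → ℕ) (j : tre_I) =>
      if hj : j < i then a ⟨j, hj⟩ else 0) ''
      (range (fun (f : F) (j : Iio i) => (f : tre_I → ℕ) j)) := by
    rintro _ ⟨f, hf, rfl⟩
    refine ⟨_, ⟨⟨f, hf⟩, rfl⟩, ?_⟩
    funext j
    by_cases hj : j < i
    · rw [tre_res_lt hj]; simp only [dif_pos hj]
    · unfold tre_res; rw [if_neg hj]; simp only [dif_neg hj]
  exact (h.image _).mono h1

theorem tre_isTree (F : Set (tre_I → ℕ))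
    (h : ∀ i : tre_I, (range (fun (f : F) (j : Iio i) => (f : tre_I → ℕ) j)).Countable) :
    IsTree (tre_T F) (fun p => tre_o p.ix) where
  lt t := tre_o_lt _
  mono s t hst := tre_o_lt_iff.2 ((tre_lt s t).1 hst).1
  pred t α hα := by
    obtain ⟨i, rfl⟩ := tre_o_surj α (hα.trans (tre_o_lt _))
    have hi : i < t.ix := tre_o_lt_iff.1 hα
    refine ⟨⟨i, tre_res i t.fn, ?_⟩, ⟨?_, rfl⟩, ?_⟩
    · obtain ⟨f, hf, hf'⟩ := t.mem
      exact ⟨f, hf, by rw [hf', tre_res_res hi.le]⟩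
    · exact (tre_lt _ _).2 ⟨hi, rfl⟩
    · rintro s ⟨h1, h2⟩
      have h3 : s.ix = i := tre_o_inj h2
      refine tre_ext h3 ?_
      rw [((tre_lt s t).1 h1).2, h3]
  lev α := by
    by_cases hα : ∃ i : tre_I, tre_o i = α
    · obtain ⟨i, rfl⟩ := hα
      have h1 : {t : tre_T F | tre_o t.ix = tre_o i} =
          {t : tre_T F | t.ix = i} := by
        ext t
        exact ⟨fun h => tre_o_inj h, fun h => congrArg tre_o h⟩
      rw [h1]
      have h2 : Set.MapsTo (fun t : tre_T F => t.fn) {t : tre_T F | t.ix = i} (tre_res i '' F) := by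
        intro t ht
        obtain ⟨f, hf, hf'⟩ := t.mem
        have ht' : t.ix = i := ht
        exact ⟨f, hf, (by rw [hf', ht'] : tre_res i f = t.fn)⟩
      refine h2.countable_of_injOn ?_ (tre_cnt F i (h i))
      intro s hs t ht hst
      have hs' : s.ix = i := hs
      have ht' : t.ix = i := ht
      exact tre_ext (hs'.trans ht'.symm) hst
    · have h1 : {t : tre_T F | tre_o t.ix = α} = ∅ := by
        ext t
        exact ⟨fun h => hα ⟨_, h⟩, fun h => h.elim⟩
      rw [h1]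
      exact Set.countable_empty

/-- the branch of a member of the family -/
theorem tre_branch (F : Set (tre_I → ℕ)) (f : tre_I → ℕ) (hf : f ∈ F) :
    {p : tre_T F | p.fn = tre_res p.ix f} ∈ Branch (tre_T F) (fun p => tre_o p.ix) := by
  constructor
  · intro p hp q hq _
    have hp' : p.fn = tre_res p.ix f := hp
    have hq' : q.fn = tre_res q.ix f := hq
    rcases le_total p.ix q.ix with h | h
    · exact Or.inl ((tre_le p q).2 ⟨h, by rw [hp', hq', tre_res_res h]⟩)
    · exact Or.inr ((tre_le q p).2 ⟨h, by rw [hp', hq', tre_res_res h]⟩)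
  · intro α hα
    obtain ⟨i, rfl⟩ := tre_o_surj α hα
    exact ⟨⟨i, tre_res i f, ⟨f, hf, rfl⟩⟩, rfl, rfl⟩

theorem tre_right (F : Set (tre_I → ℕ))
    (h : ∀ i : tre_I, (range (fun (f : F) (j : Iio i) => (f : tre_I → ℕ) j)).Countable) :
    ManyBranches (#F) := by
  refine ⟨tre_T F, tre_po F, fun p => tre_o p.ix, tre_isTree F h, ?_⟩
  refine Cardinal.mk_le_of_injective (f := fun f : F => (⟨_, tre_branch F f f.2⟩ :
    Branch (tre_T F) (fun p => tre_o p.ix))) ?_
  intro f g hfg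
  have h1 : {p : tre_T F | p.fn = tre_res p.ix f} = {p : tre_T F | p.fn = tre_res p.ix g} :=
    congrArg Subtype.val hfg
  refine Subtype.ext (funext fun j => ?_)
  obtain ⟨i, hi⟩ := tre_gt j
  have h2 : (⟨i, tre_res i f, ⟨f, f.2, rfl⟩⟩ : tre_T F) ∈ {p : tre_T F | p.fn = tre_res p.ix f} :=
    rfl
  rw [h1] at h2
  have h3 : tre_res i f = tre_res i g := h2
  rw [← tre_res_lt hi (f : tre_I → ℕ), h3, tre_res_lt hi]

section left

variable {T : Type} [PartialOrder T] {ht : T → Ordinal.{0}}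

/-- the element of the branch at the level `i` -/
noncomputable def tre_pt (b : Branch T ht) (i : tre_I) : T :=
  Classical.choose (b.2.2 (tre_o i) (tre_o_lt i))

theorem tre_pt_mem (b : Branch T ht) (i : tre_I) : tre_pt b i ∈ (b : Set T) :=
  (Classical.choose_spec (b.2.2 (tre_o i) (tre_o_lt i))).1

theorem tre_pt_ht (b : Branch T ht) (i : tre_I) : ht (tre_pt b i) = tre_o i :=
  (Classical.choose_spec (b.2.2 (tre_o i) (tre_o_lt i))).2

theorem tre_chain (hT : IsTree T ht) (b : Branch T ht) {s t : T} (hs : s ∈ (b : Set T))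
    (h : t ∈ (b : Set T)) (hst : ht s = ht t) : s = t := by
  by_contra hne
  rcases b.2.1 hs h hne with h1 | h1
  · exact (hT.mono s t (lt_of_le_of_ne h1 hne)).ne hst
  · exact (hT.mono t s (lt_of_le_of_ne h1 (Ne.symm hne))).ne hst.symm

theorem tre_pt_lt (hT : IsTree T ht) (b : Branch T ht) {i j : tre_I} (hij : j < i) :
    tre_pt b j < tre_pt b i := by
  have h0 : ht (tre_pt b j) < ht (tre_pt b i) := by
    rw [tre_pt_ht b j, tre_pt_ht b i]; exact tre_o_lt_iff.2 hij
  have hne : tre_pt b j ≠ tre_pt b i := fun h => h0.ne (by rw [h])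
  rcases b.2.1 (tre_pt_mem b j) (tre_pt_mem b i) hne with h1 | h1
  · exact lt_of_le_of_ne h1 hne
  · exact absurd (hT.mono _ _ (lt_of_le_of_ne h1 hne.symm)) h0.not_gt

end left

theorem tre_left (κ : Cardinal.{0}) (h : ManyBranches κ) : Fam ω₁ κ := by
  classical
  obtain ⟨T, _, ht, hT, hκ⟩ := h
  choose e he using fun α => Set.countable_iff_exists_injOn.1 (hT.lev α)
  let fb : Branch T ht → tre_I → ℕ := fun b i => e (tre_o i) (tre_pt b i)
  have hsub : ∀ b b' : Branch T ht, fb b = fb b' → (b : Set T) ⊆ b' := by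
    intro b b' hbb t htb
    obtain ⟨i, hi⟩ := tre_o_surj (ht t) (hT.lt t)
    have h1 : t = tre_pt b i := tre_chain hT b htb (tre_pt_mem b i) (by rw [tre_pt_ht b i, hi])
    have h2 : e (tre_o i) (tre_pt b i) = e (tre_o i) (tre_pt b' i) := congrFun hbb i
    have h3 : tre_pt b i = tre_pt b' i := he (tre_o i) (tre_pt_ht b i) (tre_pt_ht b' i) h2
    rw [h1, h3]
    exact tre_pt_mem b' i
  have hinj : Function.Injective fb := fun b b' hbb =>
    Subtype.ext (Set.Subset.antisymm (hsub b b' hbb) (hsub b' b hbb.symm))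
  rw [← Cardinal.mk_range_eq fb hinj, Cardinal.le_mk_iff_exists_subset] at hκ
  obtain ⟨F, hF, hFκ⟩ := hκ
  refine ⟨F, hFκ, fun i => ?_⟩
  let φ : T → Iio i → ℕ := fun t j =>
    if hs : ∃ s, s < t ∧ ht s = tre_o j then e (tre_o j) (Classical.choose hs) else 0
  refine ((hT.lev (tre_o i)).image φ).mono ?_
  rintro _ ⟨⟨f, hf⟩, rfl⟩
  obtain ⟨b, rfl⟩ := hF hf
  refine ⟨tre_pt b i, tre_pt_ht b i, ?_⟩
  funext j
  have hj : (j : tre_I) < i := j.2
  have hs : ∃ s, s < tre_pt b i ∧ ht s = tre_o (j : tre_I) :=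
    ⟨tre_pt b j, tre_pt_lt hT b hj, tre_pt_ht b j⟩
  have h1 : Classical.choose hs = tre_pt b j := by
    have hlt : tre_o (j : tre_I) < ht (tre_pt b i) := by
      rw [tre_pt_ht b i]; exact tre_o_lt_iff.2 hj
    exact (hT.pred (tre_pt b i) (tre_o j) hlt).unique (Classical.choose_spec hs)
      ⟨tre_pt_lt hT b hj, tre_pt_ht b j⟩
  change (if hs : ∃ s, s < tre_pt b i ∧ ht s = tre_o (j : tre_I) then
    e (tre_o j) (Classical.choose hs) else 0) = e (tre_o j) (tre_pt b j)
  rw [dif_pos hs, h1]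

theorem thm_TRE : St_TRE := by
  intro κ
  refine ⟨?_, tre_left κ⟩
  rintro ⟨F, rfl, hF⟩
  exact tre_right F hF

end Pool.Agent.KCS
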