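import Pool.Agent.KCS.St

/-!
# KCS/TRN (helper56): the translations
-/

set_option autoImplicit false

namespace Pool.Agent.KCS

open Set

private lemma trn_inj (u : NNRat) : Function.Injective (fun w : NNRat => w + u) :=
  fun _ _ h => add_right_cancel h

/-- the translation -/
private noncomputable def trn_n (u : NNRat) (f : Om) : Om :=
  Finsupp.comapDomain (fun w : NNRat => w + u) f (trn_inj u).injOn

private lemma trn_apply (u : NNRat) (f : Om) (w : NNRat) : trn_n u f w = f (w + u) := rfl

private lemma trn_ag (u w : NNRat) (f g : Om) : Ag w (trn_n u f) (trn_n u g) ↔ Ag (w + u) f g := by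
  constructor
  · intro h y hy
    have hu : u ≤ y := le_trans le_add_self hy
    have h1 := h (y - u) (le_tsub_of_add_le_right hy)
    rw [trn_apply, trn_apply, tsub_add_cancel_of_le hu] at h1
    exact h1
  · intro h x hx
    rw [trn_apply, trn_apply]
    exact h _ (add_le_add_left hx u)

private lemma trn_zero (f g : Om) : Ag 0 f g ↔ f = g :=
  ⟨fun h => Finsupp.ext fun w => h w zero_le, fun h _ _ => by rw [h]⟩

theorem thm_TRN : St_TRN := by
  intro u
  refine ⟨trn_n u, ⟨?_, ?_, ?_⟩, ?_⟩
  · intro g
    refine ⟨Finsupp.embDomain ⟨fun w : NNRat => w + u, trn_inj u⟩ g, ?_⟩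
    ext w
    rw [trn_apply]
    exact Finsupp.embDomain_apply_self ⟨fun w : NNRat => w + u, trn_inj u⟩ g w
  · intro w
    exact ⟨w + u, fun f g => trn_ag u w f g⟩
  · intro w h
    have huw : u ≤ w := by
      by_contra hlt
      rw [not_le] at hlt
      have h1 := h (Finsupp.single w 1) 0 (by
        ext x
        rw [trn_apply, trn_apply, Finsupp.single_apply, if_neg]
        · rfl
        · intro h2
          have h3 : u ≤ w := by
            rw [h2]
            exact le_add_self
          exact absurd hlt (not_lt.mpr h3)) w le_rfl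
      rw [Finsupp.single_eq_same] at h1
      exact one_ne_zero h1
    refine ⟨w - u, fun f g => ?_⟩
    rw [trn_ag, tsub_add_cancel_of_le huw]
  · intro f g
    rw [← trn_zero (trn_n u f), trn_ag, zero_add]

end Pool.Agent.KCS
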