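import Pool.Agent.KCS.St

/-!
# KCS/UNI: countable systems of charts are unique (back and forth)
-/

set_option autoImplicit false

namespace Pool.Agent.KCS

open Set

section

variable {W X X' : Type} {M : Set (W → W)} {L : Set (X → W)} {L' : Set (X' → W)}

/-- a state of the back and forth construction -/
structure uni_St (M : Set (W → W)) (L : Set (X → W)) (L' : Set (X' → W)) where
  c : X → W
  c' : X' → W
  k : ℕ
  b : Fin k → X
  b' : Fin k → X'
  hc : c ∈ L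
  hc' : c' ∈ L'
  eq : ∀ i, c (b i) = c' (b' i)
  inj : Function.Injective (fun i => c (b i))

/-- the order of the states -/
def uni_Le (s t : uni_St M L L') : Prop :=
  (∃ m ∈ M, s.c = m ∘ t.c ∧ s.c' = m ∘ t.c') ∧ ∀ i, ∃ j, t.b j = s.b i ∧ t.b' j = s.b' i

theorem uni_refl (hM : Mon M) (s : uni_St M L L') : uni_Le s s :=
  ⟨⟨id, hM.one, rfl, rfl⟩, fun i => ⟨i, rfl, rfl⟩⟩

theorem uni_trans (hM : Mon M) {s t u : uni_St M L L'} (h : uni_Le s t) (h' : uni_Le t u) :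
    uni_Le s u := by
  obtain ⟨⟨m, hm, e1, e2⟩, h2⟩ := h
  obtain ⟨⟨n, hn, e3, e4⟩, h4⟩ := h'
  refine ⟨⟨m ∘ n, hM.comp m hm n hn, ?_, ?_⟩, fun i => ?_⟩
  · rw [e1, e3]
    rfl
  · rw [e2, e4]
    rfl
  · obtain ⟨j, hj1, hj2⟩ := h2 i
    obtain ⟨l, hl1, hl2⟩ := h4 j
    exact ⟨l, hl1.trans hj1, hl2.trans hj2⟩

theorem uni_inj' (s : uni_St M L L') : Function.Injective (fun i => s.c' (s.b' i)) := by
  have e : (fun i => s.c' (s.b' i)) = fun i => s.c (s.b i) := funext fun i => (s.eq i).symm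
  rw [e]
  exact s.inj

/-- the state with the two sides exchanged -/
def uni_swap (s : uni_St M L L') : uni_St M L' L where
  c := s.c'
  c' := s.c
  k := s.k
  b := s.b'
  b' := s.b
  hc := s.hc'
  hc' := s.hc
  eq := fun i => (s.eq i).symm
  inj := uni_inj' s

theorem uni_le_swap {s t : uni_St M L L'} (h : uni_Le (uni_swap s) (uni_swap t)) : uni_Le s t := by
  obtain ⟨⟨m, hm, e1, e2⟩, h2⟩ := h
  refine ⟨⟨m, hm, e2, e1⟩, fun i => ?_⟩
  obtain ⟨j, h3, h4⟩ := h2 i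
  exact ⟨j, h4, h3⟩

theorem uni_swap_swap (s : uni_St M L L') : uni_swap (uni_swap s) = s := rfl

theorem uni_refine (hL : Sys M ⊥ L) (hL' : Sys M ⊥ L') {k : ℕ} {b : Fin k → X} {b' : Fin k → X'}
    {c : X → W} (hc : c ∈ L) {c' : X' → W} (hc' : c' ∈ L') (eq : ∀ i, c (b i) = c' (b' i))
    (inj : Function.Injective (fun i => c (b i))) {d : X → W} (hd : d ∈ L) :
    ∃ e ∈ L, ∃ e' ∈ L', ∃ m ∈ M, ∃ n ∈ M, c = m ∘ e ∧ c' = m ∘ e' ∧ d = n ∘ e ∧
      ∀ i, e (b i) = e' (b' i) := by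
  obtain ⟨e, he, m, hm, n, hn, e1, e2⟩ := hL.dir c hc d hd
  have e0 : (fun i => c' (b' i)) = fun i => c (b i) := funext fun i => (eq i).symm
  obtain ⟨e', he', e3, e4⟩ := hL'.ext c' hc' m hm k b' (fun i => e (b i))
    (fun i => by rw [← eq i, e1]; rfl) (by rw [e0]; exact inj)
  exact ⟨e, he, e', he', m, hm, n, hn, e1, e3, e2, fun i => (e4 i).symm⟩

theorem uni_inj_of {k : ℕ} {b : Fin k → X} {c e : X → W} {m : W → W} (h : c = m ∘ e)
    (inj : Function.Injective (fun i => c (b i))) : Function.Injective (fun i => e (b i)) := by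
  intro i j hij
  apply inj
  show c (b i) = c (b j)
  rw [h]
  exact congrArg m hij

theorem uni_refines (hM : Mon M) (hL : Sys M ⊥ L) (hL' : Sys M ⊥ L') {k : ℕ} {b : Fin k → X}
    {b' : Fin k → X'} {c : X → W} (hc : c ∈ L) {c' : X' → W} (hc' : c' ∈ L')
    (eq : ∀ i, c (b i) = c' (b' i)) (inj : Function.Injective (fun i => c (b i)))
    (l : List (X → W)) (hl : ∀ d ∈ l, d ∈ L) :
    ∃ e ∈ L, ∃ e' ∈ L', ∃ m ∈ M, c = m ∘ e ∧ c' = m ∘ e' ∧ (∀ d ∈ l, ∃ n ∈ M, d = n ∘ e) ∧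
      ∀ i, e (b i) = e' (b' i) := by
  induction l with
  | nil =>
    exact ⟨c, hc, c', hc', id, hM.one, rfl, rfl, fun d hd => absurd hd (List.not_mem_nil), eq⟩
  | cons d l ih =>
    obtain ⟨e, he, e', he', m, hm, h1, h2, h3, h4⟩ := ih fun d hd => hl d (List.mem_cons_of_mem _ hd)
    obtain ⟨f, hf, f', hf', m', hm', n, hn, g1, g2, g3, g4⟩ := uni_refine hL hL' he he' h4
      (uni_inj_of h1 inj) (hl d List.mem_cons_self)
    refine ⟨f, hf, f', hf', m ∘ m', hM.comp m hm m' hm', ?_, ?_, ?_, g4⟩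
    · rw [h1, g1]
      rfl
    · rw [h2, g2]
      rfl
    · intro d' hd'
      rcases List.mem_cons.1 hd' with rfl | hd'
      · exact ⟨n, hn, g3⟩
      · obtain ⟨n', hn', e1⟩ := h3 d' hd'
        refine ⟨n' ∘ m', hM.comp n' hn' m' hm', ?_⟩
        rw [e1, g1]
        rfl

/-- refinement by a chart of the first system -/
theorem uni_chart (hL : Sys M ⊥ L) (hL' : Sys M ⊥ L') (s : uni_St M L L') {d : X → W} (hd : d ∈ L) :
    ∃ t : uni_St M L L', uni_Le s t ∧ ∃ n ∈ M, d = n ∘ t.c := by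
  obtain ⟨e, he, e', he', m, hm, n, hn, h1, h2, h3, h4⟩ := uni_refine hL hL' s.hc s.hc' s.eq s.inj hd
  exact ⟨⟨e, e', s.k, s.b, s.b', he, he', h4, uni_inj_of h1 s.inj⟩,
    ⟨⟨m, hm, h1, h2⟩, fun i => ⟨i, rfl, rfl⟩⟩, n, hn, h3⟩

/-- refinement by a point of the first set -/
theorem uni_point (hM : Mon M) (hL : Sys M ⊥ L) (hL' : Sys M ⊥ L') (s : uni_St M L L') (x : X) :
    ∃ t : uni_St M L L', uni_Le s t ∧ ∃ i, t.b i = x := by
  by_cases hx : ∃ i, s.b i = x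
  · exact ⟨s, uni_refl hM s, hx⟩
  push Not at hx
  have h0 : ∀ i, ∃ d ∈ L, d (s.b i) ≠ d x := fun i => hL.sep _ _ (hx i)
  choose d hd hdx using h0
  obtain ⟨e, he, e', he', m, hm, h1, h2, h3, h4⟩ := uni_refines hM hL hL' s.hc s.hc' s.eq s.inj
    (List.ofFn d) (by
      intro f hf
      obtain ⟨i, rfl⟩ := (List.mem_ofFn' d f).1 hf
      exact hd i)
  have h5 : ∀ i, e (s.b i) ≠ e x := by
    intro i hi
    obtain ⟨n, hn, e1⟩ := h3 (d i) ((List.mem_ofFn' d _).2 ⟨i, rfl⟩)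
    apply hdx i
    rw [e1]
    exact congrArg n hi
  obtain ⟨a, ha, -⟩ := hL'.fib e' he' (e x)
  refine ⟨⟨e, e', s.k + 1, Fin.cons x s.b, Fin.cons (a 0) s.b', he, he', ?_, ?_⟩,
    ⟨⟨m, hm, h1, h2⟩, fun i => ⟨i.succ, ?_, ?_⟩⟩, 0, ?_⟩
  · intro i
    refine Fin.cases ?_ (fun i => ?_) i
    · exact (ha 0).symm
    · exact h4 i
  · intro i j
    refine Fin.cases ?_ (fun i => ?_) i <;> refine Fin.cases ?_ (fun j => ?_) j
    · intro _
      rfl
    · intro hij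
      have hij' : e ((Fin.cons x s.b : Fin (s.k + 1) → X) 0) =
        e ((Fin.cons x s.b : Fin (s.k + 1) → X) j.succ) := hij
      rw [Fin.cons_zero, Fin.cons_succ] at hij'
      exact absurd hij'.symm (h5 j)
    · intro hij
      have hij' : e ((Fin.cons x s.b : Fin (s.k + 1) → X) i.succ) =
        e ((Fin.cons x s.b : Fin (s.k + 1) → X) 0) := hij
      rw [Fin.cons_zero, Fin.cons_succ] at hij'
      exact absurd hij' (h5 i)
    · intro hij
      have hij' : e ((Fin.cons x s.b : Fin (s.k + 1) → X) i.succ) =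
        e ((Fin.cons x s.b : Fin (s.k + 1) → X) j.succ) := hij
      rw [Fin.cons_succ, Fin.cons_succ] at hij'
      exact congrArg Fin.succ (uni_inj_of h1 s.inj hij')
  · rfl
  · rfl
  · rfl

end

theorem thm_UNI : St_UNI := by
  intro W M hM X X' _ _ L L' hLc hLc' hL hL'
  classical
  have : Countable L := hLc.to_subtype
  have : Countable L' := hLc'.to_subtype
  letI : Preorder (uni_St M L L') :=
    { le := uni_Le
      le_refl := uni_refl hM
      le_trans := fun _ _ _ h h' => uni_trans hM h h' }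
  have hle : ∀ s t : uni_St M L L', s ≤ t ↔ uni_Le s t := fun s t => Iff.rfl
  letI : Encodable (L ⊕ L' ⊕ X ⊕ X') := Encodable.ofCountable _
  let D : (L ⊕ L' ⊕ X ⊕ X') → Order.Cofinal (uni_St M L L') := fun a =>
    match a with
    | Sum.inl d => ⟨{t | ∃ n ∈ M, d.1 = n ∘ t.c}, fun s => by
        obtain ⟨t, h1, h2⟩ := uni_chart hL hL' s d.2
        exact ⟨t, h2, h1⟩⟩
    | Sum.inr (Sum.inl d) => ⟨{t | ∃ n ∈ M, d.1 = n ∘ t.c'}, fun s => by
        obtain ⟨t, h1, h2⟩ := uni_chart hL' hL (uni_swap s) d.2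
        exact ⟨uni_swap t, h2, uni_le_swap h1⟩⟩
    | Sum.inr (Sum.inr (Sum.inl x)) => ⟨{t | ∃ i, t.b i = x}, fun s => by
        obtain ⟨t, h1, h2⟩ := uni_point hM hL hL' s x
        exact ⟨t, h2, h1⟩⟩
    | Sum.inr (Sum.inr (Sum.inr x)) => ⟨{t | ∃ i, t.b' i = x}, fun s => by
        obtain ⟨t, h1, h2⟩ := uni_point hM hL' hL (uni_swap s) x
        exact ⟨uni_swap t, h2, uni_le_swap h1⟩⟩
  obtain ⟨c₀, hc₀⟩ := hL.ne
  obtain ⟨c₀', hc₀'⟩ := hL'.ne
  let s₀ : uni_St M L L' := ⟨c₀, c₀', 0, Fin.elim0, Fin.elim0, hc₀, hc₀', fun i => i.elim0,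
    fun i => i.elim0⟩
  let s : ℕ → uni_St M L L' := Order.sequenceOfCofinals s₀ D
  have hmono : ∀ i j, i ≤ j → uni_Le (s i) (s j) := fun i j hij =>
    Order.sequenceOfCofinals.monotone s₀ D hij
  have hmem : ∀ a, ∃ j, s j ∈ (D a).carrier := fun a =>
    ⟨Encodable.encode a + 1, Order.sequenceOfCofinals.encode_mem s₀ D a⟩
  -- the relation
  let R : X → X' → Prop := fun x x' => ∃ j i, (s j).b i = x ∧ (s j).b' i = x'
  have hRj : ∀ x x', R x x' → ∃ j₀, ∀ j, j₀ ≤ j → ∃ i, (s j).b i = x ∧ (s j).b' i = x' := by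
    rintro x x' ⟨j₀, i, h1, h2⟩
    refine ⟨j₀, fun j hj => ?_⟩
    obtain ⟨l, h3, h4⟩ := (hmono j₀ j hj).2 i
    exact ⟨l, h3.trans h1, h4.trans h2⟩
  have hRc : ∀ x x', R x x' → ∀ j, (s j).c x = (s j).c' x' := by
    intro x x' h j
    obtain ⟨j₀, hj₀⟩ := hRj x x' h
    obtain ⟨i, h1, h2⟩ := hj₀ (max j₀ j) (le_max_left _ _)
    obtain ⟨⟨m, hm, e1, e2⟩, -⟩ := hmono j (max j₀ j) (le_max_right _ _)
    rw [e1, e2, ← h1, ← h2]
    exact congrArg m ((s (max j₀ j)).eq i)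
  have hR1 : ∀ x, ∃ x', R x x' := by
    intro x
    obtain ⟨j, i, hi⟩ := hmem (Sum.inr (Sum.inr (Sum.inl x)))
    exact ⟨(s j).b' i, j, i, hi, rfl⟩
  have hR2 : ∀ x', ∃ x, R x x' := by
    intro x'
    obtain ⟨j, i, hi⟩ := hmem (Sum.inr (Sum.inr (Sum.inr x')))
    exact ⟨(s j).b i, j, i, rfl, hi⟩
  have hR3 : ∀ x x' y', R x x' → R x y' → x' = y' := by
    intro x x' y' h h'
    obtain ⟨j, hj⟩ := hRj x x' h
    obtain ⟨j', hj'⟩ := hRj x y' h'
    obtain ⟨p, h1, h2⟩ := hj (max j j') (le_max_left _ _)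
    obtain ⟨q, h3, h4⟩ := hj' (max j j') (le_max_right _ _)
    have hpq : p = q := (s (max j j')).inj (by
      show (s (max j j')).c _ = (s (max j j')).c _
      rw [h1, h3])
    rw [← h2, ← h4, hpq]
  have hR4 : ∀ x y x', R x x' → R y x' → x = y := by
    intro x y x' h h'
    obtain ⟨j, hj⟩ := hRj x x' h
    obtain ⟨j', hj'⟩ := hRj y x' h'
    obtain ⟨p, h1, h2⟩ := hj (max j j') (le_max_left _ _)
    obtain ⟨q, h3, h4⟩ := hj' (max j j') (le_max_right _ _)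
    have hpq : p = q := uni_inj' (s (max j j')) (by
      show (s (max j j')).c' _ = (s (max j j')).c' _
      rw [h2, h4])
    rw [← h1, ← h3, hpq]
  choose f hf using hR1
  have hfb : Function.Bijective f := by
    constructor
    · intro x y hxy
      exact hR4 x y (f x) (hf x) (hxy ▸ hf y)
    · intro x'
      obtain ⟨x, hx⟩ := hR2 x'
      exact ⟨x, hR3 x _ _ (hf x) hx⟩
  refine ⟨Equiv.ofBijective f hfb, ?_⟩
  have hcf : ∀ j, (s j).c = (s j).c' ∘ f := fun j => funext fun x => hRc x (f x) (hf x) j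
  ext c
  constructor
  · intro hc
    obtain ⟨j, n, hn, e1⟩ := hmem (Sum.inl ⟨c, hc⟩)
    refine ⟨n ∘ (s j).c', hL'.act _ (s j).hc' n hn, ?_⟩
    show (n ∘ (s j).c') ∘ f = c
    have e2 : c = n ∘ (s j).c := e1
    rw [e2, hcf j]
    rfl
  · rintro ⟨c', hc', rfl⟩
    obtain ⟨j, n, hn, e1⟩ := hmem (Sum.inr (Sum.inl ⟨c', hc'⟩))
    show c' ∘ f ∈ L
    have e2 : c' = n ∘ (s j).c' := e1
    have e3 : c' ∘ f = n ∘ (s j).c := by
      rw [e2, hcf j]
      rfl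
    rw [e3]
    exact hL.act _ (s j).hc n hn

end Pool.Agent.KCS
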