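import Pool.Agent.KCS.St

/-!
# KCS/WIT (helper90): the extension property of the monoid of surjections (MP_9f6ce3_lc)
-/

set_option autoImplicit false
set_option linter.unusedVariables false

namespace Pool.Agent.KCS

open FirstOrder Set Cardinal
open scoped Ordinal

private lemma wit_ag0 (f g : Om) : Ag 0 f g ↔ f = g := by
  constructor
  · intro h
    ext w
    exact h w (zero_le)
  · rintro rfl w _
    rfl

private lemma wit_mono {u u' : NNRat} (h : u ≤ u') {f g : Om} (hf : Ag u f g) : Ag u' f g :=
  fun w hw => hf w (h.trans hw)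

private lemma wit_symm {u : NNRat} {f g : Om} (hf : Ag u f g) : Ag u g f := fun w hw => (hf w hw).symm

private lemma wit_ker {ρ : Om → Om} (h : Srj ρ) : ∃ v, ∀ f g, ρ f = ρ g ↔ Ag v f g := by
  obtain ⟨v, hv⟩ := h.pull 0
  refine ⟨v, fun f g => ?_⟩
  rw [← hv f g, wit_ag0]

/-- two different functions which agree from `v` on, if `v` is bigger than `u` -/
private lemma wit_single {u v : NNRat} (h : u < v) : Ag v (Finsupp.single u 1) 0 := by
  intro w hw
  have hne : w ≠ u := (h.trans_le hw).ne'
  simp [hne.symm]

private lemma wit_glue (t' : NNRat) (H : NNRat → NNRat) (hH : Function.Injective H) (b p q f : Om) :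
    ∃ g : Om, ∀ w, g w = if w < t' then Equiv.swap (p (H w)) (q w) (f (H w)) else b w := by
  classical
  have hfin : (Function.support (fun w => if w < t' then Equiv.swap (p (H w)) (q w) (f (H w)) else b w)).Finite := by
    have h1 : (H ⁻¹' (f.support : Set NNRat)).Finite := Set.Finite.preimage hH.injOn f.support.finite_toSet
    have h2 : (H ⁻¹' (p.support : Set NNRat)).Finite := Set.Finite.preimage hH.injOn p.support.finite_toSet
    refine (((h1.union h2).union q.support.finite_toSet).union b.support.finite_toSet).subset ?_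
    intro w hw
    by_contra hn
    simp only [Set.mem_union, Set.mem_preimage, Finset.mem_coe, Finsupp.mem_support_iff, not_or, not_not] at hn
    obtain ⟨⟨⟨e1, e2⟩, e3⟩, e4⟩ := hn
    apply hw
    simp [e1, e2, e3, e4]
  exact ⟨Finsupp.ofSupportFinite _ hfin, fun w => rfl⟩

private lemma wit_glue2 (t v : NNRat) (H G : NNRat → NNRat) (hHG : ∀ w, v ≤ w → H (G w) = w) (b p q g : Om) :
    ∃ f : Om, ∀ w, f w = if t ≤ w then b w else if v ≤ w then Equiv.swap (p w) (q (G w)) (g (G w)) else 0 := by
  classical
  have hfin : (Function.support (fun w => if t ≤ w then b w else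
      if v ≤ w then Equiv.swap (p w) (q (G w)) (g (G w)) else 0)).Finite := by
    have h1 : (H '' (g.support : Set NNRat)).Finite := g.support.finite_toSet.image H
    have h2 : (H '' (q.support : Set NNRat)).Finite := q.support.finite_toSet.image H
    refine (((h1.union h2).union p.support.finite_toSet).union b.support.finite_toSet).subset ?_
    intro w hw
    by_contra hn
    simp only [Set.mem_union, Finset.mem_coe, Finsupp.mem_support_iff, not_or, not_not] at hn
    obtain ⟨⟨⟨e1, e2⟩, e3⟩, e4⟩ := hn
    apply hw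
    show (if t ≤ w then b w else if v ≤ w then Equiv.swap (p w) (q (G w)) (g (G w)) else 0) = 0
    split_ifs with h3 h4
    · exact e4
    · have e1' : g (G w) = 0 := by
        by_contra hg
        exact e1 ⟨G w, by simpa using hg, hHG w h4⟩
      have e2' : q (G w) = 0 := by
        by_contra hg
        exact e2 ⟨G w, by simpa using hg, hHG w h4⟩
      rw [e1', e2', e3]
      simp
    · rfl
  exact ⟨Finsupp.ofSupportFinite _ hfin, fun w => rfl⟩

private lemma wit_scale (t t' : NNRat) (ht : 0 < t) (ht' : 0 < t') :
    ∃ (v : NNRat) (H G : NNRat → NNRat), 0 < v ∧ StrictMono H ∧ H 0 = v ∧ (∀ w, w < t' ↔ H w < t) ∧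
      (∀ w, G (H w) = w) ∧ ∀ w, v ≤ w → H (G w) = w := by
  refine ⟨t / 2, fun w => t / 2 + w * ((t / 2) / t'), fun w => (w - t / 2) * (t' / (t / 2)), by positivity, ?_, by simp, ?_, ?_, ?_⟩
  · intro a b hab
    have : 0 < (t / 2) / t' := by positivity
    have h := mul_lt_mul_of_pos_right hab this
    show t / 2 + a * ((t / 2) / t') < t / 2 + b * ((t / 2) / t')
    gcongr
  · intro w
    have h0 : 0 < t / 2 := by positivity
    have h1 : t = t / 2 + t' * ((t / 2) / t') := by
      field_simp
      norm_num
    show w < t' ↔ t / 2 + w * ((t / 2) / t') < t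
    have hc : 0 < (t / 2) / t' := by positivity
    conv_rhs => rw [h1]
    rw [show t / 2 + t' * (t / 2 / t') = t from h1.symm] 
    conv_rhs => rhs; rw [h1]
    rw [add_lt_add_iff_left, mul_lt_mul_iff_left₀ hc]
  · intro w
    show (t / 2 + w * ((t / 2) / t') - t / 2) * (t' / (t / 2)) = w
    rw [add_tsub_cancel_left]
    field_simp
  · intro w hw
    show t / 2 + (w - t / 2) * (t' / (t / 2)) * ((t / 2) / t') = w
    have : (w - t / 2) * (t' / (t / 2)) * ((t / 2) / t') = w - t / 2 := by field_simp
    rw [this]
    exact add_tsub_cancel_of_le hw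

theorem thm_WIT (hSRJ : St_SRJ) : St_WIT := by
  classical
  obtain ⟨-, hcomp, hinv, -⟩ := hSRJ
  intro x m hx hm hxi n a s has hinj
  obtain ⟨t, ht⟩ := wit_ker hx
  obtain ⟨t', ht'⟩ := wit_ker hm
  have htpos : 0 < t := by
    rcases eq_or_lt_of_le (zero_le (a := t)) with h | h
    · exfalso
      apply hxi
      intro f g hfg
      rw [ht, ← h, wit_ag0] at hfg
      exact hfg
    · exact h
  rcases eq_or_lt_of_le (zero_le (a := t')) with h0 | hpos
  · -- `m` is injective
    have hmi : Function.Injective m := by
      intro f g hfg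
      rw [ht', ← h0, wit_ag0] at hfg
      exact hfg
    obtain ⟨m', hm', h1, h2⟩ := hinv m hm hmi
    have hxe : x = m ∘ (m' ∘ x) := by
      funext f
      exact (h2 (x f)).symm
    refine ⟨m' ∘ x, hcomp x m' hx hm', ?_, hxe, ?_⟩
    · intro hi
      apply hxi
      rw [hxe]
      exact hmi.comp hi
    · intro i
      show m' (x (a i)) = s i
      rw [has i, h1]
  · obtain ⟨v, H, G, hv, hH, hH0, hHt, hGH, hHG⟩ := wit_scale t t' htpos hpos
    obtain ⟨σ, hσ⟩ : ∃ σ : Om → Om, ∀ b, m (σ b) = b := ⟨Function.surjInv hm.sur, Function.surjInv_eq hm.sur⟩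
    obtain ⟨P, Q, hPQ⟩ : ∃ P Q : Om → Om, ∀ i, P (x (a i)) = a i ∧ Q (x (a i)) = s i := by
      refine ⟨fun z => if h : ∃ i, z = x (a i) then a h.choose else 0, fun z => if h : ∃ i, z = x (a i) then s h.choose else 0, ?_⟩
      intro i
      have h : ∃ j, x (a i) = x (a j) := ⟨i, rfl⟩
      have he : h.choose = i := (hinj h.choose_spec).symm
      constructor
      · show (if h : ∃ j, x (a i) = x (a j) then a h.choose else 0) = a i
        rw [dif_pos h, he]
      · show (if h : ∃ j, x (a i) = x (a j) then s h.choose else 0) = s i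
        rw [dif_pos h, he]
    choose Y hY using fun f : Om => wit_glue t' H hH.injective (σ (x f)) (P (x f)) (Q (x f)) f
    have hYlow : ∀ f w, w < t' → Y f w = Equiv.swap (P (x f) (H w)) (Q (x f) w) (f (H w)) := by
      intro f w hw
      rw [hY f w, if_pos hw]
    have hYhigh : ∀ f w, t' ≤ w → Y f w = σ (x f) w := by
      intro f w hw
      rw [hY f w, if_neg (not_lt.2 hw)]
    have hmY : ∀ f, m (Y f) = x f := by
      intro f
      have h1 : m (Y f) = m (σ (x f)) := (ht' _ _).2 (fun w hw => hYhigh f w hw)
      rw [h1, hσ]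
    have hxY : x = m ∘ Y := by
      funext f
      exact (hmY f).symm
    have hYa : ∀ i, Y (a i) = s i := by
      intro i
      ext w
      rcases lt_or_ge w t' with hw | hw
      · rw [hYlow _ _ hw, (hPQ i).1, (hPQ i).2, Equiv.swap_apply_left]
      · rw [hYhigh _ _ hw]
        have h1 : m (s i) = m (σ (x (a i))) := by rw [hσ, has i]
        exact (((ht' _ _).1 h1) w hw).symm
    have key1 : ∀ f g, Ag t' (Y f) (Y g) ↔ Ag t f g := by
      intro f g
      rw [← ht', hmY, hmY, ht]
    have key2 : ∀ w, w < t' → ∀ f g, Ag w (Y f) (Y g) ↔ Ag (H w) f g := by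
      intro w hw f g
      constructor
      · intro h
        have h1 : Ag t f g := (key1 f g).1 (wit_mono hw.le h)
        have hxe : x f = x g := (ht f g).2 h1
        intro w' hw'
        rcases lt_or_ge w' t with h2 | h2
        · have h3 : H 0 ≤ w' := (hH.monotone (zero_le (a := w))).trans hw'
          rw [hH0] at h3
          have h4 : H (G w') = w' := hHG w' h3
          have h5 : w ≤ G w' := by
            rw [← hH.le_iff_le, h4]
            exact hw'
          have h6 : G w' < t' := by
            rw [hHt, h4]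
            exact h2
          have h7 := h (G w') h5
          rw [hYlow _ _ h6, hYlow _ _ h6, hxe, h4] at h7
          exact (Equiv.injective _) h7
        · exact h1 w' h2
      · intro h
        have h0 : H w < t := (hHt w).1 hw
        have h1 : Ag t f g := wit_mono h0.le h
        have hxe : x f = x g := (ht f g).2 h1
        intro w' hw'
        rcases lt_or_ge w' t' with h2 | h2
        · rw [hYlow _ _ h2, hYlow _ _ h2, hxe, h (H w') (hH.monotone hw')]
        · rw [hYhigh _ _ h2, hYhigh _ _ h2, hxe]
    have key0 : ∀ f g, Y f = Y g ↔ Ag v f g := by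
      intro f g
      rw [← wit_ag0, key2 0 hpos, hH0]
    refine ⟨Y, ⟨?_, ?_, ?_⟩, ?_, hxY, hYa⟩
    · -- surjective
      intro g
      obtain ⟨f₀, hf₀⟩ := hx.sur (m g)
      obtain ⟨f, hf⟩ := wit_glue2 t v H G hHG f₀ (P (x f₀)) (Q (x f₀)) g
      have hxf : x f = x f₀ := by
        rw [ht]
        intro w hw
        rw [hf, if_pos hw]
      refine ⟨f, ?_⟩
      ext w
      rcases lt_or_ge w t' with hw | hw
      · have h1 : H w < t := (hHt w).1 hw
        have h2 : v ≤ H w := by
          rw [← hH0]
          exact hH.monotone (zero_le (a := w))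
        rw [hYlow _ _ hw, hxf, hf, if_neg (not_le.2 h1), if_pos h2, hGH, Equiv.swap_apply_self]
      · rw [hYhigh _ _ hw, hxf, hf₀]
        have h1 : m g = m (σ (m g)) := by rw [hσ]
        exact (((ht' _ _).1 h1) w hw).symm
    · -- pull
      intro u
      rcases lt_or_ge u t' with hu | hu
      · exact ⟨H u, key2 u hu⟩
      · obtain ⟨w', hw'⟩ := hm.push u (fun f g hfg => wit_mono hu ((ht' f g).1 hfg))
        obtain ⟨w'', hw''⟩ := hx.pull w'
        refine ⟨w'', fun f g => ?_⟩
        rw [hw', hmY, hmY, hw'']
    · -- push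
      intro u hu
      have hvu : v ≤ u := by
        by_contra hlt
        have hlt := not_le.1 hlt
        have h1 := hu _ _ ((key0 _ _).2 (wit_single hlt)) u le_rfl
        simp at h1
      rcases lt_or_ge u t with h2 | h2
      · have h4 : H (G u) = u := hHG u hvu
        have h6 : G u < t' := by
          rw [hHt, h4]
          exact h2
        refine ⟨G u, fun f g => ?_⟩
        rw [key2 _ h6, h4]
      · obtain ⟨w, hw⟩ := hx.push u (fun f g hfg => wit_mono h2 ((ht f g).1 hfg))
        obtain ⟨w', hw'⟩ := hm.pull w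
        refine ⟨w', fun f g => ?_⟩
        rw [hw, ← hw', hmY, hmY]
    · -- not injective
      intro hi
      have h1 := hi ((key0 _ _).2 (wit_single hv))
      simp at h1

end Pool.Agent.KCS
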