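import Pool.Agent.KCS.St
import Pool.Agent.KCS.SRJ
import Pool.Agent.KCS.TRN
import Pool.Agent.KCS.WIT
import Pool.Agent.KCS.MON
import Pool.Agent.KCS.UNI
import Pool.Agent.KCS.BAS
import Pool.Agent.KCS.QUO
import Pool.Agent.KCS.CST
import Pool.Agent.KCS.EXT
import Pool.Agent.KCS.EXR
import Pool.Agent.KCS.BIG
import Pool.Agent.KCS.SZ1
import Pool.Agent.KCS.SZ2
import Pool.Agent.KCS.CHN
import Pool.Agent.KCS.BND
import Pool.Agent.KCS.TRE
import Pool.Agent.KCS.DFN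
import Pool.Agent.KCS.AXS
import Pool.Agent.KCS.CMP
import Pool.Agent.KCS.SPC
import Pool.Agent.KCS.FIN

/-!
# KCS/ASM (helper79): assembly
-/

namespace Pool.Agent.KCS

theorem asm_mon : St_MON := thm_MON thm_SRJ thm_TRN (thm_WIT thm_SRJ)

theorem asm_cst : St_CST := thm_CST thm_BAS thm_QUO

theorem asm_ext : St_EXT := thm_EXT thm_UNI thm_BAS thm_QUO

theorem asm_sz1 : St_SZ1 := thm_SZ1 (thm_BIG thm_QUO asm_cst (thm_EXR thm_QUO asm_ext))

theorem asm_spc : St_SPC := thm_SPC asm_sz1 (thm_SZ2 asm_sz1) (thm_BND thm_CHN) thm_TRE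

theorem asm_fin : St_FIN := thm_FIN asm_mon (thm_AXS thm_DFN) (thm_CMP thm_UNI asm_cst) asm_spc

end Pool.Agent.KCS
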