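import Pool.Agent.KCS.St

/-!
# KCS/DFN (helper55): calculus of definable properties
-/

set_option autoImplicit false

namespace Pool.Agent.KCS

open FirstOrder Set Cardinal

theorem dfn_neg {L : FirstOrder.Language.{0, 0}} {n : ℕ} {P : ∀ (U : Type) [L.Structure U], (Fin n → U) → Prop}
    (h : Dfn L n P) : Dfn L n (fun U _ v => ¬ P U v) := by
  obtain ⟨φ, hφ⟩ := h
  refine ⟨.neg φ, fun U _ v => ?_⟩
  simp only [Fm.Tr]
  exact not_congr (hφ U v)

theorem dfn_congr {L : FirstOrder.Language.{0, 0}} {n : ℕ} {P Q : ∀ (U : Type) [L.Structure U], (Fin n → U) → Prop}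
    (h : Dfn L n P) (hPQ : ∀ (U : Type) [L.Structure U] (v : Fin n → U), P U v ↔ Q U v) : Dfn L n Q := by
  obtain ⟨φ, hφ⟩ := h
  exact ⟨φ, fun U _ v => (hφ U v).trans (hPQ U v)⟩

theorem dfn_all {L : FirstOrder.Language.{0, 0}} {n : ℕ} {P : ∀ (U : Type) [L.Structure U], (Fin (n + 1) → U) → Prop}
    (h : Dfn L (n + 1) P) : Dfn L n (fun U _ v => ∀ x : U, P U (Fin.snoc v x)) := by
  obtain ⟨φ, hφ⟩ := h
  refine ⟨.all φ, fun U _ v => ?_⟩
  simp only [Fm.Tr]
  exact forall_congr' fun x => hφ U _

theorem dfn_eql {L : FirstOrder.Language.{0, 0}} {n : ℕ} (i j : Fin n) :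
    Dfn L n (fun U _ v => v i = v j) := by
  refine ⟨.eql (.var i) (.var j), fun U _ v => ?_⟩
  simp only [Fm.Tr, FirstOrder.Language.Term.realize_var]

theorem dfn_true {L : FirstOrder.Language.{0, 0}} (n : ℕ) :
    Dfn L n (fun U _ v => True) := by
  refine dfn_congr (dfn_all (dfn_eql (Fin.last n) (Fin.last n))) ?_
  intro U _ v
  simp

theorem dfn_inf {L : FirstOrder.Language.{0, 0}} {n : ℕ} {ι : Type} [Countable ι]
    {P : ι → ∀ (U : Type) [L.Structure U], (Fin n → U) → Prop} (h : ∀ i, Dfn L n (P i)) :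
    Dfn L n (fun U _ v => ∀ i, P i U v) := by
  rcases isEmpty_or_nonempty ι with hι | hι
  · refine dfn_congr (dfn_true n) ?_
    intro U _ v
    exact ⟨fun _ i => (hι.false i).elim, fun _ => trivial⟩
  · obtain ⟨e, he⟩ := exists_surjective_nat ι
    choose φ hφ using h
    refine ⟨.inf fun k => φ (e k), fun U _ v => ?_⟩
    simp only [Fm.Tr]
    constructor
    · intro h i
      obtain ⟨k, rfl⟩ := he i
      exact (hφ _ U v).1 (h k)
    · intro h k
      exact (hφ _ U v).2 (h (e k))

theorem dfn_sup {L : FirstOrder.Language.{0, 0}} {n : ℕ} {ι : Type} [Countable ι]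
    {P : ι → ∀ (U : Type) [L.Structure U], (Fin n → U) → Prop} (h : ∀ i, Dfn L n (P i)) :
    Dfn L n (fun U _ v => ∃ i, P i U v) := by
  refine dfn_congr (dfn_neg (dfn_inf (fun i => dfn_neg (h i)))) ?_
  intro U _ v
  push Not
  rfl

theorem dfn_block {L : FirstOrder.Language.{0, 0}} {n : ℕ} (k : ℕ) :
    ∀ (P : ∀ (U : Type) [L.Structure U], (Fin (n + k) → U) → Prop), Dfn L (n + k) P →
      Dfn L n (fun U _ v => ∀ x : Fin k → U, P U (Fin.append v x)) := by
  induction k with
  | zero =>
    intro P h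
    refine dfn_congr (L := L) (n := n) (P := P) h ?_
    intro U _ v
    constructor
    · intro hv x
      have hx : Fin.append v x = v := by
        funext i
        have : i = Fin.castAdd 0 i := rfl
        rw [this, Fin.append_left]
        rfl
      rw [hx]
      exact hv
    · intro hv
      have := hv Fin.elim0
      have hx : Fin.append v (Fin.elim0 : Fin 0 → U) = v := by
        funext i
        have : i = Fin.castAdd 0 i := rfl
        rw [this, Fin.append_left]
        rfl
      rw [hx] at this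
      exact this
  | succ k ih =>
    intro P h
    have h1 : Dfn L (n + k) (fun U _ v => ∀ x : U, P U (Fin.snoc v x)) := dfn_all h
    refine dfn_congr (ih _ h1) ?_
    intro U _ v
    constructor
    · intro hv x
      have h2 := hv (Fin.init x) (x (Fin.last k))
      rw [← Fin.append_snoc, Fin.snoc_init_self] at h2
      exact h2
    · intro hv y z
      have h2 := hv (Fin.snoc y z)
      rw [Fin.append_snoc] at h2
      exact h2

theorem dfn_blockEx {L : FirstOrder.Language.{0, 0}} {n : ℕ} (k : ℕ)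
    (P : ∀ (U : Type) [L.Structure U], (Fin (n + k) → U) → Prop) (h : Dfn L (n + k) P) :
      Dfn L n (fun U _ v => ∃ x : Fin k → U, P U (Fin.append v x)) := by
  refine dfn_congr (dfn_neg (dfn_block k _ (dfn_neg h))) ?_
  intro U _ v
  push Not
  rfl

theorem dfn_rel (W : Type) (n : ℕ) (w : W) (i j : Fin n) :
    Dfn (Lg W) n (fun U _ v => Rw W U w (v i) (v j)) := by
  refine ⟨.rel (k := 2) (show (Lg W).Relations 2 from w) ![.var i, .var j], fun U _ v => ?_⟩
  simp only [Fm.Tr, Rw]
  have : (fun k => (![FirstOrder.Language.Term.var i, FirstOrder.Language.Term.var j] k : (Lg W).Term (Fin n)).realize v) =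
      ![v i, v j] := by
    funext k
    fin_cases k <;> rfl
  rw [this]

/-- `St_DFN`. -/
theorem thm_DFN : St_DFN :=
  fun W => ⟨fun _ _ h => dfn_neg h, fun _ _ _ _ h => ⟨dfn_inf h, dfn_sup h⟩,
    fun _ k P h => ⟨dfn_block k P h, dfn_blockEx k P h⟩, fun _ i j => dfn_eql i j, fun n w i j => dfn_rel W n w i j⟩

end Pool.Agent.KCS
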