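import Mathlib

/-!
# KCS (helper79): Kurepa cardinals are characterizable by a complete sentence (MP_9f6ce3_lc).  Definitions
-/

set_option autoImplicit false
set_option linter.unusedVariables false

namespace Pool.Agent.KCS

open FirstOrder Set Cardinal
open scoped Ordinal

/-! ### The logic L_{ω₁,ω} -/

/-- formulas of `L_{ω₁,ω}` in the vocabulary `L` with free variables among `n` variables: equality, relations, negation, countable
conjunctions, universal quantification of one variable -/
inductive Fm (L : FirstOrder.Language.{0, 0}) : ℕ → Type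
  | eql {n : ℕ} (s t : L.Term (Fin n)) : Fm L n
  | rel {n k : ℕ} (R : L.Relations k) (t : Fin k → L.Term (Fin n)) : Fm L n
  | neg {n : ℕ} (φ : Fm L n) : Fm L n
  | inf {n : ℕ} (φ : ℕ → Fm L n) : Fm L n
  | all {n : ℕ} (φ : Fm L (n + 1)) : Fm L n

/-- truth of a formula in the structure `U` -/
def Fm.Tr {L : FirstOrder.Language.{0, 0}} (U : Type) [L.Structure U] : {n : ℕ} → Fm L n → (Fin n → U) → Prop
  | _, .eql s t, v => s.realize v = t.realize v
  | _, .rel R t, v => FirstOrder.Language.Structure.RelMap R (fun i => (t i).realize v)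
  | _, .neg φ, v => ¬ Fm.Tr U φ v
  | _, .inf φ, v => ∀ i, Fm.Tr U (φ i) v
  | _, .all φ, v => ∀ x : U, Fm.Tr U φ (Fin.snoc v x)

/-- the structure `U` is a model of the sentence `φ` -/
def Sat {L : FirstOrder.Language.{0, 0}} (U : Type) [L.Structure U] (φ : Fm L 0) : Prop := φ.Tr U Fin.elim0

/-- the sentence `φ` has a model of cardinality `κ` -/
def HasModel {L : FirstOrder.Language.{0, 0}} (φ : Fm L 0) (κ : Cardinal.{0}) : Prop :=
  ∃ (U : Type) (_ : L.Structure U), #U = κ ∧ Sat U φ

/-- the sentence `φ` is complete: up to isomorphism it has exactly one countable model -/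
def Complete {L : FirstOrder.Language.{0, 0}} (φ : Fm L 0) : Prop :=
  (∃ (U : Type) (_ : L.Structure U), Countable U ∧ Sat U φ) ∧
    ∀ (U V : Type) [L.Structure U] [L.Structure V], Countable U → Countable V → Sat U φ → Sat V φ → Nonempty (U ≃[L] V)

/-- the sentence `φ` characterizes the infinite cardinal `κ`: it has a model of cardinality `κ` and none of cardinality `κ⁺` -/
def Characterizes {L : FirstOrder.Language.{0, 0}} (φ : Fm L 0) (κ : Cardinal.{0}) : Prop :=
  ℵ₀ ≤ κ ∧ HasModel φ κ ∧ ¬ HasModel φ (Order.succ κ)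

/-- `κ` is characterizable by a complete sentence in a countable vocabulary -/
def CompletelyCharacterizable (κ : Cardinal.{0}) : Prop :=
  ∃ (L : FirstOrder.Language.{0, 0}) (φ : Fm L 0), Countable L.Symbols ∧ Complete φ ∧ Characterizes φ κ

/-! ### Trees of height ω₁ with countable levels -/

/-- a tree of height at most `ω₁` with countable levels; `ht t` is the level of the element `t` -/
structure IsTree (T : Type) [PartialOrder T] (ht : T → Ordinal.{0}) : Prop where
  lt : ∀ t, ht t < ω₁
  mono : ∀ s t, s < t → ht s < ht t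
  pred : ∀ t α, α < ht t → ∃! s, s < t ∧ ht s = α
  lev : ∀ α, {t | ht t = α}.Countable

/-- the cofinal branches: chains which meet every level `α < ω₁` -/
def Branch (T : Type) [PartialOrder T] (ht : T → Ordinal.{0}) : Set (Set T) :=
  {b | IsChain (· ≤ ·) b ∧ ∀ α < ω₁, ∃ t ∈ b, ht t = α}

/-- some tree of height `ω₁` with countable levels has at least `κ` cofinal branches -/
def ManyBranches (κ : Cardinal.{0}) : Prop :=
  ∃ (T : Type) (_ : PartialOrder T) (ht : T → Ordinal.{0}), IsTree T ht ∧ κ ≤ #(Branch T ht)

end Pool.Agent.KCS
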