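import Pool.Agent.KCS.Defs

/-!
# KCS/St (helper79): statements with complete proofs.  Paper text: team store, KCS_paper.md

Module XXX is `Pool/Agent/KCS/XXX.lean` with `theorem thm_XXX (hAAA : St_AAA) .. : St_XXX`; the hypotheses are listed under HYPS.
Aux lemmas: names beginning with `xxx_` or private.  Every file: `import Pool.Agent.KCS.St`, namespace `Pool.Agent.KCS`.

PLAN.  A level of a Kurepa tree is a countable set.  CHARTS = maps from the tree (the set `X` of its branches) onto a fixed countable set `W`,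
constant on the classes of a level; all charts are related by a fixed countable monoid `M` of surjections `W → W` (`Mon`).  A system of
charts (`Sys`) on `X` for an equivalence relation `r`.  Countable systems are unique (UNI), so they extend from level to level (EXT, EXR), and
Zorn (BIG) gives systems on the branches of any Kurepa tree (SZ1, SZ2).  Conversely (BND) a system gives a Kurepa tree.  The
systems are the models of a sentence of `L_{ω₁,ω}` (AXS), which is complete by UNI (CMP).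
-/

set_option autoImplicit false
set_option linter.unusedVariables false

namespace Pool.Agent.KCS

open FirstOrder Set Cardinal
open scoped Ordinal

/-! ### The concrete set of labels -/

/-- finitely supported functions on the nonnegative rationals -/
abbrev Om : Type := NNRat →₀ ℕ

/-- `f` and `g` agree on `[u, ∞)` -/
def Ag (u : NNRat) (f g : Om) : Prop := ∀ w, u ≤ w → f w = g w

/-- surjections which transport the chain of the equivalence relations `Ag u`, `u ≥ t`, onto the whole chain -/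
structure Srj (ρ : Om → Om) : Prop where
  sur : Function.Surjective ρ
  pull : ∀ u, ∃ v, ∀ f g, Ag u (ρ f) (ρ g) ↔ Ag v f g
  push : ∀ u, (∀ f g, ρ f = ρ g → Ag u f g) → ∃ v, ∀ f g, Ag u f g ↔ Ag v (ρ f) (ρ g)

/-- the properties of the countable monoid of chart changes -/
structure Mon {W : Type} (M : Set (W → W)) : Prop where
  lab : Countable W
  cnt : M.Countable
  one : (id : W → W) ∈ M
  comp : ∀ k ∈ M, ∀ m ∈ M, k ∘ m ∈ M
  sur : ∀ m ∈ M, Function.Surjective m
  chain : ∀ k ∈ M, ∀ m ∈ M, ∃ z ∈ M, k = z ∘ m ∨ m = z ∘ k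
  ext : ∀ x ∈ M, ¬ Function.Injective x → ∀ m ∈ M, ∀ (n : ℕ) (a s : Fin n → W), (∀ i, x (a i) = m (s i)) →
    Function.Injective (fun i => x (a i)) → ∃ y ∈ M, ¬ Function.Injective y ∧ x = m ∘ y ∧ ∀ i, y (a i) = s i
  non : ∃ x ∈ M, ¬ Function.Injective x
  cls : ∀ w : W, ∃ a : ℕ → W, Function.Injective a ∧ ∀ i, ∀ n ∈ M, ¬ Function.Injective n → n (a i) = n w
  fib : ∀ x ∈ M, ¬ Function.Injective x → ∀ w : W, ∃ a : ℕ → W, (∀ i, x (a i) = w) ∧
    ∀ i j, i ≠ j → ∃ n ∈ M, ¬ Function.Injective n ∧ n (a i) ≠ n (a j)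

/-- a system of charts for the equivalence relation `r` on `X` -/
structure Sys {W X : Type} (M : Set (W → W)) (r : Setoid X) (L : Set (X → W)) : Prop where
  ne : L.Nonempty
  inv : ∀ c ∈ L, ∀ a b, r a b → c a = c b
  act : ∀ c ∈ L, ∀ m ∈ M, m ∘ c ∈ L
  dir : ∀ c ∈ L, ∀ c' ∈ L, ∃ d ∈ L, ∃ m ∈ M, ∃ k ∈ M, c = m ∘ d ∧ c' = k ∘ d
  sep : ∀ a b, ¬ r a b → ∃ c ∈ L, c a ≠ c b
  ext : ∀ c ∈ L, ∀ m ∈ M, ∀ (n : ℕ) (a : Fin n → X) (s : Fin n → W), (∀ i, c (a i) = m (s i)) →
    Function.Injective (fun i => c (a i)) → ∃ d ∈ L, c = m ∘ d ∧ ∀ i, d (a i) = s i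
  fib : ∀ c ∈ L, ∀ w : W, ∃ a : ℕ → X, (∀ i, c (a i) = w) ∧ ∀ i j, i ≠ j → ¬ r (a i) (a j)

/-- the equivalence relation `~` on `W` of the base system -/
def til {W : Type} (M : Set (W → W)) : Setoid W where
  r a b := ∀ n ∈ M, ¬ Function.Injective n → n a = n b
  iseqv := ⟨fun _ _ _ _ => rfl, fun h n hn hi => (h n hn hi).symm, fun h h' n hn hi => (h n hn hi).trans (h' n hn hi)⟩

/-! ### The monoid -/

/-- [SRJ] formal closure properties of `Srj`.
HYPS: none.
PROOF.  `Ag u` is an equivalence relation, `Ag u → Ag v` for `u ≤ v` (so any two are comparable), `Ag 0` is equality.  `ker ρ`: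
`pull 0`: `v` with `ρ f = ρ g ↔ Ag v f g`.  Composition `ρ' ∘ ρ`: pull: twice pull.  push: `ρ' (ρ f) = ρ' (ρ g) → Ag u f g`; in particular
`ρ f = ρ g → Ag u f g`: push of `ρ`: `v` with `Ag u f g ↔ Ag v (ρ f) (ρ g)`; `ρ' a = ρ' b → Ag v a b` (`a = ρ f`, `b = ρ g`, `sur`): push of `ρ'`.
Inverse: `ρ` bijective, `ρ'` the inverse: pull of `ρ'` at `u` is push of `ρ` at `u` (the hypothesis holds: `ρ f = ρ g → f = g`), push of `ρ'` at `u` is
pull of `ρ` at `u`.  Last: `v`, `v'` the kernels; let `v ≤ v'` (the other case is symmetric): `ρ f = ρ g → ρ' f = ρ' g`, so there is `z` with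
`ρ' = z ∘ ρ` (`z a = ρ' f` for some `f` with `ρ f = a`).  sur: clear.  pull of `z` at `u`: `w` with `Ag u (ρ' f) (ρ' g) ↔ Ag w f g` (pull of `ρ'`); so
`ρ f = ρ g → ρ' f = ρ' g → Ag w f g`, push of `ρ` at `w`: `w'` with `Ag w f g ↔ Ag w' (ρ f) (ρ g)`: `Ag u (z a) (z b) ↔ Ag w' a b`.  push of `z` at `u`
(`z a = z b → Ag u a b`): pull of `ρ` at `u`: `w`, `Ag u (ρ f) (ρ g) ↔ Ag w f g`; `ρ' f = ρ' g → Ag u (ρ f) (ρ g) → Ag w f g`: push of `ρ'` at `w`: `w'`,
`Ag w f g ↔ Ag w' (ρ' f) (ρ' g)`: `Ag u a b ↔ Ag w' (z a) (z b)`. -/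
def St_SRJ : Prop :=
  Srj id ∧ (∀ ρ ρ', Srj ρ → Srj ρ' → Srj (ρ' ∘ ρ)) ∧
    (∀ ρ, Srj ρ → Function.Injective ρ → ∃ ρ', Srj ρ' ∧ (∀ a, ρ' (ρ a) = a) ∧ ∀ a, ρ (ρ' a) = a) ∧
    ∀ ρ ρ', Srj ρ → Srj ρ' → ∃ z, Srj z ∧ (ρ' = z ∘ ρ ∨ ρ = z ∘ ρ')

/-- [TRN] the translations.
HYPS: none.
PROOF.  `n f w := f (w + u)` (`Finsupp.comapDomain` for `w ↦ w + u`, injective).  Surjective: `g ↦ f`, `f w = g (w - u)` for `u ≤ w`, `0` otherwise
(`Finsupp.embDomain` / `mapDomain` along `w ↦ w + u`).  `Ag w (n f) (n g) ↔ Ag (w + u) f g`; if `n f = n g → Ag w f g` then `u ≤ w` (otherwise change the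
value of `0` at a point of `[w, u)`, e.g. at `w`: `f = single w 1`, `g = 0`), `w = w' + u`. -/
def St_TRN : Prop := ∀ u : NNRat, ∃ n : Om → Om, Srj n ∧ ∀ f g, n f = n g ↔ Ag u f g

/-- [WIT] the extension property.
HYPS: SRJ.
PROOF.  Kernels (pull 0): `x f = x g ↔ Ag t f g`, `m f = m g ↔ Ag t' f g`; `t > 0`, because `x` is not injective.  If `t' = 0`: `m` is injective, `y := m⁻¹ ∘ x`
(SRJ).  Let `t' > 0`.  `v := t / 2`, `h w := (w - v) * (t' / (t - v))` for `v ≤ w < t`, `h⁻¹ w := v + w * ((t - v) / t')` for `w < t'` (mutually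
inverse, increasing).  `σ` a section of `m` (`m (σ b) = b`).  For `f : Om` let `p f, q f : Om` be: if there is `i` with `x f = x (a i)` (unique) `p f = a i`,
`q f = s i`, otherwise `p f = q f = 0`; they depend only on `x f`.  `y f w := σ (x f) w` for `t' ≤ w`, and
`y f w := Equiv.swap (p f (h⁻¹ w)) (q f w) (f (h⁻¹ w))` for `w < t'`.  Finite support: for `w < t'` with `y f w ≠ 0` one of `f (h⁻¹ w)`, `p f (h⁻¹ w)`,
`q f w` is not `0`.  `Ag t' (y f) (σ (x f))`, so `m (y f) = x f`.  `y (a i) = s i`: for `w < t'` the transposition maps `a i (h⁻¹ w)` to `s i w`; for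
`t' ≤ w`: `m (s i) = x (a i) = m (σ (x (a i)))`, so `Ag t' (s i) (σ (x (a i)))`.
KEY: (1) `Ag t' (y f) (y g) ↔ m (y f) = m (y g) ↔ x f = x g ↔ Ag t f g`; (2) for `w < t'`: `Ag w (y f) (y g) ↔ Ag (h⁻¹ w) f g` (by (1) both sides imply
`x f = x g`, and then `p`, `q` are the same and swaps are injective, `h⁻¹` maps `[w, t')` onto `[h⁻¹ w, t)`).
pull at `w ≥ t'`: push of `m` at `w` (`m a = m b → Ag t' a b → Ag w a b`): `w'` with `Ag w a b ↔ Ag w' (m a) (m b)`; then pull of `x` at `w'`.  pull at `w < t'`: (2).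
push at `u` (`y f = y g → Ag u f g`): `y f = y g ↔ Ag 0 (y f) (y g) ↔ Ag v f g` (`h⁻¹ 0 = v`), so `v ≤ u` (else `single u 1` and `0`); if `u < t`: (2) for
`w = h u`; if `t ≤ u`: push of `x` at `u`: `w` with `Ag u f g ↔ Ag w (x f) (x g)`; `x = m ∘ y`, pull of `m` at `w`: `Ag w (m a) (m b) ↔ Ag w' a b`.
Not injective: `y f = y g ↔ Ag v f g`, `v > 0`: `single 0 1` and `0`.  Surjective: let `g : Om`; `f₀` with `x f₀ = m g`; `f w := f₀ w` for `t ≤ w`,
`f w := Equiv.swap (p f₀ w) (q f₀ (h w)) (g (h w))` for `v ≤ w < t`, `0` for `w < v`; `x f = x f₀`, `y f = g`. -/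
def St_WIT : Prop :=
  ∀ x m : Om → Om, Srj x → Srj m → ¬ Function.Injective x → ∀ (n : ℕ) (a s : Fin n → Om), (∀ i, x (a i) = m (s i)) →
    Function.Injective (fun i => x (a i)) → ∃ y, Srj y ∧ ¬ Function.Injective y ∧ x = m ∘ y ∧ ∀ i, y (a i) = s i

/-- [MON] the monoid exists.
HYPS: SRJ, TRN, WIT.
PROOF.  `W := Om` (countable).  Operations on `S := {ρ | Srj ρ}`: composition; for `k, m` the `z` of SRJ (4) (chosen); for `x, m ∈ S`, `n`, `a, s : Fin n → Om`
with the hypotheses of WIT the chosen `y` (otherwise `id`): countably many binary operations (`Om` and `Σ n, (Fin n → Om) × (Fin n → Om)` are countable).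
`M` := the closure of the countable set of the translations (TRN, one for every `u`; `id ∈ M`: add it): `M = ⋃ M_j`, `M_{j+1} = M_j ∪` all values of the
operations on `M_j`: countable.  Fields `lab` .. `ext`: clear.  non: the translation by `1` has kernel `Ag 1`.  For `n ∈ M` not injective the kernel is `Ag t`,
`t > 0`.  cls: `a i := w` with the value at `0` replaced by `i`: `Ag t (a i) w` for all `t > 0`.  fib: `x ∈ M` with kernel `Ag t`, `t > 0`; `f` with `x f = w`
(sur); `a i := f` with the value at `t / 2` replaced by `i`; `n` := the translation with kernel `Ag (t / 2)` separates `a i`, `a j`. -/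
def St_MON : Prop := ∃ (W : Type) (M : Set (W → W)), Mon M

/-! ### Systems -/

/-- [UNI] countable systems are unique.
HYPS: none.
PROOF.  Back and forth.  STATES `(c, c', k, b, b')`: `c ∈ L`, `c' ∈ L'`, `b : Fin k → X`, `b' : Fin k → X'`, `c (b i) = c' (b' i)`, `i ↦ c (b i)` injective.
Order: `(c, c', ..) ≤ (e, e', ..)` iff there is ONE `m ∈ M` with `c = m ∘ e`, `c' = m ∘ e'`, and the set of the pairs `(b i, b' i)` is contained in the one of the
other state.  (1) for every `d ∈ L` the states with `d = k ∘ c` for some `k ∈ M` are cofinal: `dir` for `c`, `d`: `e ∈ L`, `c = m ∘ e`, `d = k ∘ e`; `s i := e (b i)`;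
`c' (b' i) = m (s i)`, `ext` of `L'`: `e' ∈ L'`, `c' = m ∘ e'`, `e' (b' i) = s i`.  (2) for every `x : X` the states with `x = b i` for some `i` are cofinal: for each `i` with `b i ≠ x` a
chart of `L` separates them (`sep` for `⊥`), by (1) (finitely many times; separated by `k ∘ c` implies separated by `c`) we may assume
`c x ≠ c (b i)` for all `i`; `fib` of `L'`: `x'` with `c' x' = c x`; add the pair `(x, x')`.  (3), (4): the same for `L'`, `X'`.  Countably many cofinal sets (`L`, `L'`,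
`X`, `X'` are countable; start: any `c ∈ L`, `c' ∈ L'`, `k = 0`): an increasing sequence of states `s_j` meeting all of them (`Order.sequenceOfCofinals` or by
hand).  `β`: the union of the pairs; it is a bijection (`c (b i) = c' (b' i)`, injectivity) and `c_j = c'_j ∘ β` for every `j` (for `x : X` take `i ≥ j` with
`x` in the state `s_i`; `c_j x = m (c_i x) = m (c'_i (β x)) = c'_j (β x)`).  `L = {k ∘ c_j} `, `L' = {k ∘ c'_j}` (`k ∈ M`; act and (1), (3)). -/
def St_UNI : Prop :=
  ∀ (W : Type) (M : Set (W → W)), Mon M → ∀ (X X' : Type) [Countable X] [Countable X'] (L : Set (X → W)) (L' : Set (X' → W)),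
    L.Countable → L'.Countable → Sys M ⊥ L → Sys M ⊥ L' → ∃ β : X ≃ X', L = (fun c => c ∘ β) '' L'

/-- [BAS] the base system.
HYPS: none.
PROOF.  ne: `non`.  inv: definition of `til`.  act: `m ∘ n ∈ M` is not injective.  dir: `chain`: `c = z ∘ c'` or `c' = z ∘ c`; `d := c'` or `c`, with `one`.  sep: definition.
ext: `ext` of `Mon`.  fib: `fib` of `Mon`. -/
def St_BAS : Prop :=
  ∀ (W : Type) (M : Set (W → W)), Mon M → Sys M (til M) {n ∈ M | ¬ Function.Injective n}

/-- [QUO] systems for `r` on `X` are systems on the quotient.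
HYPS: none.
PROOF.  Charts for `r` are constant on the classes.  (1): lift the charts; representatives of the points.  (2), (3): clear; the infinitely many points of
`fib` in different classes go to different points and conversely. -/
def St_QUO : Prop :=
  ∀ (W X : Type) (M : Set (W → W)) (r : Setoid X),
    (∀ L : Set (X → W), Sys M r L → Sys M (⊥ : Setoid (Quotient r)) {c | c ∘ Quotient.mk r ∈ L}) ∧
    (∀ L : Set (Quotient r → W), Sys M ⊥ L → Sys M r ((fun c => c ∘ Quotient.mk r) '' L)) ∧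
    ∀ (Y : Type) (e : Y ≃ Quotient r) (L : Set (X → W)), Sys M r L →
      Sys M (⊥ : Setoid Y) {c : Y → W | c ∘ e.symm ∘ Quotient.mk r ∈ L}

/-- [CST] every countably infinite set has a countable system.
HYPS: MON is not needed (`Mon M` is given); BAS, QUO.
PROOF.  BAS; `Quotient (til M)` is countable, infinite (`fib` of the system for `⊥`, QUO (1), or `fib` of `Mon`), so there is `e : Y ≃ Quotient (til M)`; QUO (3).
The system is countable: `c ↦ c ∘ e.symm ∘ mk` is injective into `M`. -/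
def St_CST : Prop :=
  ∀ (W : Type) (M : Set (W → W)), Mon M → ∀ (Y : Type) [Countable Y] [Infinite Y], ∃ L : Set (Y → W), L.Countable ∧ Sys M ⊥ L

/-- [EXT] extension of countable systems.
HYPS: UNI, BAS, QUO.
PROOF.  `Q := Quotient (til M)`, `N := {n ∈ M | not injective}`, for `n ∈ N` let `n̄ : Q → W` be the induced map.  `{n̄}` is a countable system on `Q` (BAS, QUO (1)).
UNI: `β : Y ≃ Q` with `L = {n̄ ∘ β | n ∈ N}`.  `π : W → Q` has infinite fibres (`cls`), `β ∘ ρ : Y' → Q` too; `Y'`, `W` are countable.  So there is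
`v : Y' → W` with `π ∘ v = β ∘ ρ` and all fibres of `v` infinite (for every class `C`: the fibre of `β ∘ ρ` over `C` is countably infinite, `≃ C × ℕ`, because
`C` is countable and not empty).  `n₀ ∈ N` (`non`): `n̄₀ : Q → W` has infinite fibres (`fib`).  So there is a bijection `β' : Y' ≃ Q` with `n̄₀ ∘ β' = v` (the fibres
of both over every `w : W` are countably infinite: `Equiv.sigmaFiberEquiv`).  `L' := {n̄ ∘ β' | n ∈ N}` (QUO (3) for `r = til M`, `e = β'`), countable.
`c ∈ L`: `c = m̄ ∘ β`, `m ∈ N`; `m ∘ n₀ ∈ N`, `(m ∘ n₀)‾ ∘ β' = m ∘ n̄₀ ∘ β' = m ∘ v = m̄ ∘ π ∘ v = m̄ ∘ β ∘ ρ = c ∘ ρ`. -/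
def St_EXT : Prop :=
  ∀ (W : Type) (M : Set (W → W)), Mon M → ∀ (Y Y' : Type) [Countable Y] [Countable Y'] (L : Set (Y → W)) (ρ : Y' → Y),
    L.Countable → Sys M ⊥ L → (∀ y, {y' | ρ y' = y}.Infinite) →
    ∃ L' : Set (Y' → W), L'.Countable ∧ Sys M ⊥ L' ∧ ∀ c ∈ L, c ∘ ρ ∈ L'

/-- [EXR] the same for two equivalence relations on one set.
HYPS: QUO, EXT.
PROOF.  `Y := Quotient r`, `Y' := Quotient r'`, `ρ` the natural map (`r' ≤ r`), `Y` is countable as an image of `Y'`.  QUO (1) for `L`; EXT; QUO (2) for the result.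
The fibres of `ρ` are infinite by the last hypothesis. -/
def St_EXR : Prop :=
  ∀ (W : Type) (M : Set (W → W)), Mon M → ∀ (X : Type) (r r' : Setoid X) (L : Set (X → W)), L.Countable → Sys M r L →
    Countable (Quotient r') → r' ≤ r → (∀ a, ∃ s : ℕ → X, (∀ i, r a (s i)) ∧ ∀ i j, i ≠ j → ¬ r' (s i) (s j)) →
    ∃ L' : Set (X → W), L'.Countable ∧ L ⊆ L' ∧ Sys M r' L'

/-- [BIG] large systems, by Zorn.
HYPS: QUO, CST, EXR.
PROOF.  Pairs `(α, L)` with `1 ≤ α ≤ δ`, `Sys M (r α) L`, and `L` countable if `α < δ`.  Relation: equal, or `α < α'` and `L ⊆ L'` (transitive).  There is such a pair: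
`α = 1 < δ`: `Quotient (r 1)` is countable and infinite (the last hypothesis for `α = 0` and any point); CST, QUO (2).  Nonempty chains have upper bounds
(`exists_maximal_of_nonempty_chains_bounded`): `α* := sup`; if it is attained, by a pair, that pair is an upper bound.  Otherwise `α*` is a limit ordinal
`≤ δ`; `L* := ⋃ L_i`.  ne; inv: `r α*` is finer than `r α_i`; act; dir, ext: clear (chain); sep: if not `r α* a b` there is `β < α*` with not `r β a b`, then
`i` with `β ≤ α_i`, not `r α_i a b`; fib: different classes of `r α_i` contain different classes of `r α*`.  If `α* < δ ≤ ω₁` the chain is countable (different members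
have different `α_i < α*`, and `α*` is countable), so `L*` is countable.  A maximal pair `(α, L)` has `α = δ`: if `α < δ` then `α + 1 < δ`, EXR for `r α`, `r (α + 1)`.
`r δ = ⊥`. -/
def St_BIG : Prop :=
  ∀ (W : Type) (M : Set (W → W)), Mon M → ∀ (X : Type) [Nonempty X] (δ : Ordinal.{0}) (r : Ordinal.{0} → Setoid X),
    Order.IsSuccLimit δ → δ ≤ ω₁ → (∀ α β, α ≤ β → r β ≤ r α) → r δ = ⊥ →
    (∀ α < δ, Countable (Quotient (r α))) →
    (∀ α ≤ δ, Order.IsSuccLimit α → ∀ a b, (∀ β < α, r β a b) → r α a b) →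
    (∀ α < δ, ∀ a, ∃ s : ℕ → X, (∀ i, r α a (s i)) ∧ ∀ i j, i ≠ j → ¬ r (α + 1) (s i) (s j)) →
    ∃ L : Set (X → W), Sys M ⊥ L

/-- families of functions on `δ` (an ordinal) with countably many restrictions to every proper initial segment -/
def Fam (δ : Ordinal.{0}) (κ : Cardinal.{0}) : Prop :=
  ∃ F : Set (δ.ToType → ℕ), #F = κ ∧
    ∀ i : δ.ToType, (range (fun (f : F) (j : Iio i) => (f : δ.ToType → ℕ) j)).Countable

/-- [SZ1] systems on the branches of a tree.
HYPS: BIG.
PROOF.  `X := F × (δ.ToType →₀ ℕ)`, `r α (f, s) (g, s')` iff `f i = g i` and `s i = s' i` for all `i` with `toOrd i < α` (`Ordinal.ToType.toOrd`).  `#X = κ`: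
`#(δ.ToType →₀ ℕ) = max (#δ.ToType) ℵ₀ ≤ κ`.  Decreasing: clear.  `r δ = ⊥`: `toOrd i < δ` for all `i`.  Quotients for `α < δ`: `α = toOrd i`, a class is determined
by the restriction of `f` to `Iio i` (countably many) and of `s` to `Iio i` (a finitely supported function on a countable set: `α < ω₁`).  Limits: `toOrd i < α`
implies `toOrd i < β` for some `β < α` (`β = toOrd i + 1`).  Last: `α = toOrd i`; change the value of `s` at `i` to `0, 1, 2, ..`. -/
def St_SZ1 : Prop :=
  ∀ (W : Type) (M : Set (W → W)), Mon M → ∀ (δ : Ordinal.{0}) (κ : Cardinal.{0}), Order.IsSuccLimit δ → δ ≤ ω₁ → #(δ.ToType) ≤ κ →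
    Fam δ κ → ∃ (X : Type) (L : Set (X → W)), #X = κ ∧ Sys M ⊥ L

/-- [SZ2] systems of all sizes up to the continuum.
HYPS: SZ1.
PROOF.  `δ := ω`, `F ⊆ (ω.ToType → ℕ)` any set with `κ` elements (`#(ω.ToType → ℕ) = ℵ₀ ^ ℵ₀ = 2 ^ ℵ₀`, `Cardinal.le_mk_iff_exists_set`); `Iio i` is finite, so `Iio i → ℕ` is
countable. -/
def St_SZ2 : Prop :=
  ∀ (W : Type) (M : Set (W → W)), Mon M → ∀ κ : Cardinal.{0}, ℵ₀ ≤ κ → κ ≤ 2 ^ ℵ₀ → ∃ (X : Type) (L : Set (X → W)), #X = κ ∧ Sys M ⊥ L

/-! ### Bounds -/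

/-- [CHN] total preorders with countable initial segments.
HYPS: none.
PROOF.  If there is no countable cofinal set, define by recursion on the well order `ω₁.ToType` elements `s i` with `s i` not `≤` any `s j`, `j < i` (`Iio i` is
countable, so `{s j | j < i}` is not cofinal).  By totality `s j ≤ s i` for `j < i`.  Cofinal: if `p ≤ s i` for no `i` then all `s i ≤ p`; the `s i` are different
(`s i ≤ s j` fails for `j < i`), uncountably many in the countable set `{q | q ≤ p}`.  The cardinality: the union of the initial segments of the elements of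
a cofinal set with at most `ℵ₁` elements. -/
def St_CHN : Prop :=
  ∀ (P : Type) (le : P → P → Prop), (∀ a, le a a) → (∀ a b c, le a b → le b c → le a c) → (∀ a b, le a b ∨ le b a) →
    (∀ a, {b | le b a}.Countable) →
    #P ≤ ℵ₁ ∧ ((∃ C : Set P, C.Countable ∧ ∀ p, ∃ c ∈ C, le p c) ∨
      ∃ s : (ω₁ : Ordinal.{0}).ToType → P, (∀ i j, i < j → le (s i) (s j)) ∧ ∀ p, ∃ i, le p (s i))

/-- [BND] the size of a system.
HYPS: CHN.
PROOF.  `P := L` (subtype), `le c d` iff `c = m ∘ d` for some `m ∈ M`: reflexive (`one`), transitive (`comp`), total (`dir`, `chain`: `c = m ∘ e`, `d = k ∘ e`, `m = z ∘ k` or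
`k = z ∘ m`), countable initial segments (`cnt`).  CHN.  If `C ⊆ L` is a countable cofinal set: `b ↦ (c b)_{c ∈ C}` is injective (`sep`; `c = m ∘ d`, `d ∈ C`), so
`#X ≤ ℵ₀ ^ ℵ₀ = 2 ^ ℵ₀`, and `L = ⋃_{d ∈ C} {m ∘ d}` is countable.  Otherwise `s`: `F := {i ↦ e (s i b) | b : X}`, `e : W → ℕ` injective; `b ↦ (i ↦ e (s i b))` is injective, so
`#F = #X`; the restriction to `Iio i` is determined by `s i b : W` (`s j = m ∘ s i`).  If `X` is countable: in the second case for every pair `a ≠ b` some `i` has `s i a ≠ s i b`,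
and the same for all `j ≥ i`; countably many pairs: one `i` (countable subsets of `ω₁.ToType` are bounded) with `s i` injective, against `fib`; in the first case `L` is
countable. -/
def St_BND : Prop :=
  ∀ (W : Type) (M : Set (W → W)), Mon M → ∀ (X : Type) (L : Set (X → W)), Sys M ⊥ L →
    #L ≤ ℵ₁ ∧ (#X ≤ 2 ^ ℵ₀ ∨ Fam ω₁ (#X)) ∧ (Countable X → L.Countable)

/-- [TRE] families of functions and trees.
HYPS: none.
PROOF.  From left to right: `T := {p : Σ i : ω₁.ToType, (Iio i → ℕ) | p.2 is the restriction of some f ∈ F}`, `p ≤ q` iff `p.1 ≤ q.1` and `p.2` is the restriction of `q.2`,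
`ht p := toOrd p.1`.  `IsTree`: clear (the predecessor of `q` at the level `α = toOrd i` is the restriction to `Iio i`).  `f ↦ {(i, f restricted to Iio i)}` is injective into the
branches (`f j ≠ g j`: look at a level above `j`).  From right to left: `e_α : {t | ht t = α} → ℕ` injective; for a branch `b` and `i : ω₁.ToType`
let `t_i(b) ∈ b` be the element of level `toOrd i` (unique: a chain, `mono`), `f_b i := e (t_i(b))`.  `b ↦ f_b` is injective (`b = {t_i(b)}`, by `lt`).  The restriction of `f_b` to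
`Iio i` is determined by `t_i(b)` (`pred`; `t_j(b) < t_i(b)`).  So the `f_b` are a family with `#(Branch T ht)` members; take a subset with `κ` members. -/
def St_TRE : Prop := ∀ κ : Cardinal.{0}, Fam ω₁ κ ↔ ManyBranches κ

/-! ### The sentence -/

/-- the vocabulary: binary relations `w`, `w : W` -/
def Lg (W : Type) : FirstOrder.Language.{0, 0} where
  Functions := fun _ => Empty
  Relations := fun n => if n = 2 then W else Empty

/-- the relation `w` of the structure `U` -/
def Rw (W U : Type) [(Lg W).Structure U] (w : W) (x b : U) : Prop :=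
  FirstOrder.Language.Structure.RelMap (L := Lg W) (n := 2) (show (Lg W).Relations 2 from w) ![x, b]

/-- `U` is the structure of a system: every element is a chart or a point, not both; `val x b` is the value of the chart `x` at the point `b` -/
def IsMod {W : Type} (M : Set (W → W)) (U : Type) [(Lg W).Structure U] : Prop :=
  ∃ (p : U → Prop) (val : {x : U // ¬ p x} → {b : U // p b} → W),
    (∀ w x b, Rw W U w x b ↔ ∃ (hx : ¬ p x) (hb : p b), val ⟨x, hx⟩ ⟨b, hb⟩ = w) ∧
    Function.Injective val ∧ Sys M ⊥ (range val)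

/-- properties of `n`-tuples (in all structures) which are given by a formula -/
def Dfn (L : FirstOrder.Language.{0, 0}) (n : ℕ) (P : ∀ (U : Type) [L.Structure U], (Fin n → U) → Prop) : Prop :=
  ∃ φ : Fm L n, ∀ (U : Type) [L.Structure U] (v : Fin n → U), φ.Tr U v ↔ P U v

/-- [DFN] calculus of `Dfn`.
HYPS: none.
PROOF.  (1) `neg`.  (2) enumerate `ι` (if `ι` is empty: `∀ x, x = x` type formulas, i.e. `inf` of a true formula: `neg (inf ..)` or
`all (eql x x)`), `inf`.  (3) `all`, `Fin.snoc`.  (4) induction on `k` from (3).  (5) `eql` of variables.  (6) renaming: only for the two atomic relations of `Lg`: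
`rel` with the two variables.  (1)-(4) for `∧`, `∨`, `→`, `∃` follow by negation; they are included. -/
def St_DFN : Prop :=
  ∀ (W : Type),
    (∀ (n : ℕ) (P : ∀ (U : Type) [(Lg W).Structure U], (Fin n → U) → Prop), Dfn (Lg W) n P →
      Dfn (Lg W) n (fun U _ v => ¬ P U v)) ∧
    (∀ (n : ℕ) (ι : Type) [Countable ι] (P : ι → ∀ (U : Type) [(Lg W).Structure U], (Fin n → U) → Prop),
      (∀ i, Dfn (Lg W) n (P i)) → Dfn (Lg W) n (fun U _ v => ∀ i, P i U v) ∧ Dfn (Lg W) n (fun U _ v => ∃ i, P i U v)) ∧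
    (∀ (n k : ℕ) (P : ∀ (U : Type) [(Lg W).Structure U], (Fin (n + k) → U) → Prop), Dfn (Lg W) (n + k) P →
      Dfn (Lg W) n (fun U _ v => ∀ x : Fin k → U, P U (Fin.append v x)) ∧
      Dfn (Lg W) n (fun U _ v => ∃ x : Fin k → U, P U (Fin.append v x))) ∧
    (∀ (n : ℕ) (i j : Fin n), Dfn (Lg W) n (fun U _ v => v i = v j)) ∧
    (∀ (n : ℕ) (w : W) (i j : Fin n), Dfn (Lg W) n (fun U _ v => Rw W U w (v i) (v j)))

/-- [AXS] the sentence.
HYPS: DFN.
PROOF.  `Pt b := ∃ x w, Rw w x b`, `Ch x := ∃ b w, Rw w x b`.  `IsMod M U` is equivalent to the conjunction of: (0) every `u` satisfies exactly one of `Ch u`, `Pt u`; (1) `Ch x`, `Pt b`: exactly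
one `w` has `Rw w x b`; (2) `Ch x`, `Ch y`, `x ≠ y`: some `b`, `w` with `Rw w x b`, not `Rw w y b`; (ne) some `Ch x`; (act) for `m ∈ M`, `Ch x`: some `Ch y` such that for all `b`, `w`: `Rw w x b → Rw (m w) y b`;
(dir) `Ch x`, `Ch x'`: some `Ch y` and `m, k ∈ M` such that for all `b`, `w`: `Rw w y b → Rw (m w) x b ∧ Rw (k w) x' b`; (sep) `Pt a`, `Pt b`, `a ≠ b`: some `x`, `w` with `Rw w x a`, not `Rw w x b`;
(ext) for `m ∈ M`, `n`, `t, s : Fin n → W`, `t` injective, `t i = m (s i)`: for all `x`, `a : Fin n → U` with `Ch x`, `Rw (t i) x (a i)` there is `Ch y` with (for all `b`, `w`: `Rw w y b → Rw (m w) x b`) and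
`Rw (s i) y (a i)`; (fib) `Ch x`, `w`, `n`: there are `a : Fin n → U`, pairwise different, with `Rw w x (a i)`.  (In `IsMod` necessarily `p = Pt`, not `p = Ch`: charts and
points exist, every chart has all values, every point is a value of some chart.)  `W`, `M`, `Σ n, (Fin n → W) × (Fin n → W)` are countable: all conditions are `Dfn` (DFN; nested quantifiers
with `Fin.append`), conjunction: `Dfn (Lg W) 0`. -/
def St_AXS : Prop :=
  ∀ (W : Type) (M : Set (W → W)), Mon M → ∃ ψ : Fm (Lg W) 0, ∀ (U : Type) [(Lg W).Structure U], Sat U ψ ↔ IsMod M U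

/-- [CMP] the sentence is complete.
HYPS: UNI, CST.
PROOF.  `IsMod`: `X := {b // p b}`, `L := range val`, countable for countable `U`; UNI: `β : X ≃ X'`, `L = {c' ∘ β}`; on the charts: `x ↦` the `x'` with `val x = val' x' ∘ β` (`val`, `val'` injective): a
bijection; together a bijection `U ≃ V` preserving all `Rw`, so an isomorphism (`Lg` has only the binary relations).  Existence: CST for `Y = ℕ`: `U := L ⊕ ℕ`, `Rw w (inl c) (inr b)` iff
`c b = w`, and false in the other cases; countable. -/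
def St_CMP : Prop :=
  ∀ (W : Type) (M : Set (W → W)), Mon M → ∀ ψ : Fm (Lg W) 0, (∀ (U : Type) [(Lg W).Structure U], Sat U ψ ↔ IsMod M U) → Complete ψ

/-- [SPC] the spectrum.
HYPS: SZ1, SZ2, BND, TRE.
PROOF.  A model `U` of cardinality `κ ≥ ℵ₀`: `κ = #L + #X` (`L = range val`), `#L ≤ ℵ₁ ≤ 2 ^ ℵ₀` (BND); `X` is infinite (`fib`), so `κ = max (#L) (#X)`; if
`κ = #L`: `κ ≤ 2 ^ ℵ₀`; if `κ = #X`: BND, TRE.  Conversely a system on `X`, `#X = κ` (SZ2 if `κ ≤ 2 ^ ℵ₀`; otherwise `κ > ℵ₁`, TRE, SZ1 for `δ = ω₁`, `#(ω₁.ToType) = ℵ₁ ≤ κ`); `U := L ⊕ X` as in CMP;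
`#U = κ`: `#L ≤ ℵ₁`, and `L` is countable if `κ = ℵ₀` (BND). -/
def St_SPC : Prop :=
  ∀ (W : Type) (M : Set (W → W)), Mon M → ∀ ψ : Fm (Lg W) 0, (∀ (U : Type) [(Lg W).Structure U], Sat U ψ ↔ IsMod M U) →
    ∀ κ : Cardinal.{0}, ℵ₀ ≤ κ → (HasModel ψ κ ↔ κ ≤ 2 ^ ℵ₀ ∨ ManyBranches κ)

/-- [FIN] the theorem.
HYPS: MON, AXS, CMP, SPC.
PROOF.  `Lg W` has countably many symbols.  Second part: `κ ≥ 2 ^ ℵ₀ ≥ ℵ₀` has a model (`ManyBranches κ`), `succ κ > 2 ^ ℵ₀` has none. -/
def St_FIN : Prop :=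
  (∃ (L : FirstOrder.Language.{0, 0}) (ψ : Fm L 0), Countable L.Symbols ∧ Complete ψ ∧
    ∀ κ : Cardinal.{0}, ℵ₀ ≤ κ → (HasModel ψ κ ↔ κ ≤ 2 ^ ℵ₀ ∨ ManyBranches κ)) ∧
  ∀ κ : Cardinal.{0}, 2 ^ ℵ₀ ≤ κ → ManyBranches κ → ¬ ManyBranches (Order.succ κ) → CompletelyCharacterizable κ

end Pool.Agent.KCS
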